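import Pool.Agent.H58.EQ.Defs

/-!
# Algebra of the determinant form; lists and their ascents
-/

namespace Pool.Agent.H58.EQ

open Filter Topology

theorem dt_self (z : ℂ) : dt z z = 0 := by unfold dt; ring

theorem dt_anti (z w : ℂ) : dt z w = - dt w z := by unfold dt; ring

theorem dt_neg_left (z w : ℂ) : dt (-z) w = - dt z w := by unfold dt; simp; ring

theorem dt_neg_right (z w : ℂ) : dt z (-w) = - dt z w := by unfold dt; simp; ring

theorem dt_add_left (z z' w : ℂ) : dt (z + z') w = dt z w + dt z' w := by unfold dt; simp; ring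

theorem dt_add_right (z w w' : ℂ) : dt z (w + w') = dt z w + dt z w' := by unfold dt; simp; ring

theorem dt_sub_left (z z' w : ℂ) : dt (z - z') w = dt z w - dt z' w := by unfold dt; simp; ring

theorem dt_sub_right (z w w' : ℂ) : dt z (w - w') = dt z w - dt z w' := by unfold dt; simp; ring

theorem dt_smul_left (r : ℝ) (z w : ℂ) : dt ((r : ℂ) * z) w = r * dt z w := by
  unfold dt; simp; ring

theorem dt_smul_right (r : ℝ) (z w : ℂ) : dt z ((r : ℂ) * w) = r * dt z w := by
  unfold dt; simp; ring

/-- Plücker relation -/
theorem dt_plucker (a b c d : ℂ) : dt a b * dt c d - dt a c * dt b d + dt a d * dt b c = 0 := by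
  unfold dt; ring

/-- `dt a w > 0, dt b w > 0, dt c w > 0`, `dt a b > 0`, `dt b c > 0` imply `dt a c > 0`. -/
theorem dt_trans {a b c w : ℂ} (ha : 0 < dt a w) (hb : 0 < dt b w) (hc : 0 < dt c w)
    (hab : 0 < dt a b) (hbc : 0 < dt b c) : 0 < dt a c := by
  have h := dt_plucker a b c w
  have h1 : dt a c * dt b w = dt a b * dt c w + dt a w * dt b c := by linarith
  have h2 : 0 < dt a c * dt b w := by rw [h1]; positivity
  by_contra hn
  push Not at hn
  have := mul_nonpos_of_nonpos_of_nonneg hn hb.le
  linarith

theorem continuous_om : Continuous om := by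
  have h : om = fun φ : ℝ => (Real.cos φ : ℂ) + (Real.sin φ : ℂ) * Complex.I := by
    funext φ
    apply Complex.ext
    · simp [om, Complex.cos_ofReal_re]
    · simp [om, Complex.sin_ofReal_re]
  rw [h]; fun_prop

theorem continuous_dt_om_right (z : ℂ) : Continuous (fun φ => dt z (om φ)) := by
  unfold dt om; simp only; fun_prop

theorem continuous_dt_om_left (z : ℂ) : Continuous (fun φ => dt (om φ) z) := by
  unfold dt om; simp only; fun_prop

theorem dt_om_om (a b : ℝ) : dt (om a) (om b) = Real.sin (b - a) := by
  unfold dt om; simp only; rw [Real.sin_sub]; ring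

theorem om_add_two_pi (a : ℝ) : om (a + 2 * Real.pi) = om a := by
  unfold om; simp

theorem om_ne_zero (a : ℝ) : om a ≠ 0 := by
  intro h
  have h1 : Real.cos a = 0 := by have := congrArg Complex.re h; simpa [om] using this
  have h2 : Real.sin a = 0 := by have := congrArg Complex.im h; simpa [om] using this
  have := Real.sin_sq_add_cos_sq a
  rw [h1, h2] at this; norm_num at this

/-! ### ascents -/

theorem asc_cons_cons (x y : ℂ) (l : List ℂ) :
    asc (x :: y :: l) = (if 0 < dt x y then 1 else 0) + asc (y :: l) := by
  rw [asc]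

theorem asc_singleton (x : ℂ) : asc [x] = 0 := by rw [asc]

theorem asc_append_cons (l : List ℂ) (x : ℂ) (r : List ℂ) :
    asc (l ++ x :: r) = asc (l ++ [x]) + asc (x :: r) := by
  induction l with
  | nil => simp [asc_singleton]
  | cons a l ih =>
    cases l with
    | nil =>
      simp only [List.nil_append, List.cons_append, asc_cons_cons, asc_singleton]
      ring
    | cons b l =>
      simp only [List.cons_append, asc_cons_cons] at ih ⊢
      rw [ih]; ring

end Pool.Agent.H58.EQ
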