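import Mathlib

/-!
# Webs of chords around a point: basic definitions (planar part of MP_c65de1_co)
-/

namespace Pool.Agent.H58.EQ

open Filter Topology

/-- The determinant of two planar vectors (written as complex numbers). -/
def dt (z w : ℂ) : ℝ := z.re * w.im - z.im * w.re

/-- The unit vector in direction `φ`. -/
noncomputable def om (φ : ℝ) : ℂ := ⟨Real.cos φ, Real.sin φ⟩

/-- Rotation by `-120°` as a complex number. -/
noncomputable def zb : ℂ := ⟨-1 / 2, -(Real.sqrt 3 / 2)⟩

/-- A web of chords around the origin.  The chord `e` goes from `L e` to `R e` (counterclockwise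
as seen from the origin). -/
structure Web (E : Type) [Fintype E] [DecidableEq E] where
  L : E → ℂ
  R : E → ℂ
  pos : ∀ e, 0 < dt (L e) (R e)
  two : ∀ e, ((Finset.univ.filter fun f => L f = L e).card
      + (Finset.univ.filter fun f => R f = L e).card = 2) ∧
    ((Finset.univ.filter fun f => L f = R e).card
      + (Finset.univ.filter fun f => R f = R e).card = 2)
  genLL : ∀ e f, L e ≠ L f → dt (L e) (L f) ≠ 0
  genLR : ∀ e f, L e ≠ R f → dt (L e) (R f) ≠ 0
  genRR : ∀ e f, R e ≠ R f → dt (R e) (R f) ≠ 0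
  nc : ∀ e f, e ≠ f → ∀ x, 0 ≤ dt (L e) x → 0 ≤ dt x (R e) →
    dt (L e - R e) x = dt (L e) (R e) → 0 ≤ dt (L f) x → 0 ≤ dt x (R f) →
    dt (L f - R f) x = dt (L f) (R f) → (x = L e ∨ x = R e) ∧ (x = L f ∨ x = R f)
  op : ∀ e f, e ≠ f →
    ¬ ((0 ≤ dt (L f) (L e) ∧ 0 ≤ dt (L e) (R f) ∧ dt (L f - R f) (L e) ≤ dt (L f) (R f)) ∧
       (0 ≤ dt (L f) (R e) ∧ 0 ≤ dt (R e) (R f) ∧ dt (L f - R f) (R e) ≤ dt (L f) (R f)))

variable {E : Type} [Fintype E] [DecidableEq E]

namespace Web

/-- The chord `e` crosses the open ray through `x`. -/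
def cr (W : Web E) (e : E) (x : ℂ) : Prop := 0 < dt (W.L e) x ∧ 0 < dt x (W.R e)

/-- The linear functional which is `1` on the line of the chord `e`. -/
noncomputable def kp (W : Web E) (e : E) (x : ℂ) : ℝ := dt (W.L e - W.R e) x / dt (W.L e) (W.R e)

open Classical in
/-- The chords crossing the ray through `x`, from the innermost to the outermost. -/
noncomputable def strands (W : Web E) (x : ℂ) : List E :=
  ((Finset.univ.filter (fun e => W.cr e x)).toList).insertionSort
    (fun e f => W.kp f x ≤ W.kp e x)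

/-- every chord is seen from the origin under an angle of more than `120°` -/
def Wide (W : Web E) : Prop := ∀ e, 0 < dt (W.L e) (W.R e * zb)

/-- every chord is seen from the origin under an angle of more than `90°` -/
def Wide90 (W : Web E) : Prop := ∀ e, 0 < dt (W.L e) (W.R e * (-Complex.I))

/-- `v` is an end point of a chord. -/
def vtx (W : Web E) (v : ℂ) : Prop := ∃ e, v = W.L e ∨ v = W.R e

end Web

/-- Number of ascents of a list of vectors. -/
noncomputable def asc : List ℂ → ℤ
  | [] => 0
  | [_] => 0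
  | x :: y :: l => (if 0 < dt x y then 1 else 0) + asc (y :: l)

/-- The lower label: `u` or `-u`, whichever is on the right side of `x`. -/
noncomputable def V0 (u x : ℂ) : ℂ := if 0 < dt u x then u else -u

/-- The upper label: the last of the three vectors `w, w ζ, w ζ²` before `x`
(`zb = ζ⁻¹`, so `w ζ = w zb²` and `w ζ² = w zb`). -/
noncomputable def V1 (w x : ℂ) : ℂ :=
  if 0 < dt w x ∧ 0 < dt x (w * zb ^ 2) then w
  else if 0 < dt (w * zb ^ 2) x ∧ 0 < dt x (w * zb) then w * zb ^ 2
  else w * zb

/-- The state at direction `x` and its number of ascents. -/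
noncomputable def HH (W : Web E) (u w x : ℂ) : ℤ :=
  asc (V0 u x :: ((W.strands x).map W.L ++ [V1 w x]))

end Pool.Agent.H58.EQ
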