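import Pool.Agent.H58.EQ.Alg

/-!
# Facts about webs: heights, non-crossing, order of strands
-/

namespace Pool.Agent.H58.EQ

open Filter Topology

variable {E : Type} [Fintype E] [DecidableEq E]

namespace Web

theorem kp_eq (W : Web E) (e : E) (x : ℂ) :
    W.kp e x = (dt (W.L e) x + dt x (W.R e)) / dt (W.L e) (W.R e) := by
  unfold kp
  rw [dt_sub_left, dt_anti (W.R e) x]
  ring

theorem kp_mul (W : Web E) (e : E) (x : ℂ) :
    W.kp e x * dt (W.L e) (W.R e) = dt (W.L e) x + dt x (W.R e) := by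
  rw [kp_eq, div_mul_cancel₀ _ (W.pos e).ne']

theorem kp_L (W : Web E) (e : E) : W.kp e (W.L e) = 1 := by
  rw [kp_eq, dt_self, zero_add, div_self (W.pos e).ne']

theorem kp_R (W : Web E) (e : E) : W.kp e (W.R e) = 1 := by
  rw [kp_eq, dt_self, add_zero, div_self (W.pos e).ne']

theorem kp_add (W : Web E) (e : E) (x y : ℂ) : W.kp e (x + y) = W.kp e x + W.kp e y := by
  unfold kp; rw [dt_add_right]; ring

theorem kp_smul (W : Web E) (e : E) (r : ℝ) (x : ℂ) : W.kp e ((r : ℂ) * x) = r * W.kp e x := by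
  unfold kp; rw [dt_smul_right]; ring

theorem kp_pos (W : Web E) (e : E) (x : ℂ) (h : W.cr e x) : 0 < W.kp e x := by
  rw [kp_eq]
  exact div_pos (add_pos h.1 h.2) (W.pos e)

theorem kp_eq_one_iff (W : Web E) (e : E) (x : ℂ) :
    W.kp e x = 1 ↔ dt (W.L e - W.R e) x = dt (W.L e) (W.R e) := by
  unfold kp
  rw [div_eq_one_iff_eq (W.pos e).ne']

theorem kp_le_one_iff (W : Web E) (e : E) (x : ℂ) :
    W.kp e x ≤ 1 ↔ dt (W.L e - W.R e) x ≤ dt (W.L e) (W.R e) := by
  unfold kp
  rw [div_le_one (W.pos e)]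

theorem cr_smul (W : Web E) (e : E) (r : ℝ) (hr : 0 < r) (x : ℂ) :
    W.cr e ((r : ℂ) * x) ↔ W.cr e x := by
  unfold cr
  rw [dt_smul_right, dt_smul_left, mul_pos_iff_of_pos_left hr, mul_pos_iff_of_pos_left hr]

/-- the non-crossing property in terms of `kp` -/
theorem nc' (W : Web E) (e f : E) (hef : e ≠ f) (x : ℂ) (h1 : 0 ≤ dt (W.L e) x)
    (h2 : 0 ≤ dt x (W.R e)) (h3 : W.kp e x = 1) (h4 : 0 ≤ dt (W.L f) x)
    (h5 : 0 ≤ dt x (W.R f)) (h6 : W.kp f x = 1) :
    (x = W.L e ∨ x = W.R e) ∧ (x = W.L f ∨ x = W.R f) :=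
  W.nc e f hef x h1 h2 ((W.kp_eq_one_iff e x).1 h3) h4 h5 ((W.kp_eq_one_iff f x).1 h6)

theorem op' (W : Web E) (e f : E) (hef : e ≠ f) (h1 : 0 ≤ dt (W.L f) (W.L e))
    (h2 : 0 ≤ dt (W.L e) (W.R f)) (h3 : W.kp f (W.L e) ≤ 1) (h4 : 0 ≤ dt (W.L f) (W.R e))
    (h5 : 0 ≤ dt (W.R e) (W.R f)) (h6 : W.kp f (W.R e) ≤ 1) : False :=
  W.op e f hef ⟨⟨h1, h2, (W.kp_le_one_iff f _).1 h3⟩, ⟨h4, h5, (W.kp_le_one_iff f _).1 h6⟩⟩

/-- two different chords crossing the same ray do so at different heights -/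
theorem kp_ne (W : Web E) (e f : E) (hef : e ≠ f) (x : ℂ) (he : W.cr e x) (hf : W.cr f x) :
    W.kp e x ≠ W.kp f x := by
  intro h
  have hk := W.kp_pos e x he
  set k := W.kp e x with hkdef
  have h1 : W.kp e (((k⁻¹ : ℝ) : ℂ) * x) = 1 := by
    rw [kp_smul, ← hkdef, inv_mul_cancel₀ hk.ne']
  have h2 : W.kp f (((k⁻¹ : ℝ) : ℂ) * x) = 1 := by
    rw [kp_smul, ← h, inv_mul_cancel₀ hk.ne']
  have hk' : 0 < k⁻¹ := inv_pos.2 hk
  have he' := (W.cr_smul e k⁻¹ hk' x).2 he
  have hf' := (W.cr_smul f k⁻¹ hk' x).2 hf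
  rcases (W.nc' e f hef _ he'.1.le he'.2.le h1 hf'.1.le hf'.2.le h2).1 with h3 | h3
  · have := he'.1; rw [h3, dt_self] at this; exact lt_irrefl _ this
  · have := he'.2; rw [h3, dt_self] at this; exact lt_irrefl _ this

/-- if `e` ends at `v` and `f` passes above `v` then `L e` comes before `L f` -/
theorem factR (W : Web E) (e f : E) (hf : W.cr f (W.R e)) (hk : W.kp f (W.R e) < 1) :
    0 < dt (W.L e) (W.L f) := by
  have hef : e ≠ f := by
    rintro rfl
    rw [kp_R] at hk; exact lt_irrefl _ hk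
  by_contra hn
  push Not at hn
  by_cases hLL : W.L e = W.L f
  · refine W.op' e f hef ?_ ?_ ?_ hf.1.le hf.2.le hk.le
    · rw [hLL, dt_self]
    · rw [hLL]; exact (W.pos f).le
    · rw [hLL, kp_L]
  · have h1 : dt (W.L e) (W.L f) < 0 := lt_of_le_of_ne hn (W.genLL e f hLL)
    have h2 : 0 < dt (W.L f) (W.L e) := by rw [dt_anti]; linarith
    have h3 : 0 < dt (W.L e) (W.R f) := by
      have hp := dt_plucker (W.L f) (W.L e) (W.R e) (W.R f)
      have h4 : dt (W.L f) (W.R e) * dt (W.L e) (W.R f) =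
          dt (W.L f) (W.L e) * dt (W.R e) (W.R f) + dt (W.L f) (W.R f) * dt (W.L e) (W.R e) := by
        linarith
      have h5 : 0 < dt (W.L f) (W.R e) * dt (W.L e) (W.R f) := by
        rw [h4]
        exact add_pos (mul_pos h2 hf.2) (mul_pos (W.pos f) (W.pos e))
      exact (pos_iff_pos_of_mul_pos h5).1 hf.1
    by_cases hk2 : W.kp f (W.L e) ≤ 1
    · exact W.op' e f hef h2.le h3.le hk2 hf.1.le hf.2.le hk.le
    · push Not at hk2
      set A := W.kp f (W.L e) - 1 with hA
      set B := 1 - W.kp f (W.R e) with hB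
      have hA0 : 0 < A := by rw [hA]; linarith
      have hB0 : 0 < B := by rw [hB]; linarith
      have hAB : 0 < A + B := by positivity
      set x : ℂ := ((B / (A + B) : ℝ) : ℂ) * W.L e + ((A / (A + B) : ℝ) : ℂ) * W.R e with hx
      have hb : 0 < B / (A + B) := by positivity
      have ha : 0 < A / (A + B) := by positivity
      have hke : W.kp e x = 1 := by
        rw [hx, kp_add, kp_smul, kp_smul, kp_L, kp_R]
        field_simp; ring
      have hkf : W.kp f x = 1 := by
        rw [hx, kp_add, kp_smul, kp_smul]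
        have e1 : W.kp f (W.L e) = 1 + A := by rw [hA]; ring
        have e2 : W.kp f (W.R e) = 1 - B := by rw [hB]; ring
        rw [e1, e2]; field_simp; ring
      have c1 : 0 < dt (W.L e) x := by
        rw [hx, dt_add_right, dt_smul_right, dt_smul_right, dt_self, mul_zero, zero_add]
        exact mul_pos ha (W.pos e)
      have c2 : 0 < dt x (W.R e) := by
        rw [hx, dt_add_left, dt_smul_left, dt_smul_left, dt_self, mul_zero, add_zero]
        exact mul_pos hb (W.pos e)
      have c3 : 0 < dt (W.L f) x := by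
        rw [hx, dt_add_right, dt_smul_right, dt_smul_right]
        exact add_pos (mul_pos hb h2) (mul_pos ha hf.1)
      have c4 : 0 < dt x (W.R f) := by
        rw [hx, dt_add_left, dt_smul_left, dt_smul_left]
        exact add_pos (mul_pos hb h3) (mul_pos ha hf.2)
      rcases (W.nc' e f hef x c1.le c2.le hke c3.le c4.le hkf).1 with h | h
      · rw [h, dt_self] at c1; exact lt_irrefl _ c1
      · rw [h, dt_self] at c2; exact lt_irrefl _ c2

/-- two chords ending at the same point: the one starting earlier is lower -/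
theorem factRR (W : Web E) (c d : E) (hcd : c ≠ d) (h : W.R c = W.R d) :
    dt (W.L c) (W.L d) ≠ 0 ∧ (0 < dt (W.L c) (W.L d) →
      ∀ x, 0 < dt x (W.R c) → W.kp d x < W.kp c x) := by
  constructor
  · intro h0
    have hLL : W.L c = W.L d := by
      by_contra hne; exact W.genLL c d hne h0
    refine W.op' c d hcd ?_ ?_ ?_ ?_ ?_ ?_
    · rw [hLL, dt_self]
    · rw [hLL]; exact (W.pos d).le
    · rw [hLL, kp_L]
    · rw [h]; exact (W.pos d).le
    · rw [h, dt_self]
    · rw [h, kp_R]
  · intro hlt x hx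
    have hpd := W.pos d
    have hpc := W.pos c
    have h1 : 1 < W.kp c (W.L d) := by
      by_contra hle
      push Not at hle
      refine W.op' d c (Ne.symm hcd) hlt.le ?_ hle ?_ ?_ ?_
      · rw [h]; exact hpd.le
      · rw [← h]; exact hpc.le
      · rw [h, dt_self]
      · rw [← h, kp_R]
    have hid : ((dt (W.L d) (W.R c) : ℝ) : ℂ) * x = ((dt x (W.R c) : ℝ) : ℂ) * W.L d
        + ((dt (W.L d) x : ℝ) : ℂ) * W.R c := by
      apply Complex.ext <;> simp [dt] <;> ring
    have hc : dt (W.L d) (W.R c) * W.kp c x = dt x (W.R c) * W.kp c (W.L d) + dt (W.L d) x := by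
      rw [← kp_smul, hid, kp_add, kp_smul, kp_smul, kp_R]; ring
    have hd : dt (W.L d) (W.R c) * W.kp d x = dt x (W.R c) + dt (W.L d) x := by
      have : W.kp d (W.R c) = 1 := by rw [h, kp_R]
      rw [← kp_smul, hid, kp_add, kp_smul, kp_smul, kp_L, this]; ring
    have hpos : 0 < dt (W.L d) (W.R c) := by rw [h]; exact hpd
    have : dt (W.L d) (W.R c) * W.kp d x < dt (W.L d) (W.R c) * W.kp c x := by
      rw [hc, hd]; nlinarith
    exact lt_of_mul_lt_mul_left this hpos.le

/-- two chords starting at the same point: the one ending later is lower -/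
theorem factLL (W : Web E) (c d : E) (hcd : c ≠ d) (h : W.L c = W.L d) :
    dt (W.R c) (W.R d) ≠ 0 ∧ (dt (W.R c) (W.R d) < 0 →
      ∀ x, 0 < dt (W.L c) x → W.kp d x < W.kp c x) := by
  constructor
  · intro h0
    have hRR : W.R c = W.R d := by
      by_contra hne; exact W.genRR c d hne h0
    refine W.op' c d hcd ?_ ?_ ?_ ?_ ?_ ?_
    · rw [h, dt_self]
    · rw [h]; exact (W.pos d).le
    · rw [h, kp_L]
    · rw [hRR]; exact (W.pos d).le
    · rw [hRR, dt_self]
    · rw [hRR, kp_R]
  · intro hlt x hx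
    have hpd := W.pos d
    have hpc := W.pos c
    have hlt' : 0 < dt (W.R d) (W.R c) := by rw [dt_anti]; linarith
    have h1 : 1 < W.kp c (W.R d) := by
      by_contra hle
      push Not at hle
      refine W.op' d c (Ne.symm hcd) ?_ ?_ ?_ ?_ hlt'.le hle
      · rw [h, dt_self]
      · rw [← h]; exact hpc.le
      · rw [← h, kp_L]
      · rw [h]; exact hpd.le
    have hid : ((dt (W.L c) (W.R d) : ℝ) : ℂ) * x = ((dt (W.L c) x : ℝ) : ℂ) * W.R d
        + ((dt x (W.R d) : ℝ) : ℂ) * W.L c := by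
      apply Complex.ext <;> simp [dt] <;> ring
    have hc : dt (W.L c) (W.R d) * W.kp c x = dt (W.L c) x * W.kp c (W.R d) + dt x (W.R d) := by
      rw [← kp_smul, hid, kp_add, kp_smul, kp_smul, kp_L]; ring
    have hd : dt (W.L c) (W.R d) * W.kp d x = dt (W.L c) x + dt x (W.R d) := by
      have : W.kp d (W.L c) = 1 := by rw [h, kp_L]
      rw [← kp_smul, hid, kp_add, kp_smul, kp_smul, kp_R, this]; ring
    have hpos : 0 < dt (W.L c) (W.R d) := by rw [h]; exact hpd
    have : dt (W.L c) (W.R d) * W.kp d x < dt (W.L c) (W.R d) * W.kp c x := by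
      rw [hc, hd]; nlinarith
    exact lt_of_mul_lt_mul_left this hpos.le

/-! ### strand lists -/

theorem mem_strands (W : Web E) (x : ℂ) (e : E) : e ∈ W.strands x ↔ W.cr e x := by
  classical
  unfold strands
  rw [List.mem_insertionSort, Finset.mem_toList, Finset.mem_filter]
  simp

theorem nodup_strands (W : Web E) (x : ℂ) : (W.strands x).Nodup := by
  classical
  unfold strands
  rw [(List.perm_insertionSort _ _).nodup_iff]
  exact Finset.nodup_toList _

theorem pairwise_strands (W : Web E) (x : ℂ) :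
    (W.strands x).Pairwise (fun e f => W.kp f x < W.kp e x) := by
  classical
  have h1 : (W.strands x).Pairwise (fun e f => W.kp f x ≤ W.kp e x) := by
    unfold strands
    have : Std.Total (fun e f : E => W.kp f x ≤ W.kp e x) := ⟨fun a b => le_total _ _⟩
    have : IsTrans E (fun e f : E => W.kp f x ≤ W.kp e x) := ⟨fun a b c h h' => le_trans h' h⟩
    exact List.pairwise_insertionSort _ _
  have h2 := W.nodup_strands x
  refine (h1.and h2).imp_of_mem ?_
  intro a b ha hb hab
  exact lt_of_le_of_ne hab.1 (W.kp_ne b a (Ne.symm hab.2) x ((W.mem_strands x b).1 hb)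
    ((W.mem_strands x a).1 ha))

theorem strands_eq (W : Web E) (x : ℂ) (l : List E) (hm : ∀ e, e ∈ l ↔ W.cr e x)
    (hp : l.Pairwise (fun e f => W.kp f x < W.kp e x)) : W.strands x = l := by
  have hn : l.Nodup := by
    refine hp.imp ?_
    intro a b hab h
    rw [h] at hab; exact lt_irrefl _ hab
  have hperm : (W.strands x).Perm l := by
    rw [List.perm_ext_iff_of_nodup (W.nodup_strands x) hn]
    intro a; rw [mem_strands, hm]
  refine List.Perm.eq_of_pairwise (le := fun e f => W.kp f x < W.kp e x) ?_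
    (W.pairwise_strands x) hp hperm
  intro a b _ _ h1 h2
  exact absurd (lt_trans h1 h2) (lt_irrefl _)

end Web

end Pool.Agent.H58.EQ
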