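import Pool.Agent.H58.EQ.GeoDefs

/-!
# Two directions in a spherical triangle at the distance of two of its vertices
-/

namespace Pool.Agent.H58.EQ
open scoped RealInnerProductSpace

theorem cone_planar_key {k A S T : ℝ} (hk0 : 0 ≤ k) (hk1 : k < 1) (hS : 0 ≤ S)
    (hT : 0 ≤ T) (hA : 0 ≤ A) (h4 : 4 * (S * T) ≤ A ^ 2) {W : ℝ} (hW : 0 ≤ W)
    (hW2 : W ^ 2 - (A - k * (S + T)) ^ 2 = -((1 - k ^ 2) * ((A - 2 * k * S) * (A - 2 * k * T)))) :
    0 ≤ A - k * (S + T) + W ∧ (A - k * (S + T) + W = 0 → A = 0) := by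
  have hk2 : 0 < 1 - k ^ 2 := by nlinarith
  constructor
  · by_contra hneg
    push Not at hneg
    have h1 : A - k * (S + T) < 0 := by linarith
    have h2 : W ^ 2 < (A - k * (S + T)) ^ 2 := by
      have : W < -(A - k * (S + T)) := by linarith
      nlinarith
    have h3 : 0 < (A - 2 * k * S) * (A - 2 * k * T) := by
      by_contra h5
      push Not at h5
      nlinarith [mul_nonpos_of_nonneg_of_nonpos hk2.le h5]
    rcases mul_pos_iff.1 h3 with ⟨h5, h6⟩ | ⟨h5, h6⟩
    · linarith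
    · have h7 : A < 2 * k * S := by linarith
      have h8 : A < 2 * k * T := by linarith
      have h9 : A * A < (2 * k * S) * (2 * k * T) := mul_lt_mul'' h7 h8 hA hA
      have h10 : k ^ 2 * (S * T) ≤ 1 * (S * T) :=
        mul_le_mul_of_nonneg_right (by nlinarith) (mul_nonneg hS hT)
      nlinarith
  · intro h0
    have h1 : W = -(A - k * (S + T)) := by linarith
    have h2 : (A - 2 * k * S) * (A - 2 * k * T) = 0 := by
      have h3 : (1 - k ^ 2) * ((A - 2 * k * S) * (A - 2 * k * T)) = 0 := by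
        rw [h1] at hW2
        linarith [neg_sq (A - k * (S + T))]
      exact (mul_eq_zero.1 h3).resolve_left hk2.ne'
    have h5 : A ≤ k * (S + T) := by linarith
    rcases hk0.eq_or_lt with hk | hk
    · rw [← hk] at h5
      linarith
    · rcases mul_eq_zero.1 h2 with h3 | h3
      · have hAS : A = 2 * k * S := by linarith
        have hST : S ≤ T := by
          have : k * S ≤ k * T := by linarith
          exact le_of_mul_le_mul_left this hk
        have h6 : (1 - k ^ 2) * (S * S) ≤ 0 := by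
          rw [hAS] at h4
          nlinarith [mul_le_mul_of_nonneg_left hST hS]
        have h7 : S * S ≤ 0 := by
          by_contra h8
          push Not at h8
          nlinarith [mul_pos hk2 h8]
        have h8 : S = 0 := by nlinarith
        rw [hAS, h8, mul_zero]
      · have hAT : A = 2 * k * T := by linarith
        have hTS : T ≤ S := by
          have : k * T ≤ k * S := by linarith
          exact le_of_mul_le_mul_left this hk
        have h6 : (1 - k ^ 2) * (T * T) ≤ 0 := by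
          rw [hAT] at h4
          nlinarith [mul_le_mul_of_nonneg_left hTS hT]
        have h7 : T * T ≤ 0 := by
          by_contra h8
          push Not at h8
          nlinarith [mul_pos hk2 h8]
        have h8 : T = 0 := by nlinarith
        rw [hAT, h8, mul_zero]

theorem cone_inner (n u v X Y : E3) (k a b c a' b' c' : ℝ) (hk0 : 0 ≤ k) (hk1 : k < 1)
    (hnu : 0 < inner ℝ n u) (hnv : 0 < inner ℝ n v)
    (huv : inner ℝ u v = -k * (‖u‖ * ‖v‖))
    (ha : 0 ≤ a) (hb : 0 ≤ b) (hc : 0 ≤ c) (ha' : 0 ≤ a') (hb' : 0 ≤ b') (hc' : 0 ≤ c')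
    (hX : X = a • n + b • u + c • v) (hY : Y = a' • n + b' • u + c' • v)
    (hX0 : X ≠ 0) (hY0 : Y ≠ 0) (hXY : inner ℝ X Y = -k * (‖X‖ * ‖Y‖)) :
    a = 0 ∧ a' = 0 ∧ ((b = 0 ∧ c' = 0) ∨ (c = 0 ∧ b' = 0)) := by
  have hn : n ≠ 0 := by rintro rfl; simp at hnu
  have hu : u ≠ 0 := by rintro rfl; simp at hnu
  have hv : v ≠ 0 := by rintro rfl; simp at hnv
  have hn0 : 0 < ‖n‖ := norm_pos_iff.2 hn
  have hu0 : 0 < ‖u‖ := norm_pos_iff.2 hu
  have hv0 : 0 < ‖v‖ := norm_pos_iff.2 hv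
  obtain ⟨α, hα⟩ : ∃ α, α = inner ℝ n u := ⟨_, rfl⟩
  obtain ⟨β, hβ⟩ : ∃ β, β = inner ℝ n v := ⟨_, rfl⟩
  obtain ⟨p, hp⟩ : ∃ p, p = b * ‖u‖ := ⟨_, rfl⟩
  obtain ⟨q, hq⟩ : ∃ q, q = c * ‖v‖ := ⟨_, rfl⟩
  obtain ⟨p', hp'⟩ : ∃ p', p' = b' * ‖u‖ := ⟨_, rfl⟩
  obtain ⟨q', hq'⟩ : ∃ q', q' = c' * ‖v‖ := ⟨_, rfl⟩
  have hp0 : 0 ≤ p := by rw [hp]; positivity
  have hq0 : 0 ≤ q := by rw [hq]; positivity
  have hp0' : 0 ≤ p' := by rw [hp']; positivity
  have hq0' : 0 ≤ q' := by rw [hq']; positivity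
  have hnn : inner ℝ n n = ‖n‖ ^ 2 := real_inner_self_eq_norm_sq n
  have huu : inner ℝ u u = ‖u‖ ^ 2 := real_inner_self_eq_norm_sq u
  have hvv : inner ℝ v v = ‖v‖ ^ 2 := real_inner_self_eq_norm_sq v
  have hun : inner ℝ u n = α := by rw [hα, real_inner_comm]
  have hvn : inner ℝ v n = β := by rw [hβ, real_inner_comm]
  have hvu : inner ℝ v u = -k * (‖u‖ * ‖v‖) := by rw [real_inner_comm, huv]
  obtain ⟨N, hN⟩ : ∃ N, N = p ^ 2 + q ^ 2 - 2 * k * (p * q) := ⟨_, rfl⟩
  obtain ⟨N', hN'⟩ : ∃ N', N' = p' ^ 2 + q' ^ 2 - 2 * k * (p' * q') := ⟨_, rfl⟩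
  have hNnn : 0 ≤ N := by
    rw [hN]; nlinarith [sq_nonneg (p - q), mul_nonneg (sub_nonneg.2 hk1.le) (mul_nonneg hp0 hq0)]
  have hNnn' : 0 ≤ N' := by
    rw [hN']
    nlinarith [sq_nonneg (p' - q'), mul_nonneg (sub_nonneg.2 hk1.le) (mul_nonneg hp0' hq0')]
  have hXX : ‖X‖ ^ 2 = N + (a ^ 2 * ‖n‖ ^ 2 + 2 * (a * b) * α + 2 * (a * c) * β) := by
    rw [← real_inner_self_eq_norm_sq, hX]
    simp only [inner_add_left, inner_add_right, inner_smul_left, inner_smul_right,
      RCLike.conj_to_real, hnn, huu, hvv, hun, hvn, huv, hvu, ← hα, ← hβ]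
    rw [hN, hp, hq]
    ring
  have hYY : ‖Y‖ ^ 2 = N' + (a' ^ 2 * ‖n‖ ^ 2 + 2 * (a' * b') * α + 2 * (a' * c') * β) := by
    rw [← real_inner_self_eq_norm_sq, hY]
    simp only [inner_add_left, inner_add_right, inner_smul_left, inner_smul_right,
      RCLike.conj_to_real, hnn, huu, hvv, hun, hvn, huv, hvu, ← hα, ← hβ]
    rw [hN', hp', hq']
    ring
  have hXYe : inner ℝ X Y = (p * p' + q * q') - k * (p * q' + p' * q)
      + (a * a' * ‖n‖ ^ 2 + (a * b' + a' * b) * α + (a * c' + a' * c) * β) := by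
    rw [hX, hY]
    simp only [inner_add_left, inner_add_right, inner_smul_left, inner_smul_right,
      RCLike.conj_to_real, hnn, huu, hvv, hun, hvn, huv, hvu, ← hα, ← hβ]
    rw [hp, hq, hp', hq']
    ring
  rw [← hα] at hnu
  rw [← hβ] at hnv
  have hR1 : 0 ≤ a * a' * ‖n‖ ^ 2 := by positivity
  have hR2 : 0 ≤ (a * b' + a' * b) * α := by positivity
  have hR3 : 0 ≤ (a * c' + a' * c) * β := by positivity
  have hXN : √N ≤ ‖X‖ := by
    apply Real.sqrt_le_iff.2 ⟨norm_nonneg _, ?_⟩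
    rw [hXX]
    have : 0 ≤ a ^ 2 * ‖n‖ ^ 2 + 2 * (a * b) * α + 2 * (a * c) * β := by positivity
    linarith
  have hYN : √N' ≤ ‖Y‖ := by
    apply Real.sqrt_le_iff.2 ⟨norm_nonneg _, ?_⟩
    rw [hYY]
    have : 0 ≤ a' ^ 2 * ‖n‖ ^ 2 + 2 * (a' * b') * α + 2 * (a' * c') * β := by positivity
    linarith
  have hW : 0 ≤ k * (√N * √N') := by positivity
  have hWle : k * (√N * √N') ≤ k * (‖X‖ * ‖Y‖) :=
    mul_le_mul_of_nonneg_left (mul_le_mul hXN hYN (Real.sqrt_nonneg _) (norm_nonneg _)) hk0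
  have hkey := cone_planar_key (A := p * p' + q * q') (S := p * q') (T := p' * q) hk0 hk1
    (by positivity) (by positivity) (by positivity) (by nlinarith [sq_nonneg (p * p' - q * q')])
    hW (by
      have h1 : (k * (√N * √N')) ^ 2 = k ^ 2 * (N * N') := by
        rw [mul_pow, mul_pow, Real.sq_sqrt hNnn, Real.sq_sqrt hNnn']
      rw [h1, hN, hN']
      ring)
  have hsum : (p * p' + q * q') - k * (p * q' + p' * q) + k * (√N * √N')
      + (a * a' * ‖n‖ ^ 2 + (a * b' + a' * b) * α + (a * c' + a' * c) * β)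
      + (k * (‖X‖ * ‖Y‖) - k * (√N * √N')) = 0 := by
    linarith
  have e1 : (p * p' + q * q') - k * (p * q' + p' * q) + k * (√N * √N') = 0 := by
    linarith [hkey.1]
  have hA0 := hkey.2 e1
  have e2 : a * a' * ‖n‖ ^ 2 = 0 := by linarith [hkey.1]
  have e3 : (a * b' + a' * b) * α = 0 := by linarith [hkey.1]
  have e4 : (a * c' + a' * c) * β = 0 := by linarith [hkey.1]
  have f2 : a * a' = 0 := (mul_eq_zero.1 e2).resolve_right (by positivity)
  have f3 : a * b' + a' * b = 0 := (mul_eq_zero.1 e3).resolve_right hnu.ne'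
  have f4 : a * c' + a' * c = 0 := (mul_eq_zero.1 e4).resolve_right hnv.ne'
  have g1 : a * b' = 0 := le_antisymm (by linarith [mul_nonneg ha' hb]) (by positivity)
  have g2 : a' * b = 0 := le_antisymm (by linarith [mul_nonneg ha hb']) (by positivity)
  have g3 : a * c' = 0 := le_antisymm (by linarith [mul_nonneg ha' hc]) (by positivity)
  have g4 : a' * c = 0 := le_antisymm (by linarith [mul_nonneg ha hc']) (by positivity)
  have ha0 : a = 0 := by
    by_contra h
    apply hY0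
    rw [hY, (mul_eq_zero.1 f2).resolve_left h, (mul_eq_zero.1 g1).resolve_left h,
      (mul_eq_zero.1 g3).resolve_left h]
    simp
  have ha0' : a' = 0 := by
    by_contra h
    apply hX0
    rw [hX, ha0, (mul_eq_zero.1 g2).resolve_left h, (mul_eq_zero.1 g4).resolve_left h]
    simp
  have hP : p * p' = 0 := le_antisymm (by linarith [mul_nonneg hq0 hq0']) (by positivity)
  have hQ : q * q' = 0 := le_antisymm (by linarith [mul_nonneg hp0 hp0']) (by positivity)
  refine ⟨ha0, ha0', ?_⟩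
  have hbb : b * b' = 0 := by
    rw [hp, hp'] at hP
    have : (b * b') * (‖u‖ * ‖u‖) = 0 := by linarith
    exact (mul_eq_zero.1 this).resolve_right (by positivity)
  have hcc : c * c' = 0 := by
    rw [hq, hq'] at hQ
    have : (c * c') * (‖v‖ * ‖v‖) = 0 := by linarith
    exact (mul_eq_zero.1 this).resolve_right (by positivity)
  rcases mul_eq_zero.1 hbb with h | h
  · left
    refine ⟨h, ?_⟩
    rcases mul_eq_zero.1 hcc with h1 | h1
    · exfalso
      apply hX0
      rw [hX, ha0, h, h1]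
      simp
    · exact h1
  · right
    refine ⟨?_, h⟩
    rcases mul_eq_zero.1 hcc with h1 | h1
    · exact h1
    · exfalso
      apply hY0
      rw [hY, ha0', h, h1]
      simp

end Pool.Agent.H58.EQ
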