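import Pool.Agent.H58.EQ.GeoDefs

/-!
# Elementary facts on regular polygons in `E³` (module G2 of MP_c65de1_EQ)
-/

namespace Pool.Agent.H58.EQ
open scoped RealInnerProductSpace

/-- the point `c + r cos θ a + r sin θ b` -/
noncomputable def pt (c a b : E3) (r θ : ℝ) : E3 :=
  c + (r * Real.cos θ) • a + (r * Real.sin θ) • b

theorem inner_combo (a b : E3) (ha : ‖a‖ = 1) (hb : ‖b‖ = 1) (hab : inner ℝ a b = 0)
    (x y z w : ℝ) :
    inner ℝ (x • a + y • b) (z • a + w • b) = x * z + y * w := by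
  have haa : inner ℝ a a = (1 : ℝ) := by
    rw [real_inner_self_eq_norm_sq, ha]; norm_num
  have hbb : inner ℝ b b = (1 : ℝ) := by
    rw [real_inner_self_eq_norm_sq, hb]; norm_num
  have hba : inner ℝ b a = (0 : ℝ) := by
    rw [real_inner_comm]; exact hab
  rw [inner_add_left, inner_add_right, inner_add_right]
  simp only [real_inner_smul_left, real_inner_smul_right, haa, hbb, hab, hba]
  ring

/-- the vertex formula for integer indices -/
theorem formula_int {p : ℕ} (hp : 3 ≤ p) {v : ZMod p → E3} {c a b : E3} {r : ℝ}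
    (hv : ∀ k : ℕ, v (k : ZMod p) = c + (r * Real.cos (2 * Real.pi * k / p)) • a
      + (r * Real.sin (2 * Real.pi * k / p)) • b) (m : ℤ) :
    v (m : ZMod p) = pt c a b r (2 * Real.pi * m / p) := by
  have hp0 : (0 : ℤ) < p := by exact_mod_cast (by omega : 0 < p)
  have hpr : (p : ℝ) ≠ 0 := by
    have : p ≠ 0 := by omega
    exact_mod_cast this
  have hnn : 0 ≤ m + |m| * p := by
    have h1 : |m| * 1 ≤ |m| * p := mul_le_mul_of_nonneg_left (by omega) (abs_nonneg m)
    have h2 := neg_abs_le m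
    linarith
  obtain ⟨n, hn⟩ := Int.eq_ofNat_of_zero_le hnn
  have hcast : (m : ZMod p) = ((n : ℕ) : ZMod p) := by
    have h1 : ((m + |m| * p : ℤ) : ZMod p) = ((n : ℤ) : ZMod p) := by rw [hn]
    push_cast at h1
    simp only [ZMod.natCast_self, mul_zero, add_zero] at h1
    exact h1
  have hr1 : (m : ℝ) + ((|m| : ℤ) : ℝ) * p = n := by
    exact_mod_cast hn
  have hang : 2 * Real.pi * (n : ℝ) / p
      = 2 * Real.pi * m / p + ((|m| : ℤ) : ℝ) * (2 * Real.pi) := by
    rw [← hr1]
    field_simp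
  rw [hcast, hv n]
  unfold pt
  rw [hang, Real.cos_add_int_mul_two_pi, Real.sin_add_int_mul_two_pi]

/-- every index is an integer -/
theorem exists_int {p : ℕ} (k : ZMod p) : ∃ m : ℤ, (m : ZMod p) = k :=
  ZMod.intCast_surjective k

theorem pt_sub (c a b : E3) (r θ φ : ℝ) :
    pt c a b r θ - pt c a b r φ
      = (r * Real.cos θ - r * Real.cos φ) • a + (r * Real.sin θ - r * Real.sin φ) • b := by
  unfold pt
  rw [sub_smul, sub_smul]
  abel

theorem IsRegularPolygon.injective {p : ℕ} (hp : 3 ≤ p) {v : ZMod p → E3}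
    (h : IsRegularPolygon p v) : Function.Injective v := by
  obtain ⟨c, a, b, r, hr, ha, hb, hab, hv⟩ := h
  intro k l hkl
  obtain ⟨m, rfl⟩ := exists_int k
  obtain ⟨n, rfl⟩ := exists_int l
  rw [formula_int hp hv, formula_int hp hv] at hkl
  have hpr : (p : ℝ) ≠ 0 := by
    have : p ≠ 0 := by omega
    exact_mod_cast this
  have h0 := sub_eq_zero.mpr hkl
  rw [pt_sub] at h0
  have hA := inner_combo a b ha hb hab
    (r * Real.cos (2 * Real.pi * m / p) - r * Real.cos (2 * Real.pi * n / p))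
    (r * Real.sin (2 * Real.pi * m / p) - r * Real.sin (2 * Real.pi * n / p)) 1 0
  have hB := inner_combo a b ha hb hab
    (r * Real.cos (2 * Real.pi * m / p) - r * Real.cos (2 * Real.pi * n / p))
    (r * Real.sin (2 * Real.pi * m / p) - r * Real.sin (2 * Real.pi * n / p)) 0 1
  rw [h0, inner_zero_left] at hA hB
  have hcos : Real.cos (2 * Real.pi * m / p) = Real.cos (2 * Real.pi * n / p) := by
    have h1 : r * (Real.cos (2 * Real.pi * m / p) - Real.cos (2 * Real.pi * n / p)) = 0 := by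
      linarith
    rcases mul_eq_zero.mp h1 with h2 | h2
    · exact absurd h2 hr.ne'
    · linarith
  have hsin : Real.sin (2 * Real.pi * m / p) = Real.sin (2 * Real.pi * n / p) := by
    have h1 : r * (Real.sin (2 * Real.pi * m / p) - Real.sin (2 * Real.pi * n / p)) = 0 := by
      linarith
    rcases mul_eq_zero.mp h1 with h2 | h2
    · exact absurd h2 hr.ne'
    · linarith
  have hangle := Real.Angle.cos_sin_inj hcos hsin
  rw [Real.Angle.angle_eq_iff_two_pi_dvd_sub] at hangle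
  obtain ⟨j, hj⟩ := hangle
  have hpi := Real.pi_pos
  have hmn : (m : ℝ) - n = p * j := by
    have h1 : 2 * Real.pi * ((m : ℝ) - n) = 2 * Real.pi * (p * j) := by
      have : 2 * Real.pi * ((m : ℝ) - n)
          = (2 * Real.pi * m / p - 2 * Real.pi * n / p) * p := by
        field_simp
      rw [this, hj]; ring
    exact mul_left_cancel₀ (by positivity) h1
  have hmn' : m - n = p * j := by exact_mod_cast hmn
  have h2 : ((m - n : ℤ) : ZMod p) = ((p * j : ℤ) : ZMod p) := by rw [hmn']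
  push_cast at h2
  rw [ZMod.natCast_self, zero_mul] at h2
  exact sub_eq_zero.mp h2

theorem IsRegularPolygon.sphere {p : ℕ} (hp : 3 ≤ p) {v : ZMod p → E3}
    (h : IsRegularPolygon p v) : ∃ (c : E3) (r : ℝ), ∀ k, ‖v k - c‖ = r := by
  obtain ⟨c, a, b, r, hr, ha, hb, hab, hv⟩ := h
  refine ⟨c, r, fun k => ?_⟩
  obtain ⟨m, rfl⟩ := exists_int k
  rw [formula_int hp hv]
  have h1 : pt c a b r (2 * Real.pi * m / p) - c
      = (r * Real.cos (2 * Real.pi * m / p)) • a + (r * Real.sin (2 * Real.pi * m / p)) • b := by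
    unfold pt; abel
  rw [h1]
  have h2 := inner_combo a b ha hb hab (r * Real.cos (2 * Real.pi * m / p))
    (r * Real.sin (2 * Real.pi * m / p)) (r * Real.cos (2 * Real.pi * m / p))
    (r * Real.sin (2 * Real.pi * m / p))
  rw [real_inner_self_eq_norm_sq] at h2
  have h3 := Real.sin_sq_add_cos_sq (2 * Real.pi * m / p)
  have h4 : ‖(r * Real.cos (2 * Real.pi * m / p)) • a
      + (r * Real.sin (2 * Real.pi * m / p)) • b‖ ^ 2 = r ^ 2 := by
    rw [h2]
    linear_combination r ^ 2 * h3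
  exact (sq_eq_sq₀ (norm_nonneg _) hr.le).mp h4

theorem cos_lt_one {p : ℕ} (hp : 3 ≤ p) : Real.cos (2 * Real.pi / p) < 1 := by
  have hpi := Real.pi_pos
  have hp3 : (3 : ℝ) ≤ p := by exact_mod_cast hp
  have h1 : 2 * Real.pi / p ≤ Real.pi := by
    rw [div_le_iff₀ (by linarith)]
    nlinarith
  have h2 : 0 < 2 * Real.pi / p := by positivity
  have h3 := Real.cos_lt_cos_of_nonneg_of_le_pi (le_refl 0) h1 h2
  rwa [Real.cos_zero] at h3

theorem IsRegularPolygon.angle {p : ℕ} (hp : 3 ≤ p) {v : ZMod p → E3}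
    (h : IsRegularPolygon p v) (k : ZMod p) :
    0 < ‖v (k + 1) - v k‖ ∧ ‖v (k - 1) - v k‖ = ‖v (k + 1) - v k‖ ∧
    inner ℝ (v (k + 1) - v k) (v (k - 1) - v k) =
      - Real.cos (2 * Real.pi / p) * (‖v (k + 1) - v k‖ * ‖v (k - 1) - v k‖) := by
  obtain ⟨c, a, b, r, hr, ha, hb, hab, hv⟩ := h
  obtain ⟨m, rfl⟩ := exists_int k
  have e1 : ((m : ZMod p) + 1) = ((m + 1 : ℤ) : ZMod p) := by push_cast; rfl
  have e2 : ((m : ZMod p) - 1) = ((m - 1 : ℤ) : ZMod p) := by push_cast; rfl
  rw [e1, e2, formula_int hp hv, formula_int hp hv, formula_int hp hv, pt_sub, pt_sub]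
  set θ : ℝ := 2 * Real.pi * m / p with hθ
  set δ : ℝ := 2 * Real.pi / p with hδ
  have a1 : 2 * Real.pi * ((m + 1 : ℤ) : ℝ) / p = θ + δ := by
    rw [hθ, hδ]; push_cast; ring
  have a2 : 2 * Real.pi * ((m - 1 : ℤ) : ℝ) / p = θ - δ := by
    rw [hθ, hδ]; push_cast; ring
  rw [a1, a2]
  have hcd : Real.cos δ < 1 := cos_lt_one hp
  have t1 := Real.sin_sq_add_cos_sq θ
  have t2 := Real.sin_sq_add_cos_sq δ
  rw [Real.cos_add, Real.sin_add, Real.cos_sub, Real.sin_sub]
  set C := Real.cos θ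
  set S := Real.sin θ
  set x := Real.cos δ
  set y := Real.sin δ
  set P : E3 := (r * (C * x - S * y) - r * C) • a + (r * (S * x + C * y) - r * S) • b with hP
  set Q : E3 := (r * (C * x + S * y) - r * C) • a + (r * (S * x - C * y) - r * S) • b with hQ
  have nP : ‖P‖ ^ 2 = r ^ 2 * (2 - 2 * x) := by
    rw [← real_inner_self_eq_norm_sq, hP, inner_combo a b ha hb hab]
    linear_combination (r ^ 2 * (x ^ 2 - 2 * x + 1 + y ^ 2)) * t1 + r ^ 2 * t2
  have nQ : ‖Q‖ ^ 2 = r ^ 2 * (2 - 2 * x) := by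
    rw [← real_inner_self_eq_norm_sq, hQ, inner_combo a b ha hb hab]
    linear_combination (r ^ 2 * (x ^ 2 - 2 * x + 1 + y ^ 2)) * t1 + r ^ 2 * t2
  have nPQ : inner ℝ P Q = - x * (r ^ 2 * (2 - 2 * x)) := by
    rw [hP, hQ, inner_combo a b ha hb hab]
    linear_combination (r ^ 2 * (x ^ 2 - 2 * x + 1 - y ^ 2)) * t1 - r ^ 2 * t2
  have hQP : ‖Q‖ = ‖P‖ := by
    have : ‖Q‖ ^ 2 = ‖P‖ ^ 2 := by rw [nP, nQ]
    exact (sq_eq_sq₀ (norm_nonneg _) (norm_nonneg _)).mp this
  refine ⟨?_, hQP, ?_⟩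
  · have h1 : 0 < ‖P‖ ^ 2 := by
      rw [nP]
      have : 0 < 2 - 2 * x := by linarith
      positivity
    have h2 := norm_nonneg P
    rcases h2.lt_or_eq with h3 | h3
    · exact h3
    · rw [← h3] at h1; norm_num at h1
  · rw [nPQ, hQP, ← sq, nP]

theorem succ_ne {p : ℕ} (hp : 3 ≤ p) (l : ZMod p) : l ≠ l + 1 := by
  intro h
  have h1 : (1 : ZMod p) = 0 := by
    have := congrArg (fun z => z - l) h
    simp only [sub_self, add_sub_cancel_left] at this
    exact this.symm
  have : Fact (1 < p) := ⟨by omega⟩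
  exact one_ne_zero h1

/-- a vertex lying on an edge of the polygon is an end point of it -/
theorem IsRegularPolygon.mem_edge {p : ℕ} (hp : 3 ≤ p) {v : ZMod p → E3}
    (h : IsRegularPolygon p v) (k l : ZMod p) (hkl : v k ∈ edge v l) : k = l ∨ k = l + 1 := by
  obtain ⟨c, r, hs⟩ := h.sphere hp
  have hinj := h.injective hp
  have hne : v l ≠ v (l + 1) := fun e => succ_ne hp l (hinj e)
  unfold edge at hkl
  obtain ⟨s, t, hs0, ht0, hst, hx⟩ := hkl
  rcases hs0.lt_or_eq with hs1 | hs1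
  · rcases ht0.lt_or_eq with ht1 | ht1
    · exfalso
      have h1 : ‖s • (v l - c) + t • (v (l + 1) - c)‖ < r :=
        norm_combo_lt_of_ne (hs l).le (hs (l + 1)).le
          (fun e => hne (sub_left_injective e)) hs1 ht1 hst
      have h2 : s • (v l - c) + t • (v (l + 1) - c) = v k - c := by
        rw [← hx, smul_sub, smul_sub]
        have h3 : c = s • c + t • c := by rw [← add_smul, hst, one_smul]
        nth_rewrite 3 [h3]
        abel
      rw [h2, hs k] at h1
      exact lt_irrefl _ h1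
    · left
      have hs2 : s = 1 := by rw [← ht1] at hst; linarith
      rw [← ht1, hs2, one_smul, zero_smul, add_zero] at hx
      exact (hinj hx).symm
  · right
    have ht2 : t = 1 := by rw [← hs1] at hst; linarith
    rw [← hs1, ht2, one_smul, zero_smul, zero_add] at hx
    exact (hinj hx).symm

end Pool.Agent.H58.EQ
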