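import Pool.Agent.H58.EQ.G2

/-! Module G3: two faces at a common vertex. -/

namespace Pool.Agent.H58.EQ
open scoped RealInnerProductSpace

/-- a segment determines its pair of end points -/
theorem segment_ends {a b c d : E3} (h : segment ℝ a b = segment ℝ c d) :
    (a = c ∧ b = d) ∨ (a = d ∧ b = c) := by
  have ha : a ∈ segment ℝ c d := h ▸ left_mem_segment ℝ a b
  have hb : b ∈ segment ℝ c d := h ▸ right_mem_segment ℝ a b
  have hc : c ∈ segment ℝ a b := h ▸ left_mem_segment ℝ c d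
  have hd : d ∈ segment ℝ a b := h ▸ right_mem_segment ℝ c d
  rw [segment_eq_image'] at ha hb hc hd
  obtain ⟨s, ⟨hs0, hs1⟩, hs⟩ := ha
  obtain ⟨t, ⟨ht0, ht1⟩, ht⟩ := hb
  obtain ⟨u, ⟨hu0, hu1⟩, hu⟩ := hc
  obtain ⟨w, ⟨hw0, hw1⟩, hw⟩ := hd
  simp only at hs ht hu hw
  by_cases hcd : d - c = 0
  · rw [hcd] at hs ht
    simp only [smul_zero, add_zero] at hs ht
    have : d = c := sub_eq_zero.mp hcd
    left
    exact ⟨hs.symm, by rw [this]; exact ht.symm⟩
  have h1 : b - a = (t - s) • (d - c) := by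
    rw [← hs, ← ht, sub_smul]; abel
  have h2 : d - c = (w - u) • (b - a) := by
    rw [← hu, ← hw, sub_smul]; abel
  have h3 : ((w - u) * (t - s)) • (d - c) = (1 : ℝ) • (d - c) := by
    rw [mul_smul, ← h1, ← h2, one_smul]
  have h4 : (w - u) * (t - s) = 1 := smul_left_injective ℝ hcd h3
  have h5 : (t = 1 ∧ s = 0) ∨ (t = 0 ∧ s = 1) := by
    rcases le_total s t with hst | hst
    · left
      have : 1 ≤ t - s := by
        by_contra hcon
        push Not at hcon
        nlinarith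
      constructor <;> linarith
    · right
      have : 1 ≤ s - t := by
        by_contra hcon
        push Not at hcon
        nlinarith
      constructor <;> linarith
  rcases h5 with ⟨rfl, rfl⟩ | ⟨rfl, rfl⟩
  · left
    constructor
    · rw [← hs]; simp
    · rw [← ht]; simp
  · right
    constructor
    · rw [← hs]; simp
    · rw [← ht]; simp

theorem segment_right_inj' {x u w : E3} (h : segment ℝ x u = segment ℝ x w) : u = w := by
  rcases segment_ends h with ⟨_, h1⟩ | ⟨h1, h2⟩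
  · exact h1
  · rw [h2, h1]

theorem vertex_mem_face {p : ℕ} (v : ZMod p → E3) (k : ZMod p) : v k ∈ face v :=
  subset_convexHull ℝ _ ⟨k, rfl⟩

theorem cone_mem_face {p : ℕ} (v : ZMod p → E3) (k : ZMod p) (a b e : ℝ) (ha : 0 ≤ a) (hb : 0 ≤ b)
    (he : 0 ≤ e) (hab : e * a + e * b ≤ 1) :
    v k + e • (a • (v (k + 1) - v k) + b • (v (k - 1) - v k)) ∈ face v := by
  have hc : Convex ℝ (face v) := convex_convexHull ℝ _
  have key : v k + e • (a • (v (k + 1) - v k) + b • (v (k - 1) - v k))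
      = (1 - e * a - e * b) • v k + (e * a) • v (k + 1) + (e * b) • v (k - 1) := by
    simp only [smul_add, smul_sub, smul_smul, sub_smul, one_smul]
    abel
  rw [key]
  have h4 := hc.sum_mem (t := (Finset.univ : Finset (Fin 3)))
    (w := ![1 - e * a - e * b, e * a, e * b]) (z := ![v k, v (k + 1), v (k - 1)]) (by
    intro i _
    fin_cases i
    · show 0 ≤ 1 - e * a - e * b
      linarith
    · exact mul_nonneg he ha
    · exact mul_nonneg he hb) (by
    rw [Fin.sum_univ_three]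
    show (1 - e * a - e * b) + e * a + e * b = 1
    ring) (by
    intro i _
    fin_cases i
    · exact vertex_mem_face v _
    · exact vertex_mem_face v _
    · exact vertex_mem_face v _)
  rw [Fin.sum_univ_three] at h4
  exact h4

/-- the position of a vertex on an edge and a nearby point of the edge -/
theorem edge_dir {p : ℕ} (hp : 3 ≤ p) {v : ZMod p → E3} (h : IsRegularPolygon p v)
    (k k' : ZMod p) (hk : v k ∈ edge v k') :
    ∃ y : E3, (y = v (k + 1) - v k ∨ y = v (k - 1) - v k) ∧ edge v k' = segment ℝ (v k) (v k + y) := by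
  rcases h.mem_edge hp k k' hk with rfl | rfl
  · refine ⟨_, Or.inl rfl, ?_⟩
    rw [edge, add_sub_cancel]
  · refine ⟨_, Or.inr rfl, ?_⟩
    rw [edge, add_sub_cancel, add_sub_cancel_right, segment_symm]

/-- two faces at a common vertex `x` share a direction only along a common edge -/
theorem RegularFacedSurface.share {p : ℕ} (hp : 3 ≤ p) {F : Type} (S : RegularFacedSurface p F)
    (f g : F) (hfg : f ≠ g) (k l : ZMod p) (hx : S.v f k = S.v g l)
    (a b a' b' : ℝ) (ha : 0 ≤ a) (hb : 0 ≤ b) (ha' : 0 ≤ a') (hb' : 0 ≤ b')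
    (hD : a • (S.v f (k + 1) - S.v f k) + b • (S.v f (k - 1) - S.v f k)
      = a' • (S.v g (l + 1) - S.v g l) + b' • (S.v g (l - 1) - S.v g l))
    (hD0 : a • (S.v f (k + 1) - S.v f k) + b • (S.v f (k - 1) - S.v f k) ≠ 0) :
    ∃ y : E3, (y = S.v f (k + 1) - S.v f k ∨ y = S.v f (k - 1) - S.v f k) ∧
      (y = S.v g (l + 1) - S.v g l ∨ y = S.v g (l - 1) - S.v g l) ∧
      ∃ t : ℝ, 0 < t ∧ a • (S.v f (k + 1) - S.v f k) + b • (S.v f (k - 1) - S.v f k) = t • y := by
  set D := a • (S.v f (k + 1) - S.v f k) + b • (S.v f (k - 1) - S.v f k) with hDdef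
  set e : ℝ := (1 + a + b + a' + b')⁻¹ with hedef
  have hpos : 0 < 1 + a + b + a' + b' := by positivity
  have he : 0 < e := inv_pos.mpr hpos
  have hee : e * (1 + a + b + a' + b') = 1 := inv_mul_cancel₀ hpos.ne'
  have h1 : S.v f k + e • D ∈ face (S.v f) := by
    apply cone_mem_face _ _ _ _ _ ha hb he.le
    nlinarith [mul_nonneg he.le ha', mul_nonneg he.le hb']
  have h2 : S.v f k + e • D ∈ face (S.v g) := by
    rw [hD, hx]
    apply cone_mem_face _ _ _ _ _ ha' hb' he.le
    nlinarith [mul_nonneg he.le ha, mul_nonneg he.le hb]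
  have h3 : S.v f k ∈ face (S.v f) := vertex_mem_face _ _
  have h4 : S.v f k ∈ face (S.v g) := hx ▸ vertex_mem_face _ _
  have heD : e • D ≠ 0 := smul_ne_zero he.ne' hD0
  rcases S.inter f g hfg with h | ⟨k', l', _, h⟩ | ⟨k', l', hkl, h⟩
  · exfalso
    have : S.v f k ∈ face (S.v f) ∩ face (S.v g) := ⟨h3, h4⟩
    rw [h] at this
    exact this
  · exfalso
    have m1 : S.v f k ∈ face (S.v f) ∩ face (S.v g) := ⟨h3, h4⟩
    have m2 : S.v f k + e • D ∈ face (S.v f) ∩ face (S.v g) := ⟨h1, h2⟩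
    rw [h, Set.mem_singleton_iff] at m1 m2
    rw [← m1] at m2
    exact heD (by simpa using m2)
  · have m1 : S.v f k ∈ edge (S.v f) k' := h ▸ (⟨h3, h4⟩ : S.v f k ∈ face (S.v f) ∩ face (S.v g))
    have m2 : S.v f k + e • D ∈ edge (S.v f) k' :=
      h ▸ (⟨h1, h2⟩ : S.v f k + e • D ∈ face (S.v f) ∩ face (S.v g))
    have m3 : S.v g l ∈ edge (S.v g) l' := by
      rw [← hkl, ← hx]; exact m1
    obtain ⟨y, hy, hy2⟩ := edge_dir hp (S.regular f) k k' m1
    obtain ⟨y', hy', hy2'⟩ := edge_dir hp (S.regular g) l l' m3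
    have hyy : y = y' := by
      rw [← hkl, hy2, ← hx] at hy2'
      exact add_left_cancel (segment_right_inj' hy2')
    refine ⟨y, hy, hyy ▸ hy', ?_⟩
    rw [hy2, segment_eq_image'] at m2
    obtain ⟨s, ⟨hs0, hs1⟩, hs⟩ := m2
    simp only [add_sub_cancel_left] at hs
    have hs' : s • y = e • D := add_left_cancel hs
    have hs0' : s ≠ 0 := by
      rintro rfl
      rw [zero_smul] at hs'
      exact heD hs'.symm
    refine ⟨s / e, div_pos (lt_of_le_of_ne hs0 (Ne.symm hs0')) he, ?_⟩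
    rw [div_eq_inv_mul, mul_smul, hs', smul_smul, inv_mul_cancel₀ he.ne', one_smul]

/-- the edge of a face with a given direction at a vertex -/
theorem dir_edge {p : ℕ} (v : ZMod p → E3) (k : ZMod p) (y : E3)
    (hy : y = v (k + 1) - v k ∨ y = v (k - 1) - v k) :
    ∃ k', edge v k' = segment ℝ (v k) (v k + y) := by
  rcases hy with rfl | rfl
  · exact ⟨k, by rw [edge, add_sub_cancel]⟩
  · exact ⟨k - 1, by rw [edge, add_sub_cancel, sub_add_cancel, segment_symm]⟩

/-- every edge direction at `x` belongs to exactly one other face at `x` -/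
theorem RegularFacedSurface.next {p : ℕ} (hp : 3 ≤ p) {F : Type} (S : RegularFacedSurface p F)
    (f : F) (k : ZMod p) (y : E3)
    (hy : y = S.v f (k + 1) - S.v f k ∨ y = S.v f (k - 1) - S.v f k) :
    ∃! g, g ≠ f ∧ ∃ l, S.v g l = S.v f k ∧
      (y = S.v g (l + 1) - S.v g l ∨ y = S.v g (l - 1) - S.v g l) := by
  obtain ⟨k', hk'⟩ := dir_edge (S.v f) k y hy
  obtain ⟨g, ⟨hgf, l, hl⟩, huniq⟩ := S.two f k'
  refine ⟨g, ⟨hgf, ?_⟩, ?_⟩
  · rw [hk', edge] at hl
    rcases segment_ends hl with ⟨h1, h2⟩ | ⟨h1, h2⟩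
    · refine ⟨l, h1, Or.inl ?_⟩
      rw [h2, h1]; abel
    · refine ⟨l + 1, h2, Or.inr ?_⟩
      rw [add_sub_cancel_right, h1, h2]; abel
  · rintro g' ⟨hg'f, l', hl', hy'⟩
    refine huniq g' ⟨hg'f, ?_⟩
    obtain ⟨l'', hl''⟩ := dir_edge (S.v g') l' y hy'
    exact ⟨l'', by rw [hl'', hk', hl']⟩

end Pool.Agent.H58.EQ
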