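import Pool.Agent.H58.EQ.GeoDefs

/-!
# A generic orthonormal basis (module G4 of MP_c65de1_EQ)
-/

namespace Pool.Agent.H58.EQ
open scoped RealInnerProductSpace

theorem span_pair_ne_top (d d' : E3) : Submodule.span ℝ ({d, d'} : Set E3) ≠ ⊤ := by
  classical
  intro h
  have h1 : Module.finrank ℝ (Submodule.span ℝ (({d, d'} : Finset E3) : Set E3)) ≤ 2 :=
    (finrank_span_finset_le_card _).trans Finset.card_le_two
  rw [Finset.coe_pair, h, finrank_top] at h1
  have h2 : Module.finrank ℝ E3 = 3 := by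
    simp [E3]
  omega

theorem isOpen_dense_compl (W : Submodule ℝ E3) (hW : W ≠ ⊤) :
    IsOpen ((W : Set E3)ᶜ) ∧ Dense ((W : Set E3)ᶜ) := by
  constructor
  · exact (Submodule.closed_of_finiteDimensional W).isOpen_compl
  · rw [← interior_eq_empty_iff_dense_compl]
    by_contra hne
    exact hW (Submodule.eq_top_of_nonempty_interior' W (Set.nonempty_iff_ne_empty.mpr hne))

theorem exists_generic_basis (D : Finset E3) (n : E3) (hn : ∀ d ∈ D, 0 < inner ℝ n d) :
    ∃ b : OrthonormalBasis (Fin 3) ℝ E3, (∀ d ∈ D, 0 < inner ℝ (b 0) d) ∧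
      ∀ d ∈ D, ∀ d' ∈ D, b 0 ∉ Submodule.span ℝ {d, d'} := by
  classical
  -- the dense set
  have hdense : Dense (⋂ q ∈ ((D ×ˢ D : Finset (E3 × E3)) : Set (E3 × E3)),
      ((Submodule.span ℝ ({q.1, q.2} : Set E3) : Set E3)ᶜ)) := by
    apply dense_biInter_of_isOpen
    · intro q _
      exact (isOpen_dense_compl _ (span_pair_ne_top q.1 q.2)).1
    · exact (Finset.finite_toSet _).countable
    · intro q _
      exact (isOpen_dense_compl _ (span_pair_ne_top q.1 q.2)).2
  have hbot : IsOpen (((⊥ : Submodule ℝ E3) : Set E3)ᶜ) ∧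
      Dense (((⊥ : Submodule ℝ E3) : Set E3)ᶜ) :=
    isOpen_dense_compl _ bot_ne_top
  -- the open set
  have hU : IsOpen (⋂ d ∈ D, {x : E3 | 0 < inner ℝ x d}) := by
    apply isOpen_biInter_finset
    intro d _
    exact isOpen_lt continuous_const (by fun_prop)
  have hUne : (⋂ d ∈ D, {x : E3 | 0 < inner ℝ x d}).Nonempty :=
    ⟨n, by simpa using hn⟩
  have hD2 : Dense ((((⊥ : Submodule ℝ E3) : Set E3)ᶜ) ∩
      (⋂ q ∈ ((D ×ˢ D : Finset (E3 × E3)) : Set (E3 × E3)),
      ((Submodule.span ℝ ({q.1, q.2} : Set E3) : Set E3)ᶜ))) :=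
    hbot.2.inter_of_isOpen_left hdense hbot.1
  obtain ⟨x, hxU, hx0, hxW⟩ := hD2.inter_open_nonempty _ hU hUne
  have hx0' : x ≠ 0 := by
    intro h
    exact hx0 (by simp [h])
  have hnx : 0 < ‖x‖ := norm_pos_iff.mpr hx0'
  have hxD : ∀ d ∈ D, 0 < inner ℝ x d := by simpa using hxU
  have hxW' : ∀ d ∈ D, ∀ d' ∈ D, x ∉ Submodule.span ℝ ({d, d'} : Set E3) := by
    intro d hd d' hd'
    simp only [Set.mem_iInter] at hxW
    exact hxW (d, d') (by simp [hd, hd'])
  -- the unit vector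
  set u : E3 := ‖x‖⁻¹ • x with hu
  have hnu : ‖u‖ = 1 := by
    rw [hu, norm_smul, norm_inv, norm_norm, inv_mul_cancel₀ hnx.ne']
  have hcard : Module.finrank ℝ E3 = Fintype.card (Fin 3) := by simp [E3]
  have hv : Orthonormal ℝ (({0} : Set (Fin 3)).domRestrict (fun _ : Fin 3 => u)) := by
    constructor
    · intro i
      exact hnu
    · intro i j hij
      exact absurd (Subsingleton.elim i j) hij
  obtain ⟨b, hb⟩ := hv.exists_orthonormalBasis_extension_of_card_eq hcard
  have hb0 : b 0 = u := hb 0 (by simp)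
  refine ⟨b, ?_, ?_⟩
  · intro d hd
    rw [hb0, hu, real_inner_smul_left]
    exact mul_pos (inv_pos.mpr hnx) (hxD d hd)
  · intro d hd d' hd' hmem
    apply hxW' d hd d' hd'
    rw [hb0, hu] at hmem
    have h1 := Submodule.smul_mem _ ‖x‖ hmem
    rwa [smul_smul, mul_inv_cancel₀ hnx.ne', one_smul] at h1

end Pool.Agent.H58.EQ
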