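import Pool.Agent.H58.EQ.GeoDefs
import Pool.Agent.H58.EQ.Defs
import Pool.Agent.H58.EQ.G1
import Pool.Agent.H58.EQ.G4

/-!
# MP_c65de1_co, module G5: the link of a vertex gives a web of chords
-/

namespace Pool.Agent.H58.EQ
open scoped RealInnerProductSpace

/-! ### central projection -/

/-- Central projection onto the plane `⟨b 0, x⟩ = 1`. -/
noncomputable def cproj (b : OrthonormalBasis (Fin 3) ℝ E3) (d : E3) : ℂ :=
  ⟨inner ℝ (b 1) d / inner ℝ (b 0) d, inner ℝ (b 2) d / inner ℝ (b 0) d⟩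

theorem basis_ext (b : OrthonormalBasis (Fin 3) ℝ E3) {x y : E3}
    (h0 : inner ℝ (b 0) x = inner ℝ (b 0) y) (h1 : inner ℝ (b 1) x = inner ℝ (b 1) y)
    (h2 : inner ℝ (b 2) x = inner ℝ (b 2) y) : x = y := by
  apply b.repr.injective
  ext i
  rw [b.repr_apply_apply, b.repr_apply_apply]
  fin_cases i
  · exact h0
  · exact h1
  · exact h2

theorem b_inner (b : OrthonormalBasis (Fin 3) ℝ E3) (i j : Fin 3) :
    inner ℝ (b i) (b j) = if i = j then (1 : ℝ) else 0 := by
  exact (orthonormal_iff_ite.mp b.orthonormal) i j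

theorem inner_eq_sum (b : OrthonormalBasis (Fin 3) ℝ E3) (x y : E3) :
    inner ℝ x y = inner ℝ (b 0) x * inner ℝ (b 0) y + inner ℝ (b 1) x * inner ℝ (b 1) y
      + inner ℝ (b 2) x * inner ℝ (b 2) y := by
  have h := b.sum_inner_mul_inner x y
  rw [Fin.sum_univ_three] at h
  rw [← h, real_inner_comm (b 0) x, real_inner_comm (b 1) x, real_inner_comm (b 2) x]

theorem dt_cproj (b : OrthonormalBasis (Fin 3) ℝ E3) {d d' : E3}
    (hd : 0 < inner ℝ (b 0) d) (hd' : 0 < inner ℝ (b 0) d') :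
    dt (cproj b d) (cproj b d') * (inner ℝ (b 0) d * inner ℝ (b 0) d')
      = inner ℝ (b 1) d * inner ℝ (b 2) d' - inner ℝ (b 2) d * inner ℝ (b 1) d' := by
  simp only [dt, cproj]
  field_simp

/-- equal directions after projection -/
theorem par_of_dt (b : OrthonormalBasis (Fin 3) ℝ E3) {d d' : E3}
    (hd : 0 < inner ℝ (b 0) d) (hd' : 0 < inner ℝ (b 0) d')
    (hs : b 0 ∉ Submodule.span ℝ {d, d'}) (h : dt (cproj b d) (cproj b d') = 0) :
    ∃ t : ℝ, 0 < t ∧ d' = t • d := by
  have h1 := dt_cproj b hd hd'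
  rw [h, zero_mul] at h1
  have key : ∀ s t : ℝ, inner ℝ (b 1) (s • d + t • d') = 0 → inner ℝ (b 2) (s • d + t • d') = 0 →
      s • d + t • d' = 0 := by
    intro s t e1 e2
    have e : s • d + t • d' = (inner ℝ (b 0) (s • d + t • d')) • b 0 := by
      apply basis_ext b
      · rw [inner_smul_right, b_inner]; simp
      · rw [e1, inner_smul_right, b_inner]; simp
      · rw [e2, inner_smul_right, b_inner]; simp
    by_cases hc : inner ℝ (b 0) (s • d + t • d') = (0 : ℝ)
    · rw [e, hc, zero_smul]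
    · exfalso
      apply hs
      have : b 0 = (inner ℝ (b 0) (s • d + t • d'))⁻¹ • (s • d + t • d') := by
        rw [eq_inv_smul_iff₀ hc]; exact e.symm
      rw [this]
      exact Submodule.smul_mem _ _ (Submodule.mem_span_pair.mpr ⟨s, t, rfl⟩)
  -- use the combinations `d'_1 d - d_1 d'` and `d'_2 d - d_2 d'`
  have k1 := key (inner ℝ (b 1) d') (-(inner ℝ (b 1) d))
    (by rw [inner_add_right, inner_smul_right, inner_smul_right]; ring)
    (by rw [inner_add_right, inner_smul_right, inner_smul_right]; linarith)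
  have k2 := key (inner ℝ (b 2) d') (-(inner ℝ (b 2) d))
    (by rw [inner_add_right, inner_smul_right, inner_smul_right]; linarith)
    (by rw [inner_add_right, inner_smul_right, inner_smul_right]; ring)
  by_cases c1 : inner ℝ (b 1) d = (0 : ℝ)
  · by_cases c2 : inner ℝ (b 2) d = (0 : ℝ)
    · exfalso
      apply hs
      have e : d = (inner ℝ (b 0) d) • b 0 := by
        apply basis_ext b
        · rw [inner_smul_right, b_inner]; simp
        · rw [c1, inner_smul_right, b_inner]; simp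
        · rw [c2, inner_smul_right, b_inner]; simp
      have : b 0 = (inner ℝ (b 0) d)⁻¹ • d + (0 : ℝ) • d' := by
        rw [zero_smul, add_zero, eq_inv_smul_iff₀ hd.ne']; exact e.symm
      rw [this]
      exact Submodule.mem_span_pair.mpr ⟨_, _, rfl⟩
    · refine ⟨inner ℝ (b 2) d' / inner ℝ (b 2) d, ?_, ?_⟩
      · have e := congrArg (fun z => inner ℝ (b 0) z) k2
        simp only [inner_add_right, inner_smul_right, inner_zero_right] at e
        have : inner ℝ (b 2) d' / inner ℝ (b 2) d = inner ℝ (b 0) d' / inner ℝ (b 0) d := by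
          rw [div_eq_div_iff c2 hd.ne']; linarith
        rw [this]; positivity
      · have : inner ℝ (b 2) d • d' = inner ℝ (b 2) d' • d := by
          rw [neg_smul, ← sub_eq_add_neg, sub_eq_zero] at k2; exact k2.symm
        rw [div_eq_inv_mul, mul_smul, ← this, smul_smul, inv_mul_cancel₀ c2, one_smul]
  · refine ⟨inner ℝ (b 1) d' / inner ℝ (b 1) d, ?_, ?_⟩
    · have e := congrArg (fun z => inner ℝ (b 0) z) k1
      simp only [inner_add_right, inner_smul_right, inner_zero_right] at e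
      have : inner ℝ (b 1) d' / inner ℝ (b 1) d = inner ℝ (b 0) d' / inner ℝ (b 0) d := by
        rw [div_eq_div_iff c1 hd.ne']; linarith
      rw [this]; positivity
    · have : inner ℝ (b 1) d • d' = inner ℝ (b 1) d' • d := by
        rw [neg_smul, ← sub_eq_add_neg, sub_eq_zero] at k1; exact k1.symm
      rw [div_eq_inv_mul, mul_smul, ← this, smul_smul, inv_mul_cancel₀ c1, one_smul]

theorem cproj_smul (b : OrthonormalBasis (Fin 3) ℝ E3) (d : E3) {t : ℝ} (ht : t ≠ 0) :
    cproj b (t • d) = cproj b d := by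
  simp only [cproj, inner_smul_right]
  rw [mul_div_mul_left _ _ ht, mul_div_mul_left _ _ ht]

theorem dt_wide (b : OrthonormalBasis (Fin 3) ℝ E3) {k : ℝ} (hk : 1 / 2 ≤ k) {d d' : E3}
    (hd : 0 < inner ℝ (b 0) d) (hd' : 0 < inner ℝ (b 0) d')
    (hang : inner ℝ d d' = -k * (‖d‖ * ‖d'‖)) (hpos : 0 < dt (cproj b d) (cproj b d')) :
    0 < dt (cproj b d) (cproj b d' * zb) := by
  set c := inner ℝ (b 0) d with hc
  set c' := inner ℝ (b 0) d' with hc'
  set x1 := inner ℝ (b 1) d with hx1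
  set x2 := inner ℝ (b 2) d with hx2
  set y1 := inner ℝ (b 1) d' with hy1
  set y2 := inner ℝ (b 2) d' with hy2
  have hA : ‖d‖ ^ 2 = c ^ 2 + x1 ^ 2 + x2 ^ 2 := by
    have := inner_eq_sum b d d
    rw [real_inner_self_eq_norm_sq] at this
    rw [this]; ring
  have hB : ‖d'‖ ^ 2 = c' ^ 2 + y1 ^ 2 + y2 ^ 2 := by
    have := inner_eq_sum b d' d'
    rw [real_inner_self_eq_norm_sq] at this
    rw [this]; ring
  have hI : c * c' + x1 * y1 + x2 * y2 = -k * (‖d‖ * ‖d'‖) := by
    rw [← hang, inner_eq_sum b d d']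
  have hD := dt_cproj b hd hd'
  rw [← hc, ← hc', ← hx1, ← hx2, ← hy1, ← hy2] at hD
  have hval : dt (cproj b d) (cproj b d' * zb) * (c * c')
      = -(Real.sqrt 3 / 2) * (x1 * y1 + x2 * y2) - 1 / 2 * (x1 * y2 - x2 * y1) := by
    simp only [dt, cproj, zb, Complex.mul_re, Complex.mul_im]
    rw [← hc, ← hc', ← hx1, ← hx2, ← hy1, ← hy2]
    field_simp
    ring
  have hcc : 0 < c * c' := mul_pos hd hd'
  have hDpos : 0 < x1 * y2 - x2 * y1 := by
    rw [← hD]; exact mul_pos hpos hcc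
  set A := ‖d‖ with hAdef
  set B := ‖d'‖ with hBdef
  have hA0 : 0 ≤ A := norm_nonneg _
  have hB0 : 0 ≤ B := norm_nonneg _
  have hs : x1 * y1 + x2 * y2 = -(k * (A * B) + c * c') := by linarith
  have hAB : 0 ≤ A * B := mul_nonneg hA0 hB0
  have hspos : 0 < k * (A * B) + c * c' := by
    have : 0 ≤ k * (A * B) := mul_nonneg (by linarith) hAB
    linarith
  have hsq : (x1 * y2 - x2 * y1) ^ 2 + (k * (A * B) + c * c') ^ 2
      = (A ^ 2 - c ^ 2) * (B ^ 2 - c' ^ 2) := by
    rw [hA, hB]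
    have : (k * (A * B) + c * c') ^ 2 = (x1 * y1 + x2 * y2) ^ 2 := by rw [hs]; ring
    rw [this]; ring
  have hlt : (x1 * y2 - x2 * y1) ^ 2 < 3 * (k * (A * B) + c * c') ^ 2 := by
    have h1 : (A ^ 2 - c ^ 2) * (B ^ 2 - c' ^ 2) ≤ (A * B) ^ 2 := by
      have e1 : 0 ≤ A ^ 2 - c ^ 2 := by rw [hA]; nlinarith [sq_nonneg x1, sq_nonneg x2]
      have e2 : 0 ≤ B ^ 2 - c' ^ 2 := by rw [hB]; nlinarith [sq_nonneg y1, sq_nonneg y2]
      have e3 : A ^ 2 - c ^ 2 ≤ A ^ 2 := by nlinarith [sq_nonneg c]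
      have e4 : B ^ 2 - c' ^ 2 ≤ B ^ 2 := by nlinarith [sq_nonneg c']
      calc (A ^ 2 - c ^ 2) * (B ^ 2 - c' ^ 2) ≤ A ^ 2 * B ^ 2 :=
            mul_le_mul e3 e4 e2 (sq_nonneg A)
        _ = (A * B) ^ 2 := by ring
    have h2 : (A * B) ^ 2 < 4 * (k * (A * B) + c * c') ^ 2 := by
      have : A * B < 2 * (k * (A * B) + c * c') := by nlinarith
      nlinarith
    nlinarith
  have hlt2 : x1 * y2 - x2 * y1 < Real.sqrt 3 * (k * (A * B) + c * c') := by
    have h3 : Real.sqrt 3 ^ 2 = 3 := Real.sq_sqrt (by norm_num)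
    have : (x1 * y2 - x2 * y1) ^ 2 < (Real.sqrt 3 * (k * (A * B) + c * c')) ^ 2 := by
      rw [mul_pow, h3]; exact hlt
    exact lt_of_pow_lt_pow_left₀ 2 (by positivity) this
  have : 0 < dt (cproj b d) (cproj b d' * zb) * (c * c') := by
    rw [hval, hs]; nlinarith
  exact (pos_iff_pos_of_mul_pos this).mpr hcc


/-- vectors with prescribed projection, in a cone -/
theorem cone_of_dt (b : OrthonormalBasis (Fin 3) ℝ E3) {p q : E3}
    (hp : 0 < inner ℝ (b 0) p) (hq : 0 < inner ℝ (b 0) q)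
    (hpos : 0 < dt (cproj b p) (cproj b q)) {z : E3} (hz : 0 < inner ℝ (b 0) z)
    (h1 : 0 ≤ dt (cproj b p) (cproj b z)) (h2 : 0 ≤ dt (cproj b z) (cproj b q))
    (h3 : dt (cproj b p - cproj b q) (cproj b z) ≤ dt (cproj b p) (cproj b q)) :
    ∃ α β γ : ℝ, 0 ≤ α ∧ 0 ≤ β ∧ 0 ≤ γ ∧ z = α • b 0 + β • p + γ • q ∧
      (dt (cproj b p - cproj b q) (cproj b z) = dt (cproj b p) (cproj b q) → α = 0) := by
  set D := dt (cproj b p) (cproj b q) with hD
  have hsum : dt (cproj b p - cproj b q) (cproj b z)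
      = dt (cproj b p) (cproj b z) + dt (cproj b z) (cproj b q) := by
    simp only [dt, Complex.sub_re, Complex.sub_im]; ring
  rw [hsum] at h3 ⊢
  set u1 := dt (cproj b p) (cproj b z) with hu1
  set u2 := dt (cproj b z) (cproj b q) with hu2
  set cz := inner ℝ (b 0) z with hcz
  set cp := inner ℝ (b 0) p with hcp
  set cq := inner ℝ (b 0) q with hcq
  refine ⟨cz * (1 - (u1 + u2) / D), cz * (u2 / D) / cp, cz * (u1 / D) / cq, ?_, ?_, ?_, ?_, ?_⟩
  · apply mul_nonneg hz.le
    rw [sub_nonneg, div_le_one hpos]; exact h3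
  · positivity
  · positivity
  · have e1 := dt_cproj b hp hz
    have e2 := dt_cproj b hz hq
    have e3 := dt_cproj b hp hq
    rw [← hu1, ← hcp, ← hcz] at e1
    rw [← hu2, ← hcz, ← hcq] at e2
    rw [← hD, ← hcp, ← hcq] at e3
    have hD0 : D ≠ 0 := hpos.ne'
    have hp0 : cp ≠ 0 := hp.ne'
    have hq0 : cq ≠ 0 := hq.ne'
    have hz0 : cz ≠ 0 := hz.ne'
    have f1 : u1 = (inner ℝ (b 1) p * inner ℝ (b 2) z - inner ℝ (b 2) p * inner ℝ (b 1) z)
        / (cp * cz) := by rw [eq_div_iff (mul_ne_zero hp0 hz0)]; exact e1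
    have f2 : u2 = (inner ℝ (b 1) z * inner ℝ (b 2) q - inner ℝ (b 2) z * inner ℝ (b 1) q)
        / (cz * cq) := by rw [eq_div_iff (mul_ne_zero hz0 hq0)]; exact e2
    have e3' : inner ℝ (b 1) p * inner ℝ (b 2) q - inner ℝ (b 2) p * inner ℝ (b 1) q ≠ 0 := by
      rw [← e3]; exact mul_ne_zero hD0 (mul_ne_zero hp0 hq0)
    have f3 : D = (inner ℝ (b 1) p * inner ℝ (b 2) q - inner ℝ (b 2) p * inner ℝ (b 1) q)
        / (cp * cq) := by rw [eq_div_iff (mul_ne_zero hp0 hq0)]; exact e3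
    apply basis_ext b
    · rw [inner_add_right, inner_add_right, inner_smul_right, inner_smul_right, inner_smul_right,
        b_inner, ← hcz, ← hcp, ← hcq]
      simp only [if_true]
      field_simp
      ring
    · rw [inner_add_right, inner_add_right, inner_smul_right, inner_smul_right, inner_smul_right,
        b_inner]
      simp only [one_ne_zero, if_false, mul_zero, zero_add, Fin.isValue]
      have g : cz * (u2 / D) / cp * inner ℝ (b 1) p + cz * (u1 / D) / cq * inner ℝ (b 1) q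
          = (cz * u2 / cp * inner ℝ (b 1) p + cz * u1 / cq * inner ℝ (b 1) q) / D := by
        field_simp
      rw [g, eq_div_iff hD0, f1, f2, f3]
      field_simp
      ring
    · rw [inner_add_right, inner_add_right, inner_smul_right, inner_smul_right, inner_smul_right,
        b_inner]
      have : ((2 : Fin 3) = 0) = False := by simp
      simp only [this, if_false, mul_zero, zero_add]
      have g : cz * (u2 / D) / cp * inner ℝ (b 2) p + cz * (u1 / D) / cq * inner ℝ (b 2) q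
          = (cz * u2 / cp * inner ℝ (b 2) p + cz * u1 / cq * inner ℝ (b 2) q) / D := by
        field_simp
      rw [g, eq_div_iff hD0, f1, f2, f3]
      field_simp
      ring
  · intro h
    rw [h, div_self hpos.ne', sub_self, mul_zero]

/-- the ordered version -/
theorem dt_wide90 (b : OrthonormalBasis (Fin 3) ℝ E3) {k : ℝ} (hk : 0 ≤ k) {d d' : E3}
    (hd : 0 < inner ℝ (b 0) d) (hd' : 0 < inner ℝ (b 0) d')
    (hang : inner ℝ d d' = -k * (‖d‖ * ‖d'‖)) :
    0 < dt (cproj b d) (cproj b d' * (-Complex.I)) := by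
  have hI : inner ℝ (b 0) d * inner ℝ (b 0) d' + inner ℝ (b 1) d * inner ℝ (b 1) d'
      + inner ℝ (b 2) d * inner ℝ (b 2) d' = -k * (‖d‖ * ‖d'‖) := by
    rw [← hang, inner_eq_sum b d d']
  have hval : dt (cproj b d) (cproj b d' * (-Complex.I)) * (inner ℝ (b 0) d * inner ℝ (b 0) d')
      = -(inner ℝ (b 1) d * inner ℝ (b 1) d' + inner ℝ (b 2) d * inner ℝ (b 2) d') := by
    simp only [dt, cproj, Complex.mul_re, Complex.mul_im, Complex.neg_re, Complex.neg_im,
      Complex.I_re, Complex.I_im]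
    field_simp
    ring
  have hcc : 0 < inner ℝ (b 0) d * inner ℝ (b 0) d' := mul_pos hd hd'
  have hk' : 0 ≤ k * (‖d‖ * ‖d'‖) := by positivity
  have hpos : 0 < dt (cproj b d) (cproj b d' * (-Complex.I))
      * (inner ℝ (b 0) d * inner ℝ (b 0) d') := by
    rw [hval]; linarith
  exact (pos_iff_pos_of_mul_pos hpos).2 hcc

theorem web_of_link_aux {E : Type} [Fintype E] [DecidableEq E] (k : ℝ) (hk : 0 ≤ k)
    (hk1 : k < 1) (P Q : E → E3) (b : OrthonormalBasis (Fin 3) ℝ E3)
    (hP : ∀ e, 0 < inner ℝ (b 0) (P e)) (hQ : ∀ e, 0 < inner ℝ (b 0) (Q e))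
    (hang : ∀ e, inner ℝ (P e) (Q e) = -k * (‖P e‖ * ‖Q e‖))
    (hgen : ∀ e f, ∀ d d', (d = P e ∨ d = Q e) → (d' = P f ∨ d' = Q f) →
      b 0 ∉ Submodule.span ℝ {d, d'})
    (hord : ∀ e, 0 < dt (cproj b (P e)) (cproj b (Q e)))
    (hshare : ∀ e f, e ≠ f → ∀ a b a' b' : ℝ, 0 ≤ a → 0 ≤ b → 0 ≤ a' → 0 ≤ b' →
      a • P e + b • Q e = a' • P f + b' • Q f → a • P e + b • Q e ≠ 0 →
      ∃ y : E3, (y = P e ∨ y = Q e) ∧ (y = P f ∨ y = Q f) ∧ ∃ t : ℝ, 0 < t ∧
        a • P e + b • Q e = t • y)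
    (hnext : ∀ e, ∀ y, (y = P e ∨ y = Q e) → ∃! f, f ≠ e ∧ (y = P f ∨ y = Q f)) :
    (∃ W : Web E, (∀ e, W.L e = cproj b (P e)) ∧ (∀ e, W.R e = cproj b (Q e))) ∧
    (∀ e f d d', (d = P e ∨ d = Q e) → (d' = P f ∨ d' = Q f) →
      cproj b d = cproj b d' → d = d') := by
  have hpos0 : ∀ e d, (d = P e ∨ d = Q e) → 0 < inner ℝ (b 0) d := by
    rintro e d (rfl | rfl)
    · exact hP e
    · exact hQ e
  -- the two directions of a face are not parallel
  have hnp : ∀ e d d', (d = P e ∨ d = Q e) → (d' = P e ∨ d' = Q e) → ∀ t : ℝ, t ≠ 0 →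
      d = t • d' → d = d' := by
    rintro e d d' (rfl | rfl) (rfl | rfl) t ht h
    · rfl
    · exfalso
      have := hord e
      rw [h, cproj_smul b _ ht] at this
      simp [dt, mul_comm] at this
    · exfalso
      have := hord e
      rw [h, cproj_smul b _ ht] at this
      simp [dt, mul_comm] at this
    · rfl
  have hinj : ∀ e f d d', (d = P e ∨ d = Q e) → (d' = P f ∨ d' = Q f) →
      dt (cproj b d) (cproj b d') = 0 → d = d' := by
    intro e f d d' hd hd' h
    obtain ⟨t, ht, htd⟩ := par_of_dt b (hpos0 e d hd) (hpos0 f d' hd') (hgen e f d d' hd hd') h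
    by_cases hef : e = f
    · subst hef
      exact (hnp e d' d hd' hd t ht.ne' htd).symm
    · have hne : d ≠ 0 := by
        intro h0; have := hpos0 e d hd; rw [h0, inner_zero_right] at this; exact lt_irrefl _ this
      -- coefficients
      obtain ⟨a, c, ha, hc, hac⟩ : ∃ a c : ℝ, 0 ≤ a ∧ 0 ≤ c ∧ a • P e + c • Q e = d := by
        rcases hd with h | h
        · exact ⟨1, 0, by norm_num, by norm_num, by rw [h]; simp⟩
        · exact ⟨0, 1, by norm_num, by norm_num, by rw [h]; simp⟩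
      obtain ⟨a', c', ha', hc', hac'⟩ : ∃ a c : ℝ, 0 ≤ a ∧ 0 ≤ c ∧ a • P f + c • Q f = d := by
        have e1 : d = t⁻¹ • d' := by rw [htd, smul_smul, inv_mul_cancel₀ ht.ne', one_smul]
        rcases hd' with h | h
        · exact ⟨t⁻¹, 0, by positivity, by norm_num, by rw [← h, ← e1]; simp⟩
        · exact ⟨0, t⁻¹, by norm_num, by positivity, by rw [← h, ← e1]; simp⟩
      obtain ⟨y, hy1, hy2, s, hs, hsy⟩ := hshare e f hef a c a' c' ha hc ha' hc'
        (by rw [hac, hac']) (by rw [hac]; exact hne)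
      rw [hac] at hsy
      have q1 : d = y := hnp e d y hd hy1 s hs.ne' hsy
      have q2 : d' = y := by
        refine hnp f d' y hd' hy2 t ht.ne' ?_
        rw [htd, ← q1]
      rw [q1, q2]
  have hPQ : ∀ e, P e ≠ Q e := by
    intro e h
    have := hord e
    rw [h] at this
    simp [dt, mul_comm] at this
  -- counting
  have hcount : ∀ e y, (y = P e ∨ y = Q e) →
      (Finset.univ.filter fun f => cproj b (P f) = cproj b y).card
      + (Finset.univ.filter fun f => cproj b (Q f) = cproj b y).card = 2 := by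
    intro e y hy
    obtain ⟨g, ⟨hge, hg⟩, hu⟩ := hnext e y hy
    have d0 : ∀ z : ℂ, dt z z = 0 := by intro z; simp [dt, mul_comm]
    have eP : ∀ f, cproj b (P f) = cproj b y ↔ P f = y := by
      intro f
      refine ⟨fun h => hinj f e (P f) y (Or.inl rfl) hy (by rw [h, d0]), fun h => by rw [h]⟩
    have eQ : ∀ f, cproj b (Q f) = cproj b y ↔ Q f = y := by
      intro f
      refine ⟨fun h => hinj f e (Q f) y (Or.inr rfl) hy (by rw [h, d0]), fun h => by rw [h]⟩
    simp only [eP, eQ]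
    rw [← Finset.card_union_of_disjoint]
    · have : (Finset.univ.filter fun f => P f = y) ∪ (Finset.univ.filter fun f => Q f = y)
          = {e, g} := by
        ext f
        simp only [Finset.mem_union, Finset.mem_filter, Finset.mem_univ, true_and,
          Finset.mem_insert, Finset.mem_singleton]
        constructor
        · intro h
          by_cases hfe : f = e
          · exact Or.inl hfe
          · right
            exact hu f ⟨hfe, by rcases h with h | h
                                · exact Or.inl h.symm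
                                · exact Or.inr h.symm⟩
        · rintro (h | h)
          · rw [h]; rcases hy with h | h
            · exact Or.inl h.symm
            · exact Or.inr h.symm
          · rw [h]; rcases hg with h | h
            · exact Or.inl h.symm
            · exact Or.inr h.symm
      rw [this, Finset.card_pair (Ne.symm hge)]
    · rw [Finset.disjoint_left]
      intro f h1 h2
      simp only [Finset.mem_filter, Finset.mem_univ, true_and] at h1 h2
      exact hPQ f (h1.trans h2.symm)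
  refine ⟨⟨{ L := fun e => cproj b (P e), R := fun e => cproj b (Q e), pos := hord,
             two := fun e => ⟨hcount e _ (Or.inl rfl), hcount e _ (Or.inr rfl)⟩,
             genLL := ?_, genLR := ?_, genRR := ?_, nc := ?_, op := ?_ },
            fun _ => rfl, fun _ => rfl⟩, fun e f d d' hd hd' h => hinj e f d d' hd hd' (by
              rw [h]; simp [dt, mul_comm])⟩
  · intro e f h h0
    exact h (by rw [hinj e f _ _ (Or.inl rfl) (Or.inl rfl) h0])
  · intro e f h h0
    exact h (by rw [hinj e f _ _ (Or.inl rfl) (Or.inr rfl) h0])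
  · intro e f h h0
    exact h (by rw [hinj e f _ _ (Or.inr rfl) (Or.inr rfl) h0])
  · intro e f hef x h1 h2 h3 h4 h5 h6
    -- the vector above `x`
    set X : E3 := b 0 + x.re • b 1 + x.im • b 2 with hX
    have X0 : inner ℝ (b 0) X = 1 := by
      rw [hX, inner_add_right, inner_add_right, inner_smul_right, inner_smul_right, b_inner,
        b_inner, b_inner]
      have i1 : ((0 : Fin 3) = 1) = False := by simp
      have i2 : ((0 : Fin 3) = 2) = False := by simp
      simp [i1, i2]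
    have X1 : inner ℝ (b 1) X = x.re := by
      rw [hX, inner_add_right, inner_add_right, inner_smul_right, inner_smul_right, b_inner,
        b_inner, b_inner]
      have i1 : ((1 : Fin 3) = 0) = False := by simp
      have i2 : ((1 : Fin 3) = 2) = False := by simp
      simp [i1, i2]
    have X2 : inner ℝ (b 2) X = x.im := by
      rw [hX, inner_add_right, inner_add_right, inner_smul_right, inner_smul_right, b_inner,
        b_inner, b_inner]
      have i1 : ((2 : Fin 3) = 0) = False := by simp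
      have i2 : ((2 : Fin 3) = 1) = False := by simp
      simp [i1, i2]
    have hXp : cproj b X = x := by
      simp only [cproj, X0, X1, X2, div_one]
    have hXpos : 0 < inner ℝ (b 0) X := by rw [X0]; norm_num
    obtain ⟨α, β, γ, hα, hβ, hγ, hz, hα0⟩ := cone_of_dt b (hP e) (hQ e) (hord e) hXpos
      (by rw [hXp]; exact h1) (by rw [hXp]; exact h2) (by rw [hXp]; exact h3.le)
    obtain ⟨α', β', γ', hα', hβ', hγ', hz', hα0'⟩ := cone_of_dt b (hP f) (hQ f) (hord f) hXpos
      (by rw [hXp]; exact h4) (by rw [hXp]; exact h5) (by rw [hXp]; exact h6.le)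
    have a0 := hα0 (by rw [hXp]; exact h3)
    have a0' := hα0' (by rw [hXp]; exact h6)
    rw [a0, zero_smul, zero_add] at hz
    rw [a0', zero_smul, zero_add] at hz'
    have hXne : X ≠ 0 := by
      intro h0; rw [h0, inner_zero_right] at hXpos; exact lt_irrefl _ hXpos
    obtain ⟨y, hy1, hy2, t, ht, hty⟩ := hshare e f hef β γ β' γ' hβ hγ hβ' hγ'
      (by rw [← hz, ← hz']) (by rw [← hz]; exact hXne)
    have hxy : x = cproj b y := by
      rw [← hXp, hz, hty, cproj_smul b y ht.ne']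
    constructor
    · rcases hy1 with h | h
      · left; rw [hxy, h]
      · right; rw [hxy, h]
    · rcases hy2 with h | h
      · left; rw [hxy, h]
      · right; rw [hxy, h]
  · rintro e f hef ⟨⟨h1, h2, h3⟩, h4, h5, h6⟩
    obtain ⟨α, β, γ, hα, hβ, hγ, hz, -⟩ := cone_of_dt b (hP f) (hQ f) (hord f) (hP e) h1 h2 h3
    obtain ⟨α', β', γ', hα', hβ', hγ', hz', -⟩ := cone_of_dt b (hP f) (hQ f) (hord f) (hQ e)
      h4 h5 h6
    have ne0 : ∀ d : E3, 0 < inner ℝ (b 0) d → d ≠ 0 := by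
      intro d hd h0; rw [h0, inner_zero_right] at hd; exact lt_irrefl _ hd
    obtain ⟨z1, z2, h⟩ := cone_inner (b 0) (P f) (Q f) (P e) (Q e) k α β γ α' β' γ'
      (by linarith) hk1 (hP f) (hQ f) (hang f) hα hβ hγ hα' hβ' hγ' hz hz'
      (ne0 _ (hP e)) (ne0 _ (hQ e)) (hang e)
    rw [z1, zero_smul, zero_add] at hz
    rw [z2, zero_smul, zero_add] at hz'
    have d0 : ∀ z : ℂ, dt z z = 0 := by intro z; simp [dt, mul_comm]
    have hsum : P e + Q e = P f + Q f := by
      rcases h with ⟨b0, c0⟩ | ⟨c0, b0⟩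
      · rw [b0, zero_smul, zero_add] at hz
        rw [c0, zero_smul, add_zero] at hz'
        have hγ0 : γ ≠ 0 := by
          intro h0; rw [h0, zero_smul] at hz; exact ne0 _ (hP e) hz
        have hβ0 : β' ≠ 0 := by
          intro h0; rw [h0, zero_smul] at hz'; exact ne0 _ (hQ e) hz'
        have i1 : P e = Q f := hinj e f _ _ (Or.inl rfl) (Or.inr rfl)
          (by rw [hz, cproj_smul b _ hγ0, d0])
        have i2 : Q e = P f := hinj e f _ _ (Or.inr rfl) (Or.inl rfl)
          (by rw [hz', cproj_smul b _ hβ0, d0])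
        rw [i1, i2, add_comm]
      · rw [c0, zero_smul, add_zero] at hz
        rw [b0, zero_smul, zero_add] at hz'
        have hγ0 : β ≠ 0 := by
          intro h0; rw [h0, zero_smul] at hz; exact ne0 _ (hP e) hz
        have hβ0 : γ' ≠ 0 := by
          intro h0; rw [h0, zero_smul] at hz'; exact ne0 _ (hQ e) hz'
        have i1 : P e = P f := hinj e f _ _ (Or.inl rfl) (Or.inl rfl)
          (by rw [hz, cproj_smul b _ hγ0, d0])
        have i2 : Q e = Q f := hinj e f _ _ (Or.inr rfl) (Or.inr rfl)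
          (by rw [hz', cproj_smul b _ hβ0, d0])
        rw [i1, i2]
    have hsne : (1 : ℝ) • P e + (1 : ℝ) • Q e ≠ 0 := by
      apply ne0
      rw [one_smul, one_smul, inner_add_right]
      exact add_pos (hP e) (hQ e)
    obtain ⟨y, hy1, -, t, ht, hty⟩ := hshare e f hef 1 1 1 1 (by norm_num) (by norm_num)
      (by norm_num) (by norm_num) (by simpa using hsum) hsne
    rw [one_smul, one_smul] at hty
    have hD := hord e
    rcases hy1 with h | h
    · have : Q e = (t - 1) • P e := by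
        rw [sub_smul, one_smul, ← h, ← hty, h]; abel
      by_cases ht1 : t - 1 = 0
      · rw [ht1, zero_smul] at this; exact ne0 _ (hQ e) this
      · rw [this, cproj_smul b _ ht1, d0] at hD; exact lt_irrefl _ hD
    · have : P e = (t - 1) • Q e := by
        rw [sub_smul, one_smul, ← h, ← hty, h]; abel
      by_cases ht1 : t - 1 = 0
      · rw [ht1, zero_smul] at this; exact ne0 _ (hP e) this
      · rw [this, cproj_smul b _ ht1, d0] at hD; exact lt_irrefl _ hD

/-- The link of a vertex is a web: `pr` is the central projection, injective on the edge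
directions. -/
theorem web_of_link {E : Type} [Fintype E] [DecidableEq E] (k : ℝ) (hk : 0 ≤ k) (hk1 : k < 1)
    (P Q : E → E3) (n : E3) (hP : ∀ e, 0 < inner ℝ n (P e)) (hQ : ∀ e, 0 < inner ℝ n (Q e))
    (hang : ∀ e, inner ℝ (P e) (Q e) = -k * (‖P e‖ * ‖Q e‖))
    (hshare : ∀ e f, e ≠ f → ∀ a b a' b' : ℝ, 0 ≤ a → 0 ≤ b → 0 ≤ a' → 0 ≤ b' →
      a • P e + b • Q e = a' • P f + b' • Q f → a • P e + b • Q e ≠ 0 →
      ∃ y : E3, (y = P e ∨ y = Q e) ∧ (y = P f ∨ y = Q f) ∧ ∃ t : ℝ, 0 < t ∧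
        a • P e + b • Q e = t • y)
    (hnext : ∀ e, ∀ y, (y = P e ∨ y = Q e) → ∃! f, f ≠ e ∧ (y = P f ∨ y = Q f)) :
    ∃ (W : Web E) (pr : E3 → ℂ), W.Wide90 ∧ (1 / 2 ≤ k → W.Wide) ∧
      (∀ e, (W.L e = pr (P e) ∧ W.R e = pr (Q e)) ∨ (W.L e = pr (Q e) ∧ W.R e = pr (P e))) ∧
      (∀ e f d d', (d = P e ∨ d = Q e) → (d' = P f ∨ d' = Q f) → pr d = pr d' → d = d') := by
  classical
  obtain ⟨b, hb, hb'⟩ := exists_generic_basis (Finset.univ.image P ∪ Finset.univ.image Q) n (by
    intro d hd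
    simp only [Finset.mem_union, Finset.mem_image, Finset.mem_univ, true_and] at hd
    rcases hd with ⟨e, rfl⟩ | ⟨e, rfl⟩
    · exact hP e
    · exact hQ e)
  have hbP : ∀ e, 0 < inner ℝ (b 0) (P e) := fun e => hb _ (by simp)
  have hbQ : ∀ e, 0 < inner ℝ (b 0) (Q e) := fun e => hb _ (by simp)
  have hmem : ∀ e d, (d = P e ∨ d = Q e) → d ∈ Finset.univ.image P ∪ Finset.univ.image Q := by
    rintro e d (rfl | rfl) <;> simp
  have hgen : ∀ e f, ∀ d d', (d = P e ∨ d = Q e) → (d' = P f ∨ d' = Q f) →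
      b 0 ∉ Submodule.span ℝ {d, d'} := fun e f d d' hd hd' =>
    hb' d (hmem e d hd) d' (hmem f d' hd')
  have hne : ∀ e, dt (cproj b (P e)) (cproj b (Q e)) ≠ 0 := by
    intro e h
    obtain ⟨t, ht, htd⟩ := par_of_dt b (hbP e) (hbQ e) (hgen e e _ _ (Or.inl rfl) (Or.inr rfl)) h
    have h1 := hang e
    rw [htd, inner_smul_right, real_inner_self_eq_norm_sq, norm_smul] at h1
    have hPn : 0 < ‖P e‖ := by
      rw [norm_pos_iff]
      intro h0; have := hbP e; rw [h0, inner_zero_right] at this; exact lt_irrefl _ this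
    have : 0 < t * ‖P e‖ ^ 2 := by positivity
    have h2 : 0 ≤ k * (‖P e‖ * (‖t‖ * ‖P e‖)) := by positivity
    linarith
  let P' : E → E3 := fun e => if 0 < dt (cproj b (P e)) (cproj b (Q e)) then P e else Q e
  let Q' : E → E3 := fun e => if 0 < dt (cproj b (P e)) (cproj b (Q e)) then Q e else P e
  have hcase : ∀ e, (P' e = P e ∧ Q' e = Q e ∧ 0 < dt (cproj b (P e)) (cproj b (Q e))) ∨
      (P' e = Q e ∧ Q' e = P e ∧ 0 < dt (cproj b (Q e)) (cproj b (P e))) := by
    intro e
    by_cases h : 0 < dt (cproj b (P e)) (cproj b (Q e))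
    · left; simp [P', Q', h]
    · right
      refine ⟨by simp [P', h], by simp [Q', h], ?_⟩
      have h1 : dt (cproj b (P e)) (cproj b (Q e)) < 0 := lt_of_le_of_ne (not_lt.mp h) (hne e)
      have h2 : dt (cproj b (Q e)) (cproj b (P e)) = - dt (cproj b (P e)) (cproj b (Q e)) := by
        simp only [dt]; ring
      rw [h2]; linarith
  have hor : ∀ e y, (y = P' e ∨ y = Q' e) ↔ (y = P e ∨ y = Q e) := by
    intro e y
    rcases hcase e with ⟨h1, h2, -⟩ | ⟨h1, h2, -⟩
    · rw [h1, h2]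
    · rw [h1, h2, or_comm]
  have hP' : ∀ e, 0 < inner ℝ (b 0) (P' e) := by
    intro e
    rcases hcase e with ⟨h1, h2, -⟩ | ⟨h1, h2, -⟩
    · rw [h1]; exact hbP e
    · rw [h1]; exact hbQ e
  have hQ' : ∀ e, 0 < inner ℝ (b 0) (Q' e) := by
    intro e
    rcases hcase e with ⟨h1, h2, -⟩ | ⟨h1, h2, -⟩
    · rw [h2]; exact hbQ e
    · rw [h2]; exact hbP e
  have hang' : ∀ e, inner ℝ (P' e) (Q' e) = -k * (‖P' e‖ * ‖Q' e‖) := by
    intro e
    rcases hcase e with ⟨h1, h2, -⟩ | ⟨h1, h2, -⟩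
    · rw [h1, h2]; exact hang e
    · rw [h1, h2, real_inner_comm, hang e, mul_comm (‖P e‖)]
  have hord' : ∀ e, 0 < dt (cproj b (P' e)) (cproj b (Q' e)) := by
    intro e
    rcases hcase e with ⟨h1, h2, h3⟩ | ⟨h1, h2, h3⟩
    · rw [h1, h2]; exact h3
    · rw [h1, h2]; exact h3
  have hgen' : ∀ e f, ∀ d d', (d = P' e ∨ d = Q' e) → (d' = P' f ∨ d' = Q' f) →
      b 0 ∉ Submodule.span ℝ {d, d'} := by
    intro e f d d' hd hd'
    exact hgen e f d d' ((hor e d).mp hd) ((hor f d').mp hd')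
  have hshare' : ∀ e f, e ≠ f → ∀ a b a' b' : ℝ, 0 ≤ a → 0 ≤ b → 0 ≤ a' → 0 ≤ b' →
      a • P' e + b • Q' e = a' • P' f + b' • Q' f → a • P' e + b • Q' e ≠ 0 →
      ∃ y : E3, (y = P' e ∨ y = Q' e) ∧ (y = P' f ∨ y = Q' f) ∧ ∃ t : ℝ, 0 < t ∧
        a • P' e + b • Q' e = t • y := by
    intro e f hef a c a' c' ha hc ha' hc' h1 h2
    simp only [hor]
    rcases hcase e with ⟨e1, e2, -⟩ | ⟨e1, e2, -⟩ <;> rcases hcase f with ⟨f1, f2, -⟩ | ⟨f1, f2, -⟩
    · rw [e1, e2] at h1 h2 ⊢; rw [f1, f2] at h1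
      exact hshare e f hef a c a' c' ha hc ha' hc' h1 h2
    · rw [e1, e2] at h1 h2 ⊢; rw [f1, f2] at h1
      exact hshare e f hef a c c' a' ha hc hc' ha' (by rw [h1, add_comm]) h2
    · rw [e1, e2] at h1 h2 ⊢; rw [f1, f2] at h1
      rw [add_comm] at h1 h2 ⊢
      exact hshare e f hef c a a' c' hc ha ha' hc' h1 h2
    · rw [e1, e2] at h1 h2 ⊢; rw [f1, f2] at h1
      rw [add_comm] at h2 ⊢
      exact hshare e f hef c a c' a' hc ha hc' ha' (by rw [add_comm, h1, add_comm]) h2
  have hnext' : ∀ e, ∀ y, (y = P' e ∨ y = Q' e) → ∃! f, f ≠ e ∧ (y = P' f ∨ y = Q' f) := by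
    intro e y hy
    simp only [hor]
    exact hnext e y ((hor e y).mp hy)
  obtain ⟨⟨W, hL, hR⟩, hin⟩ := web_of_link_aux k hk hk1 P' Q' b hP' hQ' hang' hgen' hord' hshare' hnext'
  refine ⟨W, cproj b, ?_, ?_, ?_, ?_⟩
  · intro e; rw [hL, hR]; exact dt_wide90 b hk (hP' e) (hQ' e) (hang' e)
  · intro hk2 e; rw [hL, hR]; exact dt_wide b hk2 (hP' e) (hQ' e) (hang' e) (hord' e)
  · intro e
    rcases hcase e with ⟨h1, h2, -⟩ | ⟨h1, h2, -⟩
    · left; rw [hL, hR, h1, h2]; exact ⟨rfl, rfl⟩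
    · right; rw [hL, hR, h1, h2]; exact ⟨rfl, rfl⟩
  · intro e f d d' hd hd' h
    exact hin e f d d' ((hor e d).mpr hd) ((hor f d').mpr hd') h

end Pool.Agent.H58.EQ
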