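import Mathlib

/-!
# Closed polyhedral surfaces with regular faces: definitions (MP_c65de1_co)
-/

namespace Pool.Agent.H58.EQ

/-- Euclidean `3`-space. -/
abbrev E3 := EuclideanSpace ℝ (Fin 3)

/-- `v 0, v 1, …, v (p-1)` are the consecutive vertices of a regular convex `p`-gon in `E³`:
for some centre `c`, orthonormal vectors `a, b` and radius `r > 0` the vertices are
`c + r cos(2πk/p) a + r sin(2πk/p) b`. -/
def IsRegularPolygon (p : ℕ) (v : ZMod p → E3) : Prop :=
  ∃ (c a b : E3) (r : ℝ), 0 < r ∧ ‖a‖ = 1 ∧ ‖b‖ = 1 ∧ inner ℝ a b = 0 ∧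
    ∀ k : ℕ, v (k : ZMod p) = c + (r * Real.cos (2 * Real.pi * k / p)) • a
      + (r * Real.sin (2 * Real.pi * k / p)) • b

/-- The face (a planar convex region) spanned by the vertices. -/
def face {p : ℕ} (v : ZMod p → E3) : Set E3 := convexHull ℝ (Set.range v)

/-- The `k`-th edge. -/
def edge {p : ℕ} (v : ZMod p → E3) (k : ZMod p) : Set E3 := segment ℝ (v k) (v (k + 1))

/-- A family of regular `p`-gons in `E³` fitting together to a closed polyhedral surface:
two faces meet, if at all, in one common vertex or one common edge, and every edge of every face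
is an edge of exactly one other face. -/
structure RegularFacedSurface (p : ℕ) (F : Type) where
  v : F → ZMod p → E3
  regular : ∀ f, IsRegularPolygon p (v f)
  inter : ∀ f g, f ≠ g →
    face (v f) ∩ face (v g) = ∅ ∨
    (∃ k l, v f k = v g l ∧ face (v f) ∩ face (v g) = {v f k}) ∨
    (∃ k l, edge (v f) k = edge (v g) l ∧ face (v f) ∩ face (v g) = edge (v f) k)
  two : ∀ f k, ∃! g, g ≠ f ∧ ∃ l, edge (v g) l = edge (v f) k

end Pool.Agent.H58.EQ
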