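import Pool.Agent.H58.EQ.Local

/-!
# The jumps of the number of ascents
-/

namespace Pool.Agent.H58.EQ

open Filter Topology

variable {E : Type} [Fintype E] [DecidableEq E]

/-! ### the rotation by 120 degrees -/

theorem zb_re : zb.re = -1 / 2 := rfl

theorem zb_im : zb.im = -(Real.sqrt 3 / 2) := rfl

theorem sqrt3_sq : Real.sqrt 3 * Real.sqrt 3 = 3 := Real.mul_self_sqrt (by norm_num)

theorem zb_sq : zb ^ 2 = ⟨-1 / 2, Real.sqrt 3 / 2⟩ := by
  have h := sqrt3_sq
  rw [pow_two]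
  apply Complex.ext
  · simp only [Complex.mul_re, zb_re, zb_im]; linarith
  · simp only [Complex.mul_im, zb_re, zb_im]; ring

theorem zb_cube : zb * zb ^ 2 = 1 := by
  have h := sqrt3_sq
  rw [zb_sq]
  apply Complex.ext
  · simp only [Complex.mul_re, zb_re, zb_im, Complex.one_re]; linarith
  · simp only [Complex.mul_im, zb_re, zb_im, Complex.one_im]; ring

theorem dt_rot (z w : ℂ) : dt (z * zb) (w * zb) = dt z w := by
  have h := sqrt3_sq
  unfold dt
  simp only [Complex.mul_re, Complex.mul_im, zb_re, zb_im]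
  linear_combination (z.re * w.im - z.im * w.re) / 4 * h

/-- `w'` is one of the three vectors `w, w ζ, w ζ²` -/
def isW (w w' : ℂ) : Prop := w' = w ∨ w' = w * zb ^ 2 ∨ w' = w * zb

theorem isW_prev {w w' : ℂ} (h : isW w w') : isW w (w' * zb) := by
  rcases h with rfl | rfl | rfl
  · exact Or.inr (Or.inr rfl)
  · refine Or.inl ?_
    rw [mul_assoc, mul_comm (zb ^ 2) zb, zb_cube, mul_one]
  · refine Or.inr (Or.inl ?_); ring

theorem isW_next {w w' : ℂ} (h : isW w w') : isW w (w' * zb ^ 2) := by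
  rcases h with rfl | rfl | rfl
  · exact Or.inr (Or.inl rfl)
  · refine Or.inr (Or.inr ?_)
    have : w * zb ^ 2 * zb ^ 2 = w * zb * (zb * zb ^ 2) := by ring
    rw [this, zb_cube, mul_one]
  · refine Or.inl ?_
    rw [mul_assoc, zb_cube, mul_one]

theorem V1_eq {w w' x : ℂ} (h : isW w w') (h1 : 0 < dt w' x) (h2 : 0 < dt x (w' * zb ^ 2)) :
    V1 w x = w' := by
  unfold V1
  rcases h with rfl | rfl | rfl
  · rw [if_pos ⟨h1, h2⟩]
  · have e : w * zb ^ 2 * zb ^ 2 = w * zb := by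
      have : w * zb ^ 2 * zb ^ 2 = w * zb * (zb * zb ^ 2) := by ring
      rw [this, zb_cube, mul_one]
    rw [if_neg, if_pos ⟨h1, by rw [← e]; exact h2⟩]
    rintro ⟨_, h4⟩
    rw [dt_anti] at h4; linarith
  · have e : w * zb * zb ^ 2 = w := by rw [mul_assoc, zb_cube, mul_one]
    rw [e] at h2
    rw [if_neg, if_neg]
    · rintro ⟨_, h4⟩
      rw [dt_anti] at h4; linarith
    · rintro ⟨h3, _⟩
      rw [dt_anti] at h3; linarith

theorem sum_W (w x : ℂ) : dt w x + dt (w * zb ^ 2) x + dt (w * zb) x = 0 := by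
  have : w + w * zb ^ 2 + w * zb = 0 := by
    have h : (1 : ℂ) + zb ^ 2 + zb = 0 := by
      rw [zb_sq]
      apply Complex.ext
      · simp only [Complex.add_re, Complex.one_re, zb_re, Complex.zero_re]; norm_num
      · simp only [Complex.add_im, Complex.one_im, zb_im, Complex.zero_im]; ring
    linear_combination w * h
  rw [← dt_add_left, ← dt_add_left, this]
  simp [dt]

/-- if `0 < dt x p`, `0 < dt x (p zb)` and `p` is in the cone of `w'` then `0 < dt x w'` -/
theorem dt_cone {w' p x : ℂ} (hp : p ≠ 0) (h1 : 0 < dt w' p) (h2 : 0 < dt p (w' * zb ^ 2))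
    (h3 : 0 < dt x p) (h4 : 0 < dt x (p * zb)) : 0 < dt x w' := by
  have h := sqrt3_sq
  have hid : dt p (w' * zb ^ 2) * dt x p + dt w' p * dt x (p * zb)
      = (Real.sqrt 3 / 2 * (p.re ^ 2 + p.im ^ 2)) * dt x w' := by
    rw [zb_sq]
    unfold dt
    simp only [Complex.mul_re, Complex.mul_im, zb_re, zb_im]
    ring
  have hpos : 0 < dt p (w' * zb ^ 2) * dt x p + dt w' p * dt x (p * zb) :=
    add_pos (mul_pos h2 h3) (mul_pos h1 h4)
  rw [hid] at hpos
  have hs : 0 < Real.sqrt 3 / 2 * (p.re ^ 2 + p.im ^ 2) := by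
    have h3 : 0 < Real.sqrt 3 := Real.sqrt_pos.2 (by norm_num)
    have : 0 < p.re ^ 2 + p.im ^ 2 := by
      have := Complex.normSq_pos.2 hp
      rw [Complex.normSq_apply] at this
      nlinarith
    positivity
  exact (pos_iff_pos_of_mul_pos hpos).1 hs

/-- every direction not on the three rays lies in one of the three cones -/
theorem exists_cone (w p : ℂ) (hw : w ≠ 0) (hp : p ≠ 0)
    (h : ∀ w', isW w w' → ¬ (dt w' p = 0 ∧ 0 < dt (w' * zb) p)) :
    ∃ w', isW w w' ∧ 0 < dt w' p ∧ 0 < dt p (w' * zb ^ 2) := by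
  have hsum := sum_W w p
  have e1 : w * zb ^ 2 * zb ^ 2 = w * zb := by
    have : w * zb ^ 2 * zb ^ 2 = w * zb * (zb * zb ^ 2) := by ring
    rw [this, zb_cube, mul_one]
  have e2 : w * zb * zb ^ 2 = w := by rw [mul_assoc, zb_cube, mul_one]
  have e3 : w * zb ^ 2 * zb = w := by rw [mul_assoc, mul_comm (zb ^ 2) zb, zb_cube, mul_one]
  have e4 : w * zb * zb = w * zb ^ 2 := by ring
  have hne : ¬ (dt w p = 0 ∧ dt (w * zb) p = 0) := by
    rintro ⟨ha, hb⟩
    have hid : (dt w p) * (dt w p) + dt w p * dt (w * zb) p + dt (w * zb) p * dt (w * zb) p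
        = 3 / 4 * (w.re ^ 2 + w.im ^ 2) * (p.re ^ 2 + p.im ^ 2) := by
      have h := sqrt3_sq
      unfold dt
      simp only [Complex.mul_re, Complex.mul_im, zb_re, zb_im]
      linear_combination (w.re ^ 2 * p.re ^ 2 + w.im ^ 2 * p.im ^ 2
        + 2 * w.re * w.im * p.re * p.im) / 4 * h
    rw [ha, hb] at hid
    have h1 : 0 < w.re ^ 2 + w.im ^ 2 := by
      have := Complex.normSq_pos.2 hw
      rw [Complex.normSq_apply] at this; nlinarith
    have h2 : 0 < p.re ^ 2 + p.im ^ 2 := by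
      have := Complex.normSq_pos.2 hp
      rw [Complex.normSq_apply] at this; nlinarith
    have : 0 < 3 / 4 * (w.re ^ 2 + w.im ^ 2) * (p.re ^ 2 + p.im ^ 2) := by positivity
    linarith
  have r0 := h w (Or.inl rfl)
  have r1 := h (w * zb ^ 2) (Or.inr (Or.inl rfl))
  have r2 := h (w * zb) (Or.inr (Or.inr rfl))
  rw [e3] at r1
  rw [e4] at r2
  by_contra hcon
  push Not at hcon
  have c0 := hcon w (Or.inl rfl)
  have c1 := hcon (w * zb ^ 2) (Or.inr (Or.inl rfl))
  have c2 := hcon (w * zb) (Or.inr (Or.inr rfl))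
  rw [e1] at c1
  rw [e2] at c2
  rw [dt_anti p] at c0 c1 c2
  set α := dt w p
  set β := dt (w * zb ^ 2) p
  set γ := dt (w * zb) p
  by_cases ha : 0 < α
  · have hb := c0 ha
    rcases eq_or_lt_of_le (show 0 ≤ β by linarith) with hb0 | hb0
    · exact r1 ⟨hb0.symm, ha⟩
    · have := c1 hb0; linarith
  by_cases hb : 0 < β
  · have hc := c1 hb
    rcases eq_or_lt_of_le (show 0 ≤ γ by linarith) with hc0 | hc0
    · exact r2 ⟨hc0.symm, hb⟩
    · have := c2 hc0; linarith
  by_cases hc : 0 < γ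
  · have ha' := c2 hc
    rcases eq_or_lt_of_le (show 0 ≤ α by linarith) with ha0 | ha0
    · exact r0 ⟨ha0.symm, hc⟩
    · exact ha ha0
  exact hne ⟨by linarith, by linarith⟩

/-! ### the two labels -/

theorem V0_pos {u p : ℂ} (h : dt u p ≠ 0) : 0 < dt (V0 u p) p := by
  unfold V0
  split_ifs with h1
  · exact h1
  · rw [dt_neg_left]
    rcases lt_or_gt_of_ne h with h2 | h2
    · linarith
    · exact absurd h2 h1

theorem V0_near (u : ℂ) (s : ℝ) (h : dt u (om s) ≠ 0) :
    ∀ᶠ φ in 𝓝 s, V0 u (om φ) = V0 u (om s) := by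
  have c := (continuous_dt_om_right u).tendsto s
  rcases lt_or_gt_of_ne h with h1 | h1
  · filter_upwards [c.eventually (gt_mem_nhds h1)] with φ hφ
    unfold V0
    rw [if_neg (not_lt.2 hφ.le), if_neg (not_lt.2 h1.le)]
  · filter_upwards [c.eventually (lt_mem_nhds h1)] with φ hφ
    unfold V0
    rw [if_pos hφ, if_pos h1]

theorem sin_left (s : ℝ) : ∀ᶠ φ in 𝓝[<] s, 0 < dt (om φ) (om s) := by
  have : Set.Ioo (s - Real.pi) s ∈ 𝓝[<] s := Ioo_mem_nhdsLT (by linarith [Real.pi_pos])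
  filter_upwards [this] with φ hφ
  rw [dt_om_om]
  exact Real.sin_pos_of_pos_of_lt_pi (by linarith [hφ.2]) (by linarith [hφ.1])

theorem sin_right (s : ℝ) : ∀ᶠ φ in 𝓝[>] s, 0 < dt (om s) (om φ) := by
  have : Set.Ioo s (s + Real.pi) ∈ 𝓝[>] s := Ioo_mem_nhdsGT (by linarith [Real.pi_pos])
  filter_upwards [this] with φ hφ
  rw [dt_om_om]
  exact Real.sin_pos_of_pos_of_lt_pi (by linarith [hφ.1]) (by linarith [hφ.2])

theorem V0_left (u : ℂ) (s : ℝ) (h : om s = u ∨ om s = -u) :
    ∀ᶠ φ in 𝓝[<] s, V0 u (om φ) = - om s := by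
  filter_upwards [sin_left s] with φ hφ
  unfold V0
  rcases h with h | h
  · rw [if_neg, h]
    rw [h, dt_anti] at hφ
    linarith
  · have hu : u = - om s := by rw [h, neg_neg]
    rw [if_pos, hu]
    rw [hu, dt_neg_left, dt_anti]; linarith

theorem V0_right (u : ℂ) (s : ℝ) (h : om s = u ∨ om s = -u) :
    ∀ᶠ φ in 𝓝[>] s, V0 u (om φ) = om s := by
  filter_upwards [sin_right s] with φ hφ
  unfold V0
  rcases h with h | h
  · rw [if_pos, h]
    rw [← h]; exact hφ
  · have hu : u = - om s := by rw [h, neg_neg]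
    rw [if_neg, h]
    rw [hu, dt_neg_left]; linarith

theorem V1_spec (w p : ℂ) (hw : w ≠ 0) (hp : p ≠ 0)
    (h : ∀ w', isW w w' → ¬ (dt w' p = 0 ∧ 0 < dt (w' * zb) p)) :
    isW w (V1 w p) ∧ 0 < dt (V1 w p) p ∧ 0 < dt p (V1 w p * zb ^ 2) := by
  obtain ⟨w', h1, h2, h3⟩ := exists_cone w p hw hp h
  rw [V1_eq h1 h2 h3]
  exact ⟨h1, h2, h3⟩

theorem V1_near (w : ℂ) (s : ℝ) (hw : w ≠ 0)
    (h : ∀ w', isW w w' → ¬ (dt w' (om s) = 0 ∧ 0 < dt (w' * zb) (om s))) :
    ∀ᶠ φ in 𝓝 s, V1 w (om φ) = V1 w (om s) := by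
  obtain ⟨h1, h2, h3⟩ := V1_spec w (om s) hw (om_ne_zero s) h
  set w' := V1 w (om s)
  filter_upwards [((continuous_dt_om_right w').tendsto s).eventually (lt_mem_nhds h2),
    ((continuous_dt_om_left (w' * zb ^ 2)).tendsto s).eventually (lt_mem_nhds h3)] with φ p q
  exact V1_eq h1 p q

theorem dt_zb_self (z : ℂ) (hz : z ≠ 0) : 0 < dt (z * zb) z := by
  have h1 : 0 < z.re ^ 2 + z.im ^ 2 := by
    have := Complex.normSq_pos.2 hz
    rw [Complex.normSq_apply] at this; nlinarith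
  have h3 : 0 < Real.sqrt 3 := Real.sqrt_pos.2 (by norm_num)
  have : dt (z * zb) z = Real.sqrt 3 / 2 * (z.re ^ 2 + z.im ^ 2) := by
    unfold dt; simp only [Complex.mul_re, Complex.mul_im, zb_re, zb_im]; ring
  rw [this]; positivity

theorem dt_self_zb2 (z : ℂ) (hz : z ≠ 0) : 0 < dt z (z * zb ^ 2) := by
  have h1 : 0 < z.re ^ 2 + z.im ^ 2 := by
    have := Complex.normSq_pos.2 hz
    rw [Complex.normSq_apply] at this; nlinarith
  have h3 : 0 < Real.sqrt 3 := Real.sqrt_pos.2 (by norm_num)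
  have : dt z (z * zb ^ 2) = Real.sqrt 3 / 2 * (z.re ^ 2 + z.im ^ 2) := by
    rw [zb_sq]; unfold dt; simp only [Complex.mul_re, Complex.mul_im]; ring
  rw [this]; positivity

theorem V1_left (w w' : ℂ) (s : ℝ) (h : isW w w') (hs : om s = w') :
    ∀ᶠ φ in 𝓝[<] s, V1 w (om φ) = w' * zb := by
  have hw' : w' ≠ 0 := by rw [← hs]; exact om_ne_zero s
  have h0 : 0 < dt (w' * zb) (om s) := by rw [hs]; exact dt_zb_self w' hw'
  filter_upwards [sin_left s, nhdsWithin_le_nhds
    (((continuous_dt_om_right (w' * zb)).tendsto s).eventually (lt_mem_nhds h0))] with φ p q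
  refine V1_eq (isW_prev h) q ?_
  rw [mul_assoc, zb_cube, mul_one, ← hs]; exact p

theorem V1_right (w w' : ℂ) (s : ℝ) (h : isW w w') (hs : om s = w') :
    ∀ᶠ φ in 𝓝[>] s, V1 w (om φ) = w' := by
  have hw' : w' ≠ 0 := by rw [← hs]; exact om_ne_zero s
  have h0 : 0 < dt (om s) (w' * zb ^ 2) := by rw [hs]; exact dt_self_zb2 w' hw'
  filter_upwards [sin_right s, nhdsWithin_le_nhds
    (((continuous_dt_om_left (w' * zb ^ 2)).tendsto s).eventually (lt_mem_nhds h0))] with φ p q
  refine V1_eq h ?_ q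
  rw [← hs]; exact p

/-! ### the jumps -/

theorem exists_last (a : ℂ) (l : List ℂ) : ∃ P b, a :: l = P ++ [b] ∧ b ∈ a :: l := by
  obtain ⟨P, b, h⟩ := (List.eq_nil_or_concat (a :: l)).resolve_left (by simp)
  refine ⟨P, b, by rw [h, List.concat_eq_append], ?_⟩
  rw [h]; simp

theorem exists_first (l : List ℂ) (a : ℂ) : ∃ b Q, l ++ [a] = b :: Q ∧ b ∈ l ++ [a] := by
  cases l with
  | nil => exact ⟨a, [], rfl, by simp⟩
  | cons b Q => exact ⟨b, Q ++ [a], rfl, by simp⟩

theorem asc_two (a b : ℂ) : asc [a, b] = if 0 < dt a b then 1 else 0 := by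
  rw [asc_cons_cons, asc_singleton, add_zero]

/-- no jump -/
theorem HH_const (W : Web E) (u w : ℂ) (hw : w ≠ 0) (s : ℝ)
    (hs : ∀ v, W.vtx v → ¬ ∃ r : ℝ, 0 < r ∧ v = (r : ℂ) * om s)
    (hu : dt u (om s) ≠ 0)
    (hW : ∀ w', isW w w' → ¬ (dt w' (om s) = 0 ∧ 0 < dt (w' * zb) (om s))) :
    ∀ᶠ φ in 𝓝 s, HH W u w (om φ) = HH W u w (om s) := by
  filter_upwards [W.strands_const s hs, V0_near u s hu, V1_near w s hw hW] with φ p q r
  unfold HH; rw [p, q, r]

theorem jump_zero (W : Web E) (u w : ℂ) (hw : w ≠ 0) (s : ℝ)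
    (hs : ∀ v, W.vtx v → ¬ ∃ r : ℝ, 0 < r ∧ v = (r : ℂ) * om s)
    (hu : om s = u ∨ om s = -u)
    (hW : ∀ w', isW w w' → ¬ (dt w' (om s) = 0 ∧ 0 < dt (w' * zb) (om s))) :
    ∃ hl hr : ℤ, (∀ᶠ φ in 𝓝[<] s, HH W u w (om φ) = hl) ∧
      (∀ᶠ φ in 𝓝[>] s, HH W u w (om φ) = hr) ∧ hr - hl ≤ -1 := by
  obtain ⟨b, Q, hb, hbm⟩ := exists_first ((W.strands (om s)).map W.L) (V1 w (om s))
  have hbpos : 0 < dt b (om s) := by
    rw [List.mem_append, List.mem_map, List.mem_singleton] at hbm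
    rcases hbm with ⟨e, he, rfl⟩ | rfl
    · exact ((W.mem_strands _ e).1 he).1
    · exact (V1_spec w (om s) hw (om_ne_zero s) hW).2.1
  refine ⟨asc (-om s :: b :: Q), asc (om s :: b :: Q), ?_, ?_, ?_⟩
  · filter_upwards [nhdsWithin_le_nhds (W.strands_const s hs), V0_left u s hu,
      nhdsWithin_le_nhds (V1_near w s hw hW)] with φ p q r
    unfold HH; rw [p, q, r, hb]
  · filter_upwards [nhdsWithin_le_nhds (W.strands_const s hs), V0_right u s hu,
      nhdsWithin_le_nhds (V1_near w s hw hW)] with φ p q r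
    unfold HH; rw [p, q, r, hb]
  · rw [asc_cons_cons, asc_cons_cons, dt_neg_left, dt_anti (om s) b, neg_neg, if_pos hbpos,
      if_neg (by linarith)]
    linarith

theorem jump_W (W : Web E) (u w w' : ℂ) (s : ℝ)
    (hs : ∀ v, W.vtx v → ¬ ∃ r : ℝ, 0 < r ∧ v = (r : ℂ) * om s)
    (hu : dt u (om s) ≠ 0) (hw' : isW w w') (hsw : om s = w') :
    ∃ hl hr : ℤ, (∀ᶠ φ in 𝓝[<] s, HH W u w (om φ) = hl) ∧
      (∀ᶠ φ in 𝓝[>] s, HH W u w (om φ) = hr) ∧ hr - hl ≤ 1 ∧
      ((∃ B e, W.strands (om s) = B ++ [e] ∧ 0 < dt (W.L e) (w' * zb)) → hr - hl ≤ 0) := by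
  obtain ⟨P, a, ha, _⟩ := exists_last (V0 u (om s)) ((W.strands (om s)).map W.L)
  refine ⟨asc (P ++ [a] ++ [w' * zb]), asc (P ++ [a] ++ [w']), ?_, ?_, ?_, ?_⟩
  · filter_upwards [nhdsWithin_le_nhds (W.strands_const s hs), nhdsWithin_le_nhds (V0_near u s hu),
      V1_left w w' s hw' hsw] with φ p q r
    unfold HH; rw [p, q, r, ← ha]; rfl
  · filter_upwards [nhdsWithin_le_nhds (W.strands_const s hs), nhdsWithin_le_nhds (V0_near u s hu),
      V1_right w w' s hw' hsw] with φ p q r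
    unfold HH; rw [p, q, r, ← ha]; rfl
  · rw [List.append_assoc, List.append_assoc, List.singleton_append, List.singleton_append,
      asc_append_cons, asc_append_cons P a [w' * zb], asc_two, asc_two]
    split_ifs <;> linarith
  · rintro ⟨B, e, hBe, hpos⟩
    have hae : a = W.L e := by
      have h2 : P ++ [a] = (V0 u (om s) :: B.map W.L) ++ [W.L e] := by
        rw [← ha, hBe]; simp
      exact (List.append_inj' h2 rfl).2 |> fun h => by simpa using h
    rw [List.append_assoc, List.append_assoc, List.singleton_append, List.singleton_append,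
      asc_append_cons, asc_append_cons P a [w' * zb], asc_two, asc_two, hae, if_pos hpos]
    split_ifs <;> linarith

/-- the combinatorial core of the vertex jump -/
theorem jump_core (W : Web E) (v a b : ℂ) (I O : List E) (hlen : I.length + O.length = 2)
    (hO : ∀ e ∈ O, W.L e = v) (ha : 0 < dt a v) (hb : 0 < dt b v)
    (hIb : ∀ e ∈ I, 0 < dt (W.L e) b)
    (hIp : I.Pairwise (fun c d => 0 < dt (W.L c) (W.L d))) :
    2 * (asc (a :: (O.map W.L ++ [b])) - asc (a :: (I.map W.L ++ [b])))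
      ≤ (O.length : ℤ) - I.length ∧
    ((0 < dt a b ∧ ∀ e ∈ I, 0 < dt a (W.L e)) →
      2 * (asc (a :: (O.map W.L ++ [b])) - asc (a :: (I.map W.L ++ [b])))
        ≤ (O.length : ℤ) - I.length - 2) := by
  have hvb : ¬ 0 < dt v b := by rw [dt_anti]; linarith
  have hvv : ¬ 0 < dt v v := by rw [dt_self]; exact lt_irrefl _
  match I, O, hlen with
  | [], [c, d], _ =>
    have hc : W.L c = v := hO c (by simp)
    have hd : W.L d = v := hO d (by simp)
    simp only [List.map_cons, List.map_nil, List.cons_append, List.nil_append, asc_cons_cons,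
      asc_singleton, hc, hd, if_pos ha, if_neg hvv, if_neg hvb, List.length_cons, List.length_nil]
    constructor
    · split_ifs <;> norm_num
    · rintro ⟨h1, _⟩
      rw [if_pos h1]; norm_num
  | [c], [d], _ =>
    have hd : W.L d = v := hO d (by simp)
    have hc : 0 < dt (W.L c) b := hIb c (by simp)
    simp only [List.map_cons, List.map_nil, List.cons_append, List.nil_append, asc_cons_cons,
      asc_singleton, hd, if_pos ha, if_neg hvb, if_pos hc, List.length_cons, List.length_nil]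
    constructor
    · split_ifs <;> norm_num
    · rintro ⟨_, h2⟩
      rw [if_pos (h2 c (by simp))]; norm_num
  | [c, d], [], _ =>
    have hd : 0 < dt (W.L d) b := hIb d (by simp)
    have hcd : 0 < dt (W.L c) (W.L d) := by
      have := hIp; simp at this; exact this
    simp only [List.map_cons, List.map_nil, List.cons_append, List.nil_append, asc_cons_cons,
      asc_singleton, if_pos hcd, if_pos hd, List.length_cons, List.length_nil]
    constructor
    · split_ifs <;> norm_num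
    · rintro ⟨h1, h2⟩
      rw [if_pos (h2 c (by simp)), if_pos h1]; norm_num
  | [], [], h => simp at h
  | [], [_], h => simp at h
  | [], _ :: _ :: _ :: _, h => simp at h
  | [_], [], h => simp at h
  | [_], _ :: _ :: _, h => simp at h; omega
  | [_, _], _ :: _, h => simp at h; try omega
  | _ :: _ :: _ :: _, _, h => simp at h; omega

theorem length_eq_card {l : List E} {P : E → Prop} [DecidablePred P] (hn : l.Nodup)
    (h : ∀ e, e ∈ l ↔ P e) : l.length = (Finset.univ.filter P).card := by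
  rw [← List.toFinset_card_of_nodup hn]
  congr 1
  ext e; simp [h]

theorem jump_vtx (W : Web E) (hwide : W.Wide) (u w : ℂ) (hw : w ≠ 0) (s r : ℝ) (hr : 0 < r) (v : ℂ)
    (hv : v = (r : ℂ) * om s) (hv' : W.vtx v) (hu : dt u (om s) ≠ 0)
    (hW : ∀ w', isW w w' → ¬ (dt w' (om s) = 0 ∧ 0 < dt (w' * zb) (om s))) :
    ∃ hl hr : ℤ, (∀ᶠ φ in 𝓝[<] s, HH W u w (om φ) = hl) ∧
      (∀ᶠ φ in 𝓝[>] s, HH W u w (om φ) = hr) ∧
      2 * (hr - hl) ≤ ((Finset.univ.filter fun f => W.L f = v).card : ℤ)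
        - (Finset.univ.filter fun f => W.R f = v).card ∧
      (((∀ e, W.cr e v → ¬ 1 < W.kp e v) ∧ 0 < dt (V0 u (om s)) (V1 w (om s)) ∧
        ∀ e, (W.cr e v ∨ W.R e = v) → 0 < dt (V0 u (om s)) (W.L e)) →
        2 * (hr - hl) ≤ ((Finset.univ.filter fun f => W.L f = v).card : ℤ)
        - (Finset.univ.filter fun f => W.R f = v).card - 2) := by
  obtain ⟨B, A, I, O, hleft, hright, hB, hA, hI, hO, hIn, hOn, hIp, _⟩ :=
    W.strands_vtx s r hr v hv hv'
  have hpos : ∀ z, (0 < dt z (om s) ↔ 0 < dt z v) := by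
    intro z; rw [hv, dt_smul_right, mul_pos_iff_of_pos_left hr]
  obtain ⟨P, a, ha, ham⟩ := exists_last (V0 u (om s)) (B.map W.L)
  obtain ⟨b, Q, hb, hbm⟩ := exists_first (A.map W.L) (V1 w (om s))
  obtain ⟨hV1a, hV1b, hV1c⟩ := V1_spec w (om s) hw (om_ne_zero s) hW
  have hav : 0 < dt a v := by
    rw [List.mem_cons, List.mem_map] at ham
    rcases ham with rfl | ⟨e, he, rfl⟩
    · exact (hpos _).1 (V0_pos hu)
    · exact ((hB e).1 he).1.1
  have hbv : 0 < dt b v := by
    rw [List.mem_append, List.mem_map, List.mem_singleton] at hbm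
    rcases hbm with ⟨e, he, rfl⟩ | rfl
    · exact ((hA e).1 he).1.1
    · exact (hpos _).1 hV1b
  have hIb : ∀ e ∈ I, 0 < dt (W.L e) b := by
    intro e he
    have hRe := (hI e).1 he
    rw [List.mem_append, List.mem_map, List.mem_singleton] at hbm
    rcases hbm with ⟨f, hf, rfl⟩ | rfl
    · apply W.factR e f
      · rw [hRe]; exact ((hA f).1 hf).1
      · rw [hRe]; exact ((hA f).1 hf).2
    · refine dt_cone (om_ne_zero s) hV1b hV1c ?_ ?_
      · rw [hpos, ← hRe]; exact W.pos e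
      · have := hwide e
        rw [hRe, hv, mul_assoc, dt_smul_right] at this
        exact (pos_iff_pos_of_mul_pos this).1 hr
  have hlenI := length_eq_card hIn hI
  have hlenO := length_eq_card hOn hO
  have hlen : I.length + O.length = 2 := by
    rw [hlenI, hlenO, add_comm]; exact W.card_two v hv'
  have core := jump_core W v a b I O hlen (fun e he => (hO e).1 he) hav hbv hIb hIp
  have hst : ∀ M : List ℂ, V0 u (om s) :: ((B.map W.L ++ (M ++ A.map W.L)) ++ [V1 w (om s)])
      = P ++ a :: (M ++ b :: Q) := by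
    intro M
    have : V0 u (om s) :: ((B.map W.L ++ (M ++ A.map W.L)) ++ [V1 w (om s)])
      = (V0 u (om s) :: B.map W.L) ++ (M ++ (A.map W.L ++ [V1 w (om s)])) := by simp
    rw [this, ha, hb]; simp
  have hasc : ∀ M : List ℂ, asc (P ++ a :: (M ++ b :: Q)) = asc (P ++ [a]) + asc (a :: (M ++ [b]))
      + asc (b :: Q) := by
    intro M
    have : a :: (M ++ b :: Q) = (a :: M) ++ b :: Q := by simp
    rw [asc_append_cons P a, this, asc_append_cons (a :: M) b Q, List.cons_append]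
    ring
  refine ⟨asc (P ++ a :: (I.map W.L ++ b :: Q)), asc (P ++ a :: (O.map W.L ++ b :: Q)),
    ?_, ?_, ?_, ?_⟩
  · filter_upwards [hleft, nhdsWithin_le_nhds (V0_near u s hu),
      nhdsWithin_le_nhds (V1_near w s hw hW)] with φ p q r
    unfold HH
    rw [p, q, r, List.map_append, List.map_append, hst]
  · filter_upwards [hright, nhdsWithin_le_nhds (V0_near u s hu),
      nhdsWithin_le_nhds (V1_near w s hw hW)] with φ p q r
    unfold HH
    rw [p, q, r, List.map_append, List.map_append, hst]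
  · rw [hasc, hasc, ← hlenI, ← hlenO]
    have := core.1
    linarith
  · rintro ⟨h1, h2, h3⟩
    have hBnil : B = [] := by
      rw [List.eq_nil_iff_forall_not_mem]
      intro e he
      exact h1 e ((hB e).1 he).1 ((hB e).1 he).2
    have haV : a = V0 u (om s) := by
      rw [hBnil] at ham
      simpa using ham
    have hab : 0 < dt a b := by
      rw [haV]
      rw [List.mem_append, List.mem_map, List.mem_singleton] at hbm
      rcases hbm with ⟨f, hf, rfl⟩ | rfl
      · exact h3 f (Or.inl ((hA f).1 hf).1)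
      · exact h2
    have haI : ∀ e ∈ I, 0 < dt a (W.L e) := by
      intro e he
      rw [haV]; exact h3 e (Or.inr ((hI e).1 he))
    have := core.2 ⟨hab, haI⟩
    rw [hasc, hasc, ← hlenI, ← hlenO]
    linarith

end Pool.Agent.H58.EQ
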