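import Pool.Agent.H58.EQ.Surf

/-!
# Equivelar manifolds with regular faces: the link of a farthest vertex as a cyclic web
-/

namespace Pool.Agent.H58.EQ

/-- An equivelar manifold of type `{p, q}` with regular faces: a finite closed polyhedral surface
made of regular `p`-gons such that around every vertex there are exactly `q` faces, arranged in one
cycle `c 0, c 1, …, c (q-1)`, consecutive ones sharing an edge at that vertex. -/
structure EquivelarRegular (p q : ℕ) (F : Type) extends RegularFacedSurface p F where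
  link : ∀ f k, ∃ c : ZMod q → F, Function.Injective c ∧
    (∀ g, (∃ l, v g l = v f k) ↔ ∃ i, c i = g) ∧
    ∀ i, ∃ l m, edge (v (c i)) l = edge (v (c (i + 1))) m ∧ v f k ∈ edge (v (c i)) l

theorem cos_nonneg_of_four {p : ℕ} (hp : 4 ≤ p) : 0 ≤ Real.cos (2 * Real.pi / p) := by
  have hp' : (4 : ℝ) ≤ p := by exact_mod_cast hp
  have hpi := Real.pi_pos
  apply Real.cos_nonneg_of_neg_pi_div_two_le_of_le
  · have : 0 ≤ 2 * Real.pi / p := by positivity
    linarith
  · rw [div_le_div_iff₀ (by linarith) (by norm_num)]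
    nlinarith

theorem link_web (p q : ℕ) [NeZero q] (hp : 3 ≤ p) (hq : 3 ≤ q) (F : Type) [Fintype F]
    [Nonempty F] (S : EquivelarRegular p q F) (hk : 0 ≤ Real.cos (2 * Real.pi / p)) :
    ∃ (W : Web (ZMod q)) (A : ZMod q → ℂ), W.Wide90 ∧ Function.Injective A ∧
      ∀ i, (W.L i = A i ∧ W.R i = A (i + 1)) ∨ (W.L i = A (i + 1) ∧ W.R i = A i) := by
  classical
  have : NeZero p := ⟨by omega⟩
  obtain ⟨f0⟩ := ‹Nonempty F›
  obtain ⟨⟨fm, km⟩, -, hmax⟩ := (Finset.univ : Finset (F × ZMod p)).exists_max_image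
    (fun q => ‖S.v q.1 q.2‖) ⟨(f0, 0), Finset.mem_univ _⟩
  obtain ⟨c, hcinj, hcm, hclink⟩ := S.link fm km
  set x := S.v fm km with hx
  have hmax' : ∀ f k, ‖S.v f k‖ ≤ ‖x‖ := fun f k => hmax (f, k) (Finset.mem_univ _)
  have hex : ∀ i, ∃ l, S.v (c i) l = x := fun i => (hcm (c i)).2 ⟨i, rfl⟩
  choose κ hκ using hex
  have hκu : ∀ i l, S.v (c i) l = x → l = κ i := by
    intro i l hl
    exact (S.regular (c i)).injective hp (by rw [hl, hκ])
  let P : ZMod q → E3 := fun i => S.v (c i) (κ i + 1) - S.v (c i) (κ i)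
  let Q : ZMod q → E3 := fun i => S.v (c i) (κ i - 1) - S.v (c i) (κ i)
  have hang := fun i => (S.regular (c i)).angle hp (κ i)
  have hP : ∀ i, 0 < inner ℝ (-x) (P i) := by
    intro i
    have h1 : S.v (c i) (κ i + 1) ≠ S.v (c i) (κ i) := by
      intro h
      have := (hang i).1
      rw [h, sub_self, norm_zero] at this
      exact lt_irrefl _ this
    rw [hκ i] at h1
    have := inner_pos_of_norm_le x _ (hmax' (c i) (κ i + 1)) h1
    simp only [P]; rw [hκ i]; exact this
  have hQ : ∀ i, 0 < inner ℝ (-x) (Q i) := by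
    intro i
    have h1 : S.v (c i) (κ i - 1) ≠ S.v (c i) (κ i) := by
      intro h
      have := (hang i).1
      rw [← (hang i).2.1, h, sub_self, norm_zero] at this
      exact lt_irrefl _ this
    rw [hκ i] at h1
    have := inner_pos_of_norm_le x _ (hmax' (c i) (κ i - 1)) h1
    simp only [Q]; rw [hκ i]; exact this
  have hshare : ∀ i j : ZMod q, i ≠ j → ∀ a b a' b' : ℝ, 0 ≤ a → 0 ≤ b → 0 ≤ a' → 0 ≤ b' →
      a • P i + b • Q i = a' • P j + b' • Q j → a • P i + b • Q i ≠ 0 →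
      ∃ y : E3, (y = P i ∨ y = Q i) ∧ (y = P j ∨ y = Q j) ∧ ∃ t : ℝ, 0 < t ∧
        a • P i + b • Q i = t • y := by
    intro i j hij a b a' b' ha hb ha' hb' hD hD0
    exact S.share hp (c i) (c j) (fun h => hij (hcinj h)) (κ i) (κ j) (by rw [hκ, hκ])
      a b a' b' ha hb ha' hb' hD hD0
  have hnext : ∀ i : ZMod q, ∀ y, (y = P i ∨ y = Q i) → ∃! j, j ≠ i ∧ (y = P j ∨ y = Q j) := by
    intro i y hy
    obtain ⟨g, ⟨hg1, l, hl, hgy⟩, hgu⟩ := S.next hp (c i) (κ i) y hy
    rw [hκ i] at hl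
    obtain ⟨j, rfl⟩ := (hcm g).1 ⟨l, hl⟩
    have hlk : l = κ j := hκu j l hl
    subst hlk
    refine ⟨j, ⟨fun h => hg1 (by rw [h]), hgy⟩, ?_⟩
    rintro j' ⟨h1, h2⟩
    exact hcinj (hgu (c j') ⟨fun h => h1 (hcinj h), κ j', by rw [hκ, hκ], h2⟩)
  -- the common directions
  have hy : ∀ i, ∃ y, (y = P i ∨ y = Q i) ∧ (y = P (i + 1) ∨ y = Q (i + 1)) := by
    intro i
    obtain ⟨l, m, hlm, hxl⟩ := hclink i
    have hxm : x ∈ edge (S.v (c (i + 1))) m := hlm ▸ hxl
    obtain ⟨y, hy, hy2⟩ := edge_dir hp (S.regular (c i)) (κ i) l (by rw [hκ]; exact hxl)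
    obtain ⟨y', hy', hy2'⟩ := edge_dir hp (S.regular (c (i + 1))) (κ (i + 1)) m
      (by rw [hκ]; exact hxm)
    rw [hκ] at hy2 hy2'
    have h1 : segment ℝ x (x + y) = segment ℝ x (x + y') := by rw [← hy2, ← hy2', hlm]
    have h2 : y = y' := by
      have := segment_right_inj' h1
      exact add_left_cancel this
    refine ⟨y, hy, ?_⟩
    rw [h2]; exact hy'
  choose y hy1 hy2 using hy
  have hone : (1 : ZMod q) ≠ 0 := by
    intro h
    have : (q : ℕ) ∣ 1 := (ZMod.natCast_eq_zero_iff 1 q).1 (by exact_mod_cast h)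
    have := Nat.le_of_dvd (by norm_num) this
    omega
  have htwo : (2 : ZMod q) ≠ 0 := by
    intro h
    have : (q : ℕ) ∣ 2 := (ZMod.natCast_eq_zero_iff 2 q).1 (by exact_mod_cast h)
    have := Nat.le_of_dvd (by norm_num) this
    omega
  have hyinj : Function.Injective y := by
    intro i j hij
    by_contra hne
    obtain ⟨g, ⟨_, _⟩, hgu⟩ := hnext i (y i) (hy1 i)
    have h1 : i + 1 = g := hgu _ ⟨fun h => hone (by simpa using h), hy2 i⟩
    have h2 : j = g := hgu _ ⟨fun h => hne h.symm, by rw [hij]; exact hy1 j⟩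
    have h3 : j + 1 = g := by
      apply hgu
      refine ⟨fun h => ?_, by rw [hij]; exact hy2 j⟩
      have : i + 1 + 1 = i := by rw [h1, ← h2]; exact h
      apply htwo
      have h4 : (2 : ZMod q) = i + 1 + 1 - i := by ring
      rw [h4, this, sub_self]
    apply hone
    have : j + 1 = j := by rw [h3, h2]
    simpa using this
  obtain ⟨W, pr, hW90, -, hLR, hpr⟩ := web_of_link (Real.cos (2 * Real.pi / p)) hk
    (cos_lt_one hp) P Q (-x) hP hQ (fun i => (hang i).2.2) hshare hnext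
  refine ⟨W, fun i => pr (y (i - 1)), hW90, ?_, ?_⟩
  · intro i j hij
    have h1 : y (i - 1) = y (j - 1) := hpr (i - 1) (j - 1) _ _ (hy1 _) (hy1 _) hij
    exact sub_left_injective (hyinj h1)
  · intro i
    have e1 : i + 1 - 1 = i := by ring
    have e2 : i - 1 + 1 = i := by ring
    simp only [e1]
    have ha := hy1 i
    have hb := hy2 (i - 1)
    rw [e2] at hb
    have hne : y i ≠ y (i - 1) := by
      intro h
      have := hyinj h
      apply hone
      have h5 : (1 : ZMod q) = i - (i - 1) := by ring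
      rw [h5, ← this, sub_self]
    rcases ha with ha | ha <;> rcases hb with hb | hb
    · exact absurd (ha.trans hb.symm) hne
    · rcases hLR i with ⟨h1, h2⟩ | ⟨h1, h2⟩
      · right; rw [h1, h2, ha, hb]; exact ⟨rfl, rfl⟩
      · left; rw [h1, h2, ha, hb]; exact ⟨rfl, rfl⟩
    · rcases hLR i with ⟨h1, h2⟩ | ⟨h1, h2⟩
      · left; rw [h1, h2, ha, hb]; exact ⟨rfl, rfl⟩
      · right; rw [h1, h2, ha, hb]; exact ⟨rfl, rfl⟩
    · exact absurd (ha.trans hb.symm) hne

end Pool.Agent.H58.EQ
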