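import Pool.Agent.H58.EQ.Fact

/-!
# Local structure of the strand lists
-/

namespace Pool.Agent.H58.EQ

open Filter Topology

variable {E : Type} [Fintype E] [DecidableEq E]

theorem eq_smul_om_of_dt_eq_zero (z : ℂ) (s : ℝ) (h : dt z (om s) = 0) :
    ∃ c : ℝ, z = (c : ℂ) * om s := by
  refine ⟨z.re * Real.cos s + z.im * Real.sin s, ?_⟩
  have h1 : z.re * Real.sin s - z.im * Real.cos s = 0 := h
  have h2 := Real.sin_sq_add_cos_sq s
  apply Complex.ext
  · simp only [Complex.mul_re, Complex.ofReal_re, Complex.ofReal_im, om, zero_mul, sub_zero]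
    linear_combination (-z.re) * h2 + Real.sin s * h1
  · simp only [Complex.mul_im, Complex.ofReal_re, Complex.ofReal_im, om, zero_mul, add_zero]
    linear_combination (-z.im) * h2 - Real.cos s * h1

namespace Web

theorem continuous_kp (W : Web E) (e : E) : Continuous (fun φ => W.kp e (om φ)) := by
  unfold kp
  exact (continuous_dt_om_right _).div_const _

theorem ne_zero_of_vtx (W : Web E) {v : ℂ} (hv : W.vtx v) : v ≠ 0 := by
  rintro rfl
  obtain ⟨e, h | h⟩ := hv
  · have := W.pos e; rw [← h] at this; simp [dt] at this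
  · have := W.pos e; rw [← h] at this; simp [dt] at this

theorem eq_of_dt_eq_zero (W : Web E) {v w : ℂ} (hv : W.vtx v) (hw : W.vtx w) (h : dt v w = 0) :
    v = w := by
  by_contra hne
  obtain ⟨e, he | he⟩ := hv <;> obtain ⟨f, hf | hf⟩ := hw <;> subst he <;> subst hf
  · exact W.genLL e f hne h
  · exact W.genLR e f hne h
  · exact W.genLR f e (Ne.symm hne) (by rw [dt_anti, h, neg_zero])
  · exact W.genRR e f hne h

/-- crossing is locally constant unless an end point of `e` lies on the ray -/
theorem cr_near (W : Web E) (s : ℝ) (e : E)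
    (h1 : ¬ (dt (W.L e) (om s) = 0 ∧ 0 ≤ dt (om s) (W.R e)))
    (h2 : ¬ (dt (om s) (W.R e) = 0 ∧ 0 ≤ dt (W.L e) (om s))) :
    ∀ᶠ φ in 𝓝 s, (W.cr e (om φ) ↔ W.cr e (om s)) := by
  have c1 : Tendsto (fun φ => dt (W.L e) (om φ)) (𝓝 s) (𝓝 (dt (W.L e) (om s))) :=
    (continuous_dt_om_right _).tendsto s
  have c2 : Tendsto (fun φ => dt (om φ) (W.R e)) (𝓝 s) (𝓝 (dt (om s) (W.R e))) :=
    (continuous_dt_om_left _).tendsto s
  by_cases hc : W.cr e (om s)
  · filter_upwards [c1.eventually (lt_mem_nhds hc.1), c2.eventually (lt_mem_nhds hc.2)] with φ p q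
    exact ⟨fun _ => hc, fun _ => ⟨p, q⟩⟩
  · rcases lt_trichotomy (dt (W.L e) (om s)) 0 with hL | hL | hL
    · filter_upwards [c1.eventually (gt_mem_nhds hL)] with φ p
      exact ⟨fun h => absurd h.1 (not_lt.2 p.le), fun h => absurd h hc⟩
    · rcases lt_or_ge (dt (om s) (W.R e)) 0 with hR | hR
      · filter_upwards [c2.eventually (gt_mem_nhds hR)] with φ p
        exact ⟨fun h => absurd h.2 (not_lt.2 p.le), fun h => absurd h hc⟩
      · exact absurd ⟨hL, hR⟩ h1
    · rcases lt_trichotomy (dt (om s) (W.R e)) 0 with hR | hR | hR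
      · filter_upwards [c2.eventually (gt_mem_nhds hR)] with φ p
        exact ⟨fun h => absurd h.2 (not_lt.2 p.le), fun h => absurd h hc⟩
      · exact absurd ⟨hR, hL.le⟩ h2
      · exact absurd ⟨hL, hR⟩ hc

/-- an end point of `e` on the ray: it is a positive multiple of `om s` -/
theorem left_on_ray (W : Web E) (s : ℝ) (e : E)
    (h : dt (W.L e) (om s) = 0 ∧ 0 ≤ dt (om s) (W.R e)) :
    ∃ c : ℝ, 0 < c ∧ W.L e = (c : ℂ) * om s := by
  obtain ⟨c, hc⟩ := eq_smul_om_of_dt_eq_zero _ s h.1
  refine ⟨c, ?_, hc⟩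
  have hp := W.pos e
  rw [hc, dt_smul_left] at hp
  exact (pos_iff_pos_of_mul_pos hp).2 (lt_of_le_of_ne h.2 (fun h0 => by
    rw [← h0, mul_zero] at hp; exact lt_irrefl _ hp))

theorem right_on_ray (W : Web E) (s : ℝ) (e : E)
    (h : dt (om s) (W.R e) = 0 ∧ 0 ≤ dt (W.L e) (om s)) :
    ∃ c : ℝ, 0 < c ∧ W.R e = (c : ℂ) * om s := by
  obtain ⟨c, hc⟩ := eq_smul_om_of_dt_eq_zero (W.R e) s (by rw [dt_anti, h.1, neg_zero])
  refine ⟨c, ?_, hc⟩
  have hp := W.pos e
  rw [hc, dt_smul_right] at hp
  exact (pos_iff_pos_of_mul_pos hp).2 (lt_of_le_of_ne h.2 (fun h0 => by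
    rw [← h0, mul_zero] at hp; exact lt_irrefl _ hp))

/-- away from the vertex directions the strand list is locally constant -/
theorem strands_const (W : Web E) (s : ℝ)
    (hs : ∀ v, W.vtx v → ¬ ∃ r : ℝ, 0 < r ∧ v = (r : ℂ) * om s) :
    ∀ᶠ φ in 𝓝 s, W.strands (om φ) = W.strands (om s) := by
  have h1 : ∀ᶠ φ in 𝓝 s, ∀ e, (W.cr e (om φ) ↔ W.cr e (om s)) := by
    rw [eventually_all]
    intro e
    exact W.cr_near s e (fun h => hs _ ⟨e, Or.inl rfl⟩ (W.left_on_ray s e h))
      (fun h => hs _ ⟨e, Or.inr rfl⟩ (W.right_on_ray s e h))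
  have h2 : ∀ᶠ φ in 𝓝 s, ∀ e f, W.kp f (om s) < W.kp e (om s) → W.kp f (om φ) < W.kp e (om φ) := by
    rw [eventually_all]; intro e
    rw [eventually_all]; intro f
    by_cases h : W.kp f (om s) < W.kp e (om s)
    · have := ((W.continuous_kp f).tendsto s).eventually_lt ((W.continuous_kp e).tendsto s) h
      filter_upwards [this] with φ hφ _ using hφ
    · exact Eventually.of_forall fun φ h' => absurd h' h
  filter_upwards [h1, h2] with φ p q
  apply W.strands_eq
  · intro e; rw [mem_strands, p e]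
  · exact (W.pairwise_strands (om s)).imp (fun {a b} hab => q a b hab)

/-- a vertex on the line of a chord passing over it strictly -/
theorem kp_ne_one (W : Web E) (e : E) (v : ℂ) (hv : W.vtx v) (h : W.cr e v) : W.kp e v ≠ 1 := by
  intro hk
  obtain ⟨f, hf⟩ := hv
  have hef : e ≠ f := by
    rintro rfl
    rcases hf with hf | hf
    · have := h.1; rw [hf, dt_self] at this; exact lt_irrefl _ this
    · have := h.2; rw [hf, dt_self] at this; exact lt_irrefl _ this
  have h4 : 0 ≤ dt (W.L f) v ∧ 0 ≤ dt v (W.R f) ∧ W.kp f v = 1 := by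
    rcases hf with hf | hf
    · rw [hf, dt_self, kp_L]; exact ⟨le_rfl, (W.pos f).le, rfl⟩
    · rw [hf, dt_self, kp_R]; exact ⟨(W.pos f).le, le_rfl, rfl⟩
  rcases (W.nc' e f hef v h.1.le h.2.le hk h4.1 h4.2.1 h4.2.2).1 with h' | h'
  · have := h.1; rw [h', dt_self] at this; exact lt_irrefl _ this
  · have := h.2; rw [h', dt_self] at this; exact lt_irrefl _ this

theorem card_two (W : Web E) (v : ℂ) (hv : W.vtx v) :
    (Finset.univ.filter fun f => W.L f = v).card
      + (Finset.univ.filter fun f => W.R f = v).card = 2 := by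
  obtain ⟨e, h | h⟩ := hv
  · rw [h]; exact (W.two e).1
  · rw [h]; exact (W.two e).2

theorem exists_I (W : Web E) (v : ℂ) (hv : W.vtx v) :
    ∃ I : List E, (∀ e, e ∈ I ↔ W.R e = v) ∧ I.Nodup ∧
      I.Pairwise (fun c d => 0 < dt (W.L c) (W.L d)) := by
  have h2 := W.card_two v hv
  set S := Finset.univ.filter fun f => W.R f = v with hS
  have hmem : ∀ e, e ∈ S ↔ W.R e = v := by intro e; rw [hS]; simp
  have hle : S.card ≤ 2 := by omega
  interval_cases hc : S.card
  · refine ⟨[], ?_, List.nodup_nil, List.Pairwise.nil⟩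
    intro e
    rw [← hmem, Finset.card_eq_zero.1 hc]; simp
  · obtain ⟨c, hcc⟩ := Finset.card_eq_one.1 hc
    refine ⟨[c], ?_, List.nodup_singleton c, List.pairwise_singleton _ _⟩
    intro e
    rw [← hmem, hcc]; simp
  · obtain ⟨c, d, hcd, hcc⟩ := Finset.card_eq_two.1 hc
    have hRc : W.R c = v := (hmem c).1 (by rw [hcc]; simp)
    have hRd : W.R d = v := (hmem d).1 (by rw [hcc]; simp)
    have hne := (W.factRR c d hcd (by rw [hRc, hRd])).1
    rcases lt_or_gt_of_ne hne with h | h
    · refine ⟨[d, c], ?_, ?_, ?_⟩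
      · intro e; rw [← hmem, hcc]; simp [or_comm]
      · simp [Ne.symm hcd]
      · simp only [List.pairwise_cons, List.mem_singleton, forall_eq, List.not_mem_nil,
          false_imp_iff, implies_true, List.Pairwise.nil, and_true]
        rw [dt_anti]; linarith
    · refine ⟨[c, d], ?_, ?_, ?_⟩
      · intro e; rw [← hmem, hcc]; simp
      · simp [hcd]
      · simp only [List.pairwise_cons, List.mem_singleton, forall_eq, List.not_mem_nil,
          false_imp_iff, implies_true, List.Pairwise.nil, and_true]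
        exact h

theorem exists_O (W : Web E) (v : ℂ) (hv : W.vtx v) :
    ∃ O : List E, (∀ e, e ∈ O ↔ W.L e = v) ∧ O.Nodup ∧
      O.Pairwise (fun c d => dt (W.R c) (W.R d) < 0) := by
  have h2 := W.card_two v hv
  set S := Finset.univ.filter fun f => W.L f = v with hS
  have hmem : ∀ e, e ∈ S ↔ W.L e = v := by intro e; rw [hS]; simp
  have hle : S.card ≤ 2 := by omega
  interval_cases hc : S.card
  · refine ⟨[], ?_, List.nodup_nil, List.Pairwise.nil⟩
    intro e
    rw [← hmem, Finset.card_eq_zero.1 hc]; simp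
  · obtain ⟨c, hcc⟩ := Finset.card_eq_one.1 hc
    refine ⟨[c], ?_, List.nodup_singleton c, List.pairwise_singleton _ _⟩
    intro e
    rw [← hmem, hcc]; simp
  · obtain ⟨c, d, hcd, hcc⟩ := Finset.card_eq_two.1 hc
    have hRc : W.L c = v := (hmem c).1 (by rw [hcc]; simp)
    have hRd : W.L d = v := (hmem d).1 (by rw [hcc]; simp)
    have hne := (W.factLL c d hcd (by rw [hRc, hRd])).1
    rcases lt_or_gt_of_ne hne with h | h
    · refine ⟨[c, d], ?_, ?_, ?_⟩
      · intro e; rw [← hmem, hcc]; simp
      · simp [hcd]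
      · simp only [List.pairwise_cons, List.mem_singleton, forall_eq, List.not_mem_nil,
          false_imp_iff, implies_true, List.Pairwise.nil, and_true]
        exact h
    · refine ⟨[d, c], ?_, ?_, ?_⟩
      · intro e; rw [← hmem, hcc]; simp [or_comm]
      · simp [Ne.symm hcd]
      · simp only [List.pairwise_cons, List.mem_singleton, forall_eq, List.not_mem_nil,
          false_imp_iff, implies_true, List.Pairwise.nil, and_true]
        rw [dt_anti]; linarith

theorem strands_vtx (W : Web E) (s r : ℝ) (hr : 0 < r) (v : ℂ) (hv : v = (r : ℂ) * om s)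
    (hv' : W.vtx v) :
    ∃ B A I O : List E,
      (∀ᶠ φ in 𝓝[<] s, W.strands (om φ) = B ++ (I ++ A)) ∧
      (∀ᶠ φ in 𝓝[>] s, W.strands (om φ) = B ++ (O ++ A)) ∧
      (∀ e, e ∈ B ↔ W.cr e v ∧ 1 < W.kp e v) ∧
      (∀ e, e ∈ A ↔ W.cr e v ∧ W.kp e v < 1) ∧
      (∀ e, e ∈ I ↔ W.R e = v) ∧ (∀ e, e ∈ O ↔ W.L e = v) ∧
      I.Nodup ∧ O.Nodup ∧ I.Pairwise (fun c d => 0 < dt (W.L c) (W.L d)) ∧
      W.strands (om s) = B ++ A := by
  classical
  obtain ⟨I, hI, hIn, hIp⟩ := W.exists_I v hv'
  obtain ⟨O, hO, hOn, hOp⟩ := W.exists_O v hv'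
  set B := (W.strands v).filter (fun e => decide (1 < W.kp e v)) with hB
  set A := (W.strands v).filter (fun e => decide (W.kp e v < 1)) with hA
  have hBm : ∀ e, e ∈ B ↔ W.cr e v ∧ 1 < W.kp e v := by
    intro e; rw [hB, List.mem_filter, mem_strands, decide_eq_true_eq]
  have hAm : ∀ e, e ∈ A ↔ W.cr e v ∧ W.kp e v < 1 := by
    intro e; rw [hA, List.mem_filter, mem_strands, decide_eq_true_eq]
  have hBp : B.Pairwise (fun e f => W.kp f v < W.kp e v) := (W.pairwise_strands v).filter _
  have hAp : A.Pairwise (fun e f => W.kp f v < W.kp e v) := (W.pairwise_strands v).filter _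
  -- local facts
  have E1 : ∀ᶠ φ in 𝓝 s, ∀ e, W.L e ≠ v → W.R e ≠ v → (W.cr e (om φ) ↔ W.cr e v) := by
    rw [eventually_all]; intro e
    by_cases hL : W.L e = v
    · exact Eventually.of_forall fun φ h => absurd hL h
    by_cases hR : W.R e = v
    · exact Eventually.of_forall fun φ _ h => absurd hR h
    have hcv : W.cr e v ↔ W.cr e (om s) := by rw [hv]; exact W.cr_smul e r hr _
    have := W.cr_near s e (fun h => by
        obtain ⟨c, _, hc⟩ := W.left_on_ray s e h
        apply hL
        apply W.eq_of_dt_eq_zero ⟨e, Or.inl rfl⟩ hv'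
        rw [hc, hv, dt_smul_left, dt_smul_right, dt_self]; ring)
      (fun h => by
        obtain ⟨c, _, hc⟩ := W.right_on_ray s e h
        apply hR
        apply W.eq_of_dt_eq_zero ⟨e, Or.inr rfl⟩ hv'
        rw [hc, hv, dt_smul_left, dt_smul_right, dt_self]; ring)
    filter_upwards [this] with φ h _ _
    rw [h, hcv]
  have E2 : ∀ᶠ φ in 𝓝 s, ∀ e f, W.kp f v < W.kp e v → W.kp f (om φ) < W.kp e (om φ) := by
    rw [eventually_all]; intro e
    rw [eventually_all]; intro f
    by_cases h : W.kp f v < W.kp e v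
    · have h' : W.kp f (om s) < W.kp e (om s) := by
        rw [hv, kp_smul, kp_smul] at h
        exact lt_of_mul_lt_mul_left h hr.le
      have := ((W.continuous_kp f).tendsto s).eventually_lt ((W.continuous_kp e).tendsto s) h'
      filter_upwards [this] with φ hφ _ using hφ
    · exact Eventually.of_forall fun φ h' => absurd h' h
  have E3 : ∀ᶠ φ in 𝓝 s, ∀ e, (W.R e = v → 0 < dt (W.L e) (om φ)) ∧
      (W.L e = v → 0 < dt (om φ) (W.R e)) := by
    rw [eventually_all]; intro e
    refine Filter.Eventually.and ?_ ?_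
    · by_cases hR : W.R e = v
      · have h0 : 0 < dt (W.L e) (om s) := by
          have := W.pos e
          rw [hR, hv, dt_smul_right] at this
          exact (pos_iff_pos_of_mul_pos this).1 hr
        filter_upwards [((continuous_dt_om_right (W.L e)).tendsto s).eventually
          (lt_mem_nhds h0)] with φ h _ using h
      · exact Eventually.of_forall fun φ h => absurd h hR
    · by_cases hL : W.L e = v
      · have h0 : 0 < dt (om s) (W.R e) := by
          have := W.pos e
          rw [hL, hv, dt_smul_left] at this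
          exact (pos_iff_pos_of_mul_pos this).1 hr
        filter_upwards [((continuous_dt_om_left (W.R e)).tendsto s).eventually
          (lt_mem_nhds h0)] with φ h _ using h
      · exact Eventually.of_forall fun φ h => absurd h hL
  have E4l : ∀ᶠ φ in 𝓝[<] s, 0 < dt (om φ) v := by
    have : Set.Ioo (s - Real.pi) s ∈ 𝓝[<] s := Ioo_mem_nhdsLT (by linarith [Real.pi_pos])
    filter_upwards [this] with φ hφ
    rw [hv, dt_smul_right, dt_om_om]
    exact mul_pos hr (Real.sin_pos_of_pos_of_lt_pi (by linarith [hφ.2]) (by linarith [hφ.1]))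
  have E4r : ∀ᶠ φ in 𝓝[>] s, 0 < dt v (om φ) := by
    have : Set.Ioo s (s + Real.pi) ∈ 𝓝[>] s := Ioo_mem_nhdsGT (by linarith [Real.pi_pos])
    filter_upwards [this] with φ hφ
    rw [hv, dt_smul_left, dt_om_om]
    exact mul_pos hr (Real.sin_pos_of_pos_of_lt_pi (by linarith [hφ.1]) (by linarith [hφ.2]))
  have hcrI : ∀ e, W.cr e v → W.R e ≠ v := by
    intro e he h; have := he.2; rw [h, dt_self] at this; exact lt_irrefl _ this
  have hcrO : ∀ e, W.cr e v → W.L e ≠ v := by
    intro e he h; have := he.1; rw [h, dt_self] at this; exact lt_irrefl _ this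
  have hs0 : W.strands (om s) = B ++ A := by
    apply W.strands_eq
    · intro e
      rw [List.mem_append, hBm, hAm, ← W.cr_smul e r hr (om s), ← hv]
      constructor
      · rintro (h | h) <;> exact h.1
      · intro h
        rcases lt_or_gt_of_ne (W.kp_ne_one e v hv' h) with h' | h'
        · exact Or.inr ⟨h, h'⟩
        · exact Or.inl ⟨h, h'⟩
    · have key : ∀ a b, W.kp b v < W.kp a v → W.kp b (om s) < W.kp a (om s) := by
        intro a b h
        rw [hv, kp_smul, kp_smul] at h
        exact lt_of_mul_lt_mul_left h hr.le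
      rw [List.pairwise_append]
      refine ⟨hBp.imp (fun {a b} hab => key a b hab), hAp.imp (fun {a b} hab => key a b hab), ?_⟩
      intro b hb c hc
      exact key b c (lt_trans ((hAm c).1 hc).2 ((hBm b).1 hb).2)
  refine ⟨B, A, I, O, ?_, ?_, hBm, hAm, hI, hO, hIn, hOn, hIp, hs0⟩
  · filter_upwards [nhdsWithin_le_nhds E1, nhdsWithin_le_nhds E2, nhdsWithin_le_nhds E3, E4l]
      with φ p1 p2 p3 p4
    apply W.strands_eq
    · intro e
      rw [List.mem_append, List.mem_append, hBm, hAm, hI]
      by_cases hR : W.R e = v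
      · have : W.cr e (om φ) := ⟨(p3 e).1 hR, by rw [hR]; exact p4⟩
        simp [hR, this]
      by_cases hL : W.L e = v
      · have h1 : ¬ W.cr e (om φ) := by
          intro h; have := h.1; rw [hL, dt_anti] at this; linarith
        have h2 : ¬ W.cr e v := fun h => hcrO e h hL
        simp [hR, h1, h2]
      · rw [p1 e hL hR]
        constructor
        · rintro (h | h | h)
          · exact h.1
          · exact absurd h hR
          · exact h.1
        · intro h
          rcases lt_or_gt_of_ne (W.kp_ne_one e v hv' h) with h' | h'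
          · exact Or.inr (Or.inr ⟨h, h'⟩)
          · exact Or.inl ⟨h, h'⟩
    · rw [List.pairwise_append, List.pairwise_append]
      refine ⟨hBp.imp (fun {a b} hab => p2 a b hab), ⟨?_, hAp.imp (fun {a b} hab => p2 a b hab), ?_⟩, ?_⟩
      · refine (hIn.and hIp).imp_of_mem ?_
        intro c d hc hd hcd
        exact (W.factRR c d hcd.1 (by rw [(hI c).1 hc, (hI d).1 hd])).2 hcd.2 _
          (by rw [(hI c).1 hc]; exact p4)
      · intro c hc a ha
        apply p2
        have : W.kp c v = 1 := by rw [← (hI c).1 hc, kp_R]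
        rw [this]; exact ((hAm a).1 ha).2
      · intro b hb c hc
        apply p2
        rcases List.mem_append.1 hc with hc | hc
        · have : W.kp c v = 1 := by rw [← (hI c).1 hc, kp_R]
          rw [this]; exact ((hBm b).1 hb).2
        · exact lt_trans ((hAm c).1 hc).2 ((hBm b).1 hb).2
  · filter_upwards [nhdsWithin_le_nhds E1, nhdsWithin_le_nhds E2, nhdsWithin_le_nhds E3, E4r]
      with φ p1 p2 p3 p4
    apply W.strands_eq
    · intro e
      rw [List.mem_append, List.mem_append, hBm, hAm, hO]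
      by_cases hL : W.L e = v
      · have : W.cr e (om φ) := ⟨by rw [hL]; exact p4, (p3 e).2 hL⟩
        simp [hL, this]
      by_cases hR : W.R e = v
      · have h1 : ¬ W.cr e (om φ) := by
          intro h; have := h.2; rw [hR, dt_anti] at this; linarith
        have h2 : ¬ W.cr e v := fun h => hcrI e h hR
        simp [hL, h1, h2]
      · rw [p1 e hL hR]
        constructor
        · rintro (h | h | h)
          · exact h.1
          · exact absurd h hL
          · exact h.1
        · intro h
          rcases lt_or_gt_of_ne (W.kp_ne_one e v hv' h) with h' | h'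
          · exact Or.inr (Or.inr ⟨h, h'⟩)
          · exact Or.inl ⟨h, h'⟩
    · rw [List.pairwise_append, List.pairwise_append]
      refine ⟨hBp.imp (fun {a b} hab => p2 a b hab), ⟨?_, hAp.imp (fun {a b} hab => p2 a b hab), ?_⟩, ?_⟩
      · refine (hOn.and hOp).imp_of_mem ?_
        intro c d hc hd hcd
        exact (W.factLL c d hcd.1 (by rw [(hO c).1 hc, (hO d).1 hd])).2 hcd.2 _
          (by rw [(hO c).1 hc]; exact p4)
      · intro c hc a ha
        apply p2
        have : W.kp c v = 1 := by rw [← (hO c).1 hc, kp_L]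
        rw [this]; exact ((hAm a).1 ha).2
      · intro b hb c hc
        apply p2
        rcases List.mem_append.1 hc with hc | hc
        · have : W.kp c v = 1 := by rw [← (hO c).1 hc, kp_L]
          rw [this]; exact ((hBm b).1 hb).2
        · exact lt_trans ((hAm c).1 hc).2 ((hBm b).1 hb).2

end Web

end Pool.Agent.H58.EQ
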