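import Pool.Agent.H58.EQ.Plan

/-!
# There is no web: the count
-/

namespace Pool.Agent.H58.EQ

open Filter Topology

variable {E : Type} [Fintype E] [DecidableEq E]

theorem om_of_parallel {t s : ℝ} (h : dt (om t) (om s) = 0) : om s = om t ∨ om s = - om t := by
  rw [dt_om_om] at h
  rcases (Real.sin_eq_zero_iff.1 h) with ⟨n, hn⟩
  have hs : s = t + n * Real.pi := by linarith
  rcases Int.even_or_odd' n with ⟨m, hm | hm⟩
  · left
    have : s = t + m * (2 * Real.pi) := by rw [hs, hm]; push_cast; ring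
    rw [this]
    apply Complex.ext <;> simp [om]
  · right
    have : s = (t + Real.pi) + m * (2 * Real.pi) := by rw [hs, hm]; push_cast; ring
    rw [this]
    apply Complex.ext <;> simp [om]

theorem isW_om {t : ℝ} {w' : ℂ} (h : isW (om t) w') : ∃ t' : ℝ, w' = om t' := by
  rcases h with rfl | rfl | rfl
  · exact ⟨t, rfl⟩
  · exact ⟨t - 2 * Real.pi / 3 - 2 * Real.pi / 3, by rw [← om_zb, ← om_zb]; ring⟩
  · exact ⟨t - 2 * Real.pi / 3, by rw [← om_zb]⟩

theorem dt_W_ne {w z w' : ℂ} (h : isW w w') (h0 : dt w z ≠ 0) (h1 : dt w (z * zb) ≠ 0)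
    (h2 : dt w (z * zb ^ 2) ≠ 0) : dt w' z ≠ 0 := by
  have hr2 : ∀ a b : ℂ, dt (a * zb ^ 2) (b * zb ^ 2) = dt a b := by
    intro a b
    rw [pow_two, ← mul_assoc, ← mul_assoc, dt_rot, dt_rot]
  rcases h with rfl | rfl | rfl
  · exact h0
  · rw [← dt_rot]
    have : w * zb ^ 2 * zb = w := by rw [mul_assoc, mul_comm (zb ^ 2) zb, zb_cube, mul_one]
    rw [this]; exact h1
  · rw [← hr2]
    have : w * zb * zb ^ 2 = w := by rw [mul_assoc, zb_cube, mul_one]
    rw [this]; exact h2

theorem norm_om (s : ℝ) : ‖om s‖ = 1 := by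
  have h2 : ‖om s‖ ^ 2 = 1 := by
    rw [← Complex.normSq_eq_norm_sq, Complex.normSq_apply]
    simp only [om]
    have := Real.sin_sq_add_cos_sq s
    nlinarith
  have h3 : (‖om s‖ - 1) * (‖om s‖ + 1) = 0 := by ring_nf; linarith
  have h4 : 0 ≤ ‖om s‖ := norm_nonneg _
  rcases mul_eq_zero.1 h3 with h | h <;> linarith

theorem zb_ne_zero : zb ≠ 0 := by
  intro h
  have := congrArg Complex.re h
  simp [zb_re] at this

/-- the three vectors are different -/
theorem zb_pow_injective (w : ℂ) (hw : w ≠ 0) (i j : Fin 3)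
    (h : w * zb ^ (i : ℕ) = w * zb ^ (j : ℕ)) : i = j := by
  have h' := mul_left_cancel₀ hw h
  have h3 : 0 < Real.sqrt 3 := Real.sqrt_pos.2 (by norm_num)
  fin_cases i <;> fin_cases j <;>
    first
    | rfl
    | (exfalso
       have him := congrArg Complex.im h'
       simp only [pow_zero, pow_one, zb_sq, zb_im, Complex.one_im] at him
       linarith)

theorem planarA (W : Web E) (hwide : W.Wide) [Nonempty E] (vm : ℂ) (hvm : W.vtx vm)
    (htop : ∀ e, W.cr e vm → ¬ W.kp e vm < 1) (hR : ∃ e, W.R e = vm) : False := by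
  classical
  obtain ⟨v0, hv0, hvis⟩ := W.exists_visible
  have hr0 : 0 < ‖v0‖ := norm_pos_iff.2 (W.ne_zero_of_vtx hv0)
  have hr1 : 0 < ‖vm‖ := norm_pos_iff.2 (W.ne_zero_of_vtx hvm)
  have hp0 := polar v0
  have hp1 := polar vm
  set s0 := Complex.arg v0
  set s1 := Complex.arg vm
  set S : Finset ℂ := Finset.univ.image W.L ∪ Finset.univ.image W.R with hS
  have hSm : ∀ v, v ∈ S ↔ W.vtx v := by
    intro v
    rw [hS, Finset.mem_union, Finset.mem_image, Finset.mem_image]
    constructor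
    · rintro (⟨e, _, h⟩ | ⟨e, _, h⟩)
      · exact ⟨e, Or.inl h.symm⟩
      · exact ⟨e, Or.inr h.symm⟩
    · rintro ⟨e, h | h⟩
      · exact Or.inl ⟨e, Finset.mem_univ _, h.symm⟩
      · exact Or.inr ⟨e, Finset.mem_univ _, h.symm⟩
  have hSne : ∀ v ∈ S, v ≠ 0 := fun v hv => W.ne_zero_of_vtx ((hSm v).1 hv)
  -- choice of `u`
  have h1 : ∀ᶠ η in 𝓝[>] (0 : ℝ), ∀ v ∈ S, dt (om (s0 + 1 * η)) v ≠ 0 := by
    rw [Filter.eventually_all_finset]
    intro v hv
    exact gen_eventually s0 1 (Or.inl rfl) v (hSne v hv)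
  have h2 : ∀ᶠ η in 𝓝[>] (0 : ℝ), ∀ e, (W.cr e v0 ∨ W.R e = v0) →
      0 < dt (W.L e) (om (s0 + 1 * η)) := by
    rw [eventually_all]
    intro e
    by_cases he : W.cr e v0 ∨ W.R e = v0
    · have h0 : 0 < dt (W.L e) v0 := by
        rcases he with he | he
        · exact he.1
        · rw [← he]; exact W.pos e
      rw [hp0, dt_smul_right, mul_pos_iff_of_pos_left hr0] at h0
      filter_upwards [pos_eventually s0 1 _ h0] with η h _ using h
    · exact Eventually.of_forall fun η h => absurd h he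
  have h3 : ∀ᶠ η in 𝓝[>] (0 : ℝ), 0 < η ∧ η < Real.pi / 3 :=
    Ioo_mem_nhdsGT (by have := Real.pi_pos; positivity)
  obtain ⟨η, hη1, hη2, hη3, hη4⟩ := (h1.and (h2.and h3)).exists
  rw [one_mul] at hη1 hη2
  set u := om (s0 + η) with hu
  have hu0 : u ≠ 0 := om_ne_zero _
  have hV0 : V0 u (om s0) = -u := by
    unfold V0
    rw [if_neg]
    rw [hu, dt_om_om]
    have : s0 - (s0 + η) = -η := by ring
    rw [this, Real.sin_neg]
    have := Real.sin_pos_of_pos_of_lt_pi hη3 (by linarith [Real.pi_pos])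
    linarith
  -- choice of `w`
  obtain ⟨B, A, I, O, hleft, _, _, hA, hI, _, _, _, _, _⟩ := W.strands_vtx s1 _ hr1 vm hp1 hvm
  have hAnil : A = [] := by
    rw [List.eq_nil_iff_forall_not_mem]
    intro e he
    exact htop e ((hA e).1 he).1 ((hA e).1 he).2
  have hIne : ∃ I' e, I = I' ++ [e] ∧ W.R e = vm := by
    obtain ⟨e, he⟩ := hR
    have heI := (hI e).2 he
    rcases List.eq_nil_or_concat I with h | ⟨I', f, h⟩
    · rw [h] at heI; simp at heI
    · refine ⟨I', f, by rw [h, List.concat_eq_append], ?_⟩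
      apply (hI f).1; rw [h]; simp
  obtain ⟨I', eI, hII, hRI⟩ := hIne
  have k1 : ∀ᶠ η in 𝓝[>] (0 : ℝ), ∀ v ∈ S, dt (om (s1 + (-1) * η)) v ≠ 0 ∧
      dt (om (s1 + (-1) * η)) (v * zb) ≠ 0 ∧ dt (om (s1 + (-1) * η)) (v * zb ^ 2) ≠ 0 := by
    rw [Filter.eventually_all_finset]
    intro v hv
    have hv := hSne v hv
    exact (gen_eventually s1 (-1) (Or.inr rfl) v hv).and
      ((gen_eventually s1 (-1) (Or.inr rfl) _ (mul_ne_zero hv zb_ne_zero)).and
        (gen_eventually s1 (-1) (Or.inr rfl) _ (mul_ne_zero hv (pow_ne_zero 2 zb_ne_zero))))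
  have k2 : ∀ᶠ η in 𝓝[>] (0 : ℝ), dt (om (s1 + (-1) * η)) u ≠ 0 ∧
      dt (om (s1 + (-1) * η)) (u * zb) ≠ 0 ∧ dt (om (s1 + (-1) * η)) (u * zb ^ 2) ≠ 0 :=
    (gen_eventually s1 (-1) (Or.inr rfl) u hu0).and
      ((gen_eventually s1 (-1) (Or.inr rfl) _ (mul_ne_zero hu0 zb_ne_zero)).and
        (gen_eventually s1 (-1) (Or.inr rfl) _ (mul_ne_zero hu0 (pow_ne_zero 2 zb_ne_zero))))
  have k3 : ∀ᶠ η in 𝓝[>] (0 : ℝ), 0 < dt (W.L eI) (om (s1 + (-1) * η) * zb) := by
    have h0 : 0 < dt (W.L eI) (om (s1 - 2 * Real.pi / 3)) := by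
      have := hwide eI
      rw [hRI, hp1, mul_assoc, dt_smul_right, om_zb] at this
      exact (pos_iff_pos_of_mul_pos this).1 hr1
    filter_upwards [pos_eventually (s1 - 2 * Real.pi / 3) (-1) _ h0] with η h
    rw [om_zb]
    have e1 : s1 + -1 * η - 2 * Real.pi / 3 = s1 - 2 * Real.pi / 3 + -1 * η := by ring
    rw [e1]; exact h
  have k4 : ∀ᶠ η in 𝓝[>] (0 : ℝ), W.strands (om (s1 + (-1) * η)) = B ++ (I ++ A) := by
    have ht : Tendsto (fun η : ℝ => s1 + (-1) * η) (𝓝[>] 0) (𝓝[<] s1) := by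
      apply tendsto_nhdsWithin_of_tendsto_nhds_of_eventually_within
      · have hc : Continuous fun η : ℝ => s1 + (-1) * η := by fun_prop
        have := hc.tendsto 0
        simp only [mul_zero, add_zero] at this
        exact this.mono_left nhdsWithin_le_nhds
      · filter_upwards [self_mem_nhdsWithin] with η hη
        simp only [Set.mem_Ioi] at hη
        simp only [Set.mem_Iio]; linarith
    exact ht.eventually hleft
  obtain ⟨η', q1, q2, q3, q4⟩ := (k1.and (k2.and (k3.and k4))).exists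
  set w := om (s1 + (-1) * η') with hw
  have hw0 : w ≠ 0 := om_ne_zero _
  have hWv : ∀ w', isW w w' → ∀ v ∈ S, dt w' v ≠ 0 := by
    intro w' h v hv
    exact dt_W_ne h (q1 v hv).1 (q1 v hv).2.1 (q1 v hv).2.2
  have hWu : ∀ w', isW w w' → dt w' u ≠ 0 := fun w' h => dt_W_ne h q2.1 q2.2.1 q2.2.2
  have hlast : ∃ B' e, W.strands w = B' ++ [e] ∧ 0 < dt (W.L e) (w * zb) := by
    refine ⟨B ++ I', eI, ?_, q3⟩
    rw [q4, hAnil, List.append_nil, hII, List.append_assoc]
  have hWi : ∀ i : Fin 3, isW w (w * zb ^ (i : ℕ)) := by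
    intro i
    fin_cases i
    · left; simp
    · right; right; simp
    · right; left; simp
  -- the events
  let z : {x // x ∈ S} ⊕ (Bool ⊕ Fin 3) → ℂ := Sum.elim (fun v => (v : ℂ) / ((‖(v : ℂ)‖ : ℝ) : ℂ))
    (Sum.elim (fun b => if b then u else -u) (fun i => w * zb ^ (i : ℕ)))
  have hzv : ∀ v : {x // x ∈ S}, ∀ s, om s = z (Sum.inl v) → (v : ℂ) = ((‖(v : ℂ)‖ : ℝ) : ℂ) * om s := by
    intro v s h
    rw [h]
    have : ((‖(v : ℂ)‖ : ℝ) : ℂ) ≠ 0 := by
      rw [Complex.ofReal_ne_zero]; exact norm_ne_zero_iff.2 (hSne v v.2)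
    simp only [z, Sum.elim_inl]
    field_simp
  have hz1 : ∀ j, ∃ t : ℝ, z j = om t := by
    rintro (v | b | i)
    · refine ⟨Complex.arg v, ?_⟩
      have : ((‖(v : ℂ)‖ : ℝ) : ℂ) ≠ 0 := by
        rw [Complex.ofReal_ne_zero]; exact norm_ne_zero_iff.2 (hSne v v.2)
      simp only [z, Sum.elim_inl]
      rw [div_eq_iff this, mul_comm]
      exact polar (v : ℂ)
    · cases b
      · exact ⟨s0 + η + Real.pi, by simp [z, om_pi, hu]⟩
      · exact ⟨s0 + η, by simp [z, hu]⟩
    · obtain ⟨t', ht'⟩ := isW_om (hWi i)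
      exact ⟨t', by simp only [z, Sum.elim_inr]; exact ht'⟩
  have hzu : ∀ b : Bool, z (Sum.inr (Sum.inl b)) = u ∨ z (Sum.inr (Sum.inl b)) = -u := by
    intro b; cases b
    · right; simp [z]
    · left; simp [z]
  have hvdir : ∀ (v : {x // x ∈ S}) (x : ℂ), z (Sum.inl v) = x → dt x v = 0 := by
    intro v x h
    obtain ⟨t, ht⟩ := hz1 (Sum.inl v)
    have := hzv v t ht.symm
    rw [this, ← h, ht, dt_smul_right, dt_self, mul_zero]
  have hinj : Function.Injective z := by
    rintro (v | b | i) (v' | b' | i') h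
    · have h1 := hvdir v _ h
      obtain ⟨t, ht⟩ := hz1 (Sum.inl v')
      have h2 := hzv v' t ht.symm
      have h3 : dt (v' : ℂ) v = 0 := by
        rw [h2, dt_smul_left, ← ht, h1, mul_zero]
      have := W.eq_of_dt_eq_zero ((hSm _).1 v'.2) ((hSm _).1 v.2) h3
      exact congrArg Sum.inl (Subtype.ext this.symm)
    · exfalso
      have h1 := hvdir v _ h
      rcases hzu b' with h' | h' <;> rw [h'] at h1
      · exact hη1 v v.2 h1
      · rw [dt_neg_left, neg_eq_zero] at h1; exact hη1 v v.2 h1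
    · exact absurd (hvdir v _ h) (hWv _ (hWi i') v v.2)
    · exfalso
      have h1 := hvdir v' _ h.symm
      rcases hzu b with h' | h' <;> rw [h'] at h1
      · exact hη1 v' v'.2 h1
      · rw [dt_neg_left, neg_eq_zero] at h1; exact hη1 v' v'.2 h1
    · cases b <;> cases b'
      · rfl
      · exfalso; simp [z] at h; exact hu0 (by
          have : (2 : ℂ) * u = 0 := by linear_combination -h
          simpa using this)
      · exfalso; simp [z] at h; exact hu0 (by
          have : (2 : ℂ) * u = 0 := by linear_combination h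
          simpa using this)
      · rfl
    · exfalso
      have h1 := hWu _ (hWi i')
      have h2 : w * zb ^ (i' : ℕ) = z (Sum.inr (Sum.inl b)) := h.symm
      rcases hzu b with h' | h' <;> rw [h2, h'] at h1
      · exact h1 (dt_self u)
      · exact h1 (by rw [dt_neg_left, dt_self, neg_zero])
    · exact absurd (hvdir v' _ h.symm) (hWv _ (hWi i) v' v'.2)
    · exfalso
      have h1 := hWu _ (hWi i)
      have h2 : w * zb ^ (i : ℕ) = z (Sum.inr (Sum.inl b')) := h
      rcases hzu b' with h' | h' <;> rw [h2, h'] at h1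
      · exact h1 (dt_self u)
      · exact h1 (by rw [dt_neg_left, dt_self, neg_zero])
    · exact congrArg (fun i => Sum.inr (Sum.inr i)) (zb_pow_injective w hw0 i i' h)
  let δ : {x // x ∈ S} ⊕ (Bool ⊕ Fin 3) → ℤ := Sum.elim
    (fun v => ((Finset.univ.filter fun f => W.L f = (v : ℂ)).card : ℤ)
        - (Finset.univ.filter fun f => W.R f = (v : ℂ)).card - if (v : ℂ) = v0 then 2 else 0)
    (Sum.elim (fun _ => -2) (fun i => if i = 0 then 0 else 2))
  have hsweep := circle_sweep (fun x => 2 * HH W u w x) z hz1 hinj δ ?_ ?_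
  · -- the sum
    have hsum : ∑ j, δ j = -2 := by
      rw [Fintype.sum_sum_type, Fintype.sum_sum_type]
      have e1 : ∑ b : Bool, δ (Sum.inr (Sum.inl b)) = -4 := by simp [δ]
      have e2 : ∑ i : Fin 3, δ (Sum.inr (Sum.inr i)) = 4 := by
        simp only [δ, Sum.elim_inr]; decide
      have e3 : ∑ v : {x // x ∈ S}, δ (Sum.inl v) = -2 := by
        simp only [δ, Sum.elim_inl]
        rw [Finset.sum_coe_sort S (fun v => ((Finset.univ.filter fun f => W.L f = v).card : ℤ)
          - (Finset.univ.filter fun f => W.R f = v).card - if v = v0 then 2 else 0)]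
        rw [Finset.sum_sub_distrib, Finset.sum_sub_distrib, Finset.sum_ite_eq' S v0,
          if_pos ((hSm v0).2 hv0)]
        have hL : (Finset.univ : Finset E).card
            = ∑ v ∈ S, (Finset.univ.filter fun f => W.L f = v).card :=
          Finset.card_eq_sum_card_fiberwise fun e _ => (hSm _).2 ⟨e, Or.inl rfl⟩
        have hRr : (Finset.univ : Finset E).card
            = ∑ v ∈ S, (Finset.univ.filter fun f => W.R f = v).card :=
          Finset.card_eq_sum_card_fiberwise fun e _ => (hSm _).2 ⟨e, Or.inr rfl⟩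
        have hL' : ((Finset.univ : Finset E).card : ℤ)
            = ∑ v ∈ S, ((Finset.univ.filter fun f => W.L f = v).card : ℤ) := by
          exact_mod_cast hL
        have hR' : ((Finset.univ : Finset E).card : ℤ)
            = ∑ v ∈ S, ((Finset.univ.filter fun f => W.R f = v).card : ℤ) := by
          exact_mod_cast hRr
        rw [← hL', ← hR']; ring
      rw [e1, e2, e3]; norm_num
    rw [hsum] at hsweep
    norm_num at hsweep
  · -- constancy
    intro s hs
    have hnv : ∀ v, W.vtx v → ¬ ∃ r : ℝ, 0 < r ∧ v = (r : ℂ) * om s := by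
      rintro v hv ⟨r, hr, hvr⟩
      apply hs (Sum.inl ⟨v, (hSm v).2 hv⟩)
      simp only [z, Sum.elim_inl]
      have hn : ‖v‖ = r := by
        have h1 : ‖om s‖ = 1 := norm_om s
        rw [hvr, norm_mul, h1, Complex.norm_real, Real.norm_of_nonneg hr.le, mul_one]
      rw [hn, hvr]
      have : (r : ℂ) ≠ 0 := by exact_mod_cast hr.ne'
      field_simp
    have hus : dt u (om s) ≠ 0 := by
      intro h
      rcases om_of_parallel (t := s0 + η) h with h | h
      · exact hs (Sum.inr (Sum.inl true)) (by simp [z, h, hu])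
      · exact hs (Sum.inr (Sum.inl false)) (by simp [z, h, hu])
    have hWs : ∀ w', isW w w' → ¬ (dt w' (om s) = 0 ∧ 0 < dt (w' * zb) (om s)) := by
      rintro w' hw' ⟨h1, h2⟩
      obtain ⟨t', ht'⟩ := isW_om hw'
      rw [ht'] at h1
      rcases om_of_parallel h1 with h | h
      · have : ∃ i : Fin 3, w' = w * zb ^ (i : ℕ) := by
          rcases hw' with rfl | rfl | rfl
          · exact ⟨0, by simp⟩
          · exact ⟨2, by simp⟩
          · exact ⟨1, by simp⟩
        obtain ⟨i, hi⟩ := this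
        apply hs (Sum.inr (Sum.inr i))
        simp only [z, Sum.elim_inr]
        rw [h, ← ht', hi]
      · rw [h, ← ht', dt_neg_right] at h2
        have := dt_zb_self w' (by rw [ht']; exact om_ne_zero _)
        linarith
    filter_upwards [HH_const W u w hw0 s hnv hus hWs] with φ hφ
    simp only [hφ]
  · -- jumps
    rintro s (v | b | i) hs
    · have hv := hzv v s hs
      have hr : 0 < ‖(v : ℂ)‖ := norm_pos_iff.2 (hSne v v.2)
      have hdz : ∀ x, dt x v ≠ 0 → dt x (om s) ≠ 0 := by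
        intro x hx h
        apply hx
        rw [hv, dt_smul_right, h, mul_zero]
      have hus : dt u (om s) ≠ 0 := hdz u (hη1 v v.2)
      have hWs : ∀ w', isW w w' → ¬ (dt w' (om s) = 0 ∧ 0 < dt (w' * zb) (om s)) :=
        fun w' hw' h => hdz w' (hWv w' hw' v v.2) h.1
      obtain ⟨hl, hr', e1, e2, e3, e4⟩ :=
        jump_vtx W hwide u w hw0 s _ hr (v : ℂ) hv ((hSm _).1 v.2) hus hWs
      refine ⟨2 * hl, 2 * hr', ?_, ?_, ?_⟩
      · filter_upwards [e1] with φ h; rw [h]
      · filter_upwards [e2] with φ h; rw [h]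
      · simp only [δ, Sum.elim_inl]
        by_cases hvv : (v : ℂ) = v0
        · rw [if_pos hvv]
          have hsv : om s = om s0 := by
            have hn : ((‖v0‖ : ℝ) : ℂ) ≠ 0 := by exact_mod_cast hr0.ne'
            rw [hvv] at hv
            exact mul_left_cancel₀ hn (by rw [← hv, ← hp0])
          have hV1 := V1_spec w (om s) hw0 (om_ne_zero s) hWs
          have := e4 ⟨?_, ?_, ?_⟩
          · linarith
          · intro e; rw [hvv]; exact hvis e
          · rw [hsv, hV0, dt_neg_left, dt_anti, neg_neg]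
            rw [hsv] at hV1
            exact dt_cone' hV1.2.1 hV1.2.2 hη3 hη4
          · intro e he
            rw [hvv] at he
            rw [hsv, hV0, dt_neg_left, dt_anti, neg_neg]
            exact hη2 e he
        · rw [if_neg hvv]; linarith
    · have hub : om s = u ∨ om s = -u := by
        rcases hzu b with h | h
        · left; rw [hs, h]
        · right; rw [hs, h]
      have hdz : ∀ x, dt x u ≠ 0 → dt x (om s) ≠ 0 := by
        intro x hx
        rcases hub with h | h <;> rw [h]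
        · exact hx
        · rw [dt_neg_right]; exact neg_ne_zero.2 hx
      have hnv : ∀ v, W.vtx v → ¬ ∃ r : ℝ, 0 < r ∧ v = (r : ℂ) * om s := by
        rintro v hv ⟨r, hr, hvr⟩
        apply hη1 v ((hSm v).2 hv)
        rw [hvr, dt_smul_right]
        rcases hub with h | h <;> rw [h]
        · rw [dt_self, mul_zero]
        · rw [dt_neg_right, dt_self, neg_zero, mul_zero]
      have hWs : ∀ w', isW w w' → ¬ (dt w' (om s) = 0 ∧ 0 < dt (w' * zb) (om s)) :=
        fun w' hw' h => hdz w' (hWu w' hw') h.1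
      obtain ⟨hl, hr', e1, e2, e3⟩ := jump_zero W u w hw0 s hnv hub hWs
      refine ⟨2 * hl, 2 * hr', ?_, ?_, ?_⟩
      · filter_upwards [e1] with φ h; rw [h]
      · filter_upwards [e2] with φ h; rw [h]
      · simp only [δ, Sum.elim_inr, Sum.elim_inl]; linarith
    · have hsw : om s = w * zb ^ (i : ℕ) := hs
      have hus : dt u (om s) ≠ 0 := by
        rw [dt_anti, hsw]; exact neg_ne_zero.2 (hWu _ (hWi i))
      have hnv : ∀ v, W.vtx v → ¬ ∃ r : ℝ, 0 < r ∧ v = (r : ℂ) * om s := by
        rintro v hv ⟨r, hr, hvr⟩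
        apply hWv _ (hWi i) v ((hSm v).2 hv)
        rw [hvr, dt_smul_right, hsw, dt_self, mul_zero]
      obtain ⟨hl, hr', e1, e2, e3, e4⟩ := jump_W W u w _ s hnv hus (hWi i) hsw
      refine ⟨2 * hl, 2 * hr', ?_, ?_, ?_⟩
      · filter_upwards [e1] with φ h; rw [h]
      · filter_upwards [e2] with φ h; rw [h]
      · simp only [δ, Sum.elim_inr]
        by_cases hi : i = 0
        · subst hi
          have h00 : w * zb ^ ((0 : Fin 3) : ℕ) = w := by simp
          rw [h00] at hsw e4
          have := e4 (by rw [hsw]; exact hlast)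
          rw [if_pos rfl]; linarith
        · rw [if_neg hi]; linarith

/-! ### the mirror image -/

theorem dt_conj (z w : ℂ) : dt (starRingEnd ℂ z) (starRingEnd ℂ w) = - dt z w := by
  unfold dt; simp only [Complex.conj_re, Complex.conj_im]; ring

/-- the mirror image of a web -/
noncomputable def Web.mirror (W : Web E) : Web E where
  L := fun e => starRingEnd ℂ (W.R e)
  R := fun e => starRingEnd ℂ (W.L e)
  pos := by
    intro e; rw [dt_conj, ← dt_anti]; exact W.pos e
  two := by
    intro e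
    have h := W.two e
    have hinj : ∀ a b : ℂ, (starRingEnd ℂ a = starRingEnd ℂ b) ↔ a = b := by
      intro a b; exact (starRingEnd ℂ).injective.eq_iff
    simp only [hinj]
    constructor
    · rw [add_comm]; exact h.2
    · rw [add_comm]; exact h.1
  genLL := by
    intro e f h
    rw [dt_conj, neg_ne_zero]
    exact W.genRR e f (fun h' => h (by rw [h']))
  genLR := by
    intro e f h
    rw [dt_conj, neg_ne_zero]
    intro h0
    exact W.genLR f e (fun h' => h (by rw [h'])) (by rw [dt_anti, h0, neg_zero])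
  genRR := by
    intro e f h
    rw [dt_conj, neg_ne_zero]
    exact W.genLL e f (fun h' => h (by rw [h']))
  nc := by
    intro e f hef x h1 h2 h3 h4 h5 h6
    have hx : x = starRingEnd ℂ (starRingEnd ℂ x) := (Complex.conj_conj x).symm
    rw [hx] at h1 h2 h3 h4 h5 h6 ⊢
    set y := starRingEnd ℂ x
    rw [← map_sub, dt_conj, dt_conj] at h3 h6
    rw [dt_conj] at h1 h2 h4 h5
    have hinj : ∀ a b : ℂ, (starRingEnd ℂ a = starRingEnd ℂ b) ↔ a = b := by
      intro a b; exact (starRingEnd ℂ).injective.eq_iff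
    have key := W.nc e f hef y (by rw [dt_anti]; exact h2) (by rw [dt_anti]; exact h1)
      (by rw [dt_sub_left] at h3 ⊢; have := dt_anti (W.R e) (W.L e); linarith)
      (by rw [dt_anti]; exact h5) (by rw [dt_anti]; exact h4)
      (by rw [dt_sub_left] at h6 ⊢; have := dt_anti (W.R f) (W.L f); linarith)
    rw [hinj, hinj, hinj, hinj]
    exact ⟨key.1.symm, key.2.symm⟩
  op := by
    intro e f hef
    rintro ⟨⟨h1, h2, h3⟩, ⟨h4, h5, h6⟩⟩
    rw [← map_sub, dt_conj, dt_conj] at h3 h6
    rw [dt_conj] at h1 h2 h4 h5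
    apply W.op e f hef
    refine ⟨⟨by rw [dt_anti]; exact h5, by rw [dt_anti]; exact h4, ?_⟩,
      ⟨by rw [dt_anti]; exact h2, by rw [dt_anti]; exact h1, ?_⟩⟩
    · rw [dt_sub_left] at h6 ⊢; have := dt_anti (W.R f) (W.L f); linarith
    · rw [dt_sub_left] at h3 ⊢; have := dt_anti (W.R f) (W.L f); linarith

theorem Web.Wide.mirror {W : Web E} (hw : W.Wide) : W.mirror.Wide := by
  intro e
  have h : starRingEnd ℂ (W.L e) * zb = starRingEnd ℂ (W.L e * zb ^ 2) := by
    rw [zb_sq]
    apply Complex.ext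
    · simp only [Complex.mul_re, Complex.conj_re, Complex.conj_im, zb_re, zb_im]; ring
    · simp only [Complex.mul_im, Complex.conj_re, Complex.conj_im, zb_re, zb_im]
      ring
  have h0 : dt (W.mirror.L e) (W.mirror.R e * zb)
      = dt (starRingEnd ℂ (W.R e)) (starRingEnd ℂ (W.L e) * zb) := rfl
  rw [h0, h, dt_conj, ← dt_anti]
  have h2 := hw e
  rw [← dt_rot]
  have : W.L e * zb ^ 2 * zb = W.L e := by rw [mul_assoc, mul_comm (zb ^ 2) zb, zb_cube, mul_one]
  rw [this]; exact h2

/-- There is no web all of whose chords are seen under more than `120°`. -/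
theorem web_false {E : Type} [Fintype E] [DecidableEq E] [Nonempty E] (W : Web E)
    (hwide : W.Wide) : False := by
  obtain ⟨vm, hvm, htop⟩ := W.exists_top
  by_cases hR : ∃ e, W.R e = vm
  · exact planarA W hwide vm hvm htop hR
  · obtain ⟨e, he | he⟩ := hvm
    · refine planarA W.mirror hwide.mirror (starRingEnd ℂ vm) ⟨e, Or.inr (by rw [he]; rfl)⟩ ?_
        ⟨e, by rw [he]; rfl⟩
      intro f hf hk
      have hf1 : 0 < dt (starRingEnd ℂ (W.R f)) (starRingEnd ℂ vm) := hf.1
      have hf2 : 0 < dt (starRingEnd ℂ vm) (starRingEnd ℂ (W.L f)) := hf.2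
      rw [dt_conj] at hf1 hf2
      apply htop f
      · exact ⟨by rw [dt_anti]; exact hf2, by rw [dt_anti]; exact hf1⟩
      · have h1 := W.mirror.kp_eq f (starRingEnd ℂ vm)
        have h2 : W.mirror.kp f (starRingEnd ℂ vm)
            = (dt (starRingEnd ℂ (W.R f)) (starRingEnd ℂ vm)
              + dt (starRingEnd ℂ vm) (starRingEnd ℂ (W.L f)))
              / dt (starRingEnd ℂ (W.R f)) (starRingEnd ℂ (W.L f)) := h1
        rw [h2, dt_conj, dt_conj, dt_conj, ← dt_anti, ← dt_anti, ← dt_anti] at hk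
        rw [W.kp_eq, add_comm]; exact hk
    · exact hR ⟨e, he.symm⟩

end Pool.Agent.H58.EQ
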