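import Pool.Agent.H58.EQ.Jump
import Pool.Agent.H58.EQ.Sweep

/-!
# There is no web
-/

namespace Pool.Agent.H58.EQ

open Filter Topology

variable {E : Type} [Fintype E] [DecidableEq E]

theorem polar (z : ℂ) : z = ((‖z‖ : ℝ) : ℂ) * om (Complex.arg z) := by
  apply Complex.ext
  · simp only [Complex.mul_re, Complex.ofReal_re, Complex.ofReal_im, om, zero_mul, sub_zero]
    rw [Complex.norm_mul_cos_arg]
  · simp only [Complex.mul_im, Complex.ofReal_re, Complex.ofReal_im, om, zero_mul, add_zero]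
    rw [Complex.norm_mul_sin_arg]

theorem om_zb (t : ℝ) : om t * zb = om (t - 2 * Real.pi / 3) := by
  have h1 : Real.cos (2 * Real.pi / 3) = -1 / 2 := by
    have : 2 * Real.pi / 3 = Real.pi - Real.pi / 3 := by ring
    rw [this, Real.cos_pi_sub, Real.cos_pi_div_three]; norm_num
  have h2 : Real.sin (2 * Real.pi / 3) = Real.sqrt 3 / 2 := by
    have : 2 * Real.pi / 3 = Real.pi - Real.pi / 3 := by ring
    rw [this, Real.sin_pi_sub, Real.sin_pi_div_three]
  apply Complex.ext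
  · simp only [Complex.mul_re, om, zb_re, zb_im, Real.cos_sub, h1, h2]; ring
  · simp only [Complex.mul_im, om, zb_re, zb_im, Real.sin_sub, h1, h2]; ring

theorem om_pi (t : ℝ) : om (t + Real.pi) = - om t := by
  apply Complex.ext <;> simp [om]

theorem gen_eventually (s σ : ℝ) (hσ : σ = 1 ∨ σ = -1) (z : ℂ) (hz : z ≠ 0) :
    ∀ᶠ η in 𝓝[>] (0 : ℝ), dt (om (s + σ * η)) z ≠ 0 := by
  by_cases h : dt z (om s) = 0
  · obtain ⟨c, hc⟩ := eq_smul_om_of_dt_eq_zero z s h
    have hc0 : c ≠ 0 := by rintro rfl; apply hz; rw [hc]; simp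
    have : Set.Ioo 0 Real.pi ∈ 𝓝[>] (0 : ℝ) := Ioo_mem_nhdsGT Real.pi_pos
    filter_upwards [this] with η hη
    have hsin : 0 < Real.sin η := Real.sin_pos_of_pos_of_lt_pi hη.1 hη.2
    rw [hc, dt_smul_right, dt_om_om]
    have : s - (s + σ * η) = -(σ * η) := by ring
    rw [this, Real.sin_neg]
    rcases hσ with rfl | rfl
    · rw [one_mul]; exact mul_ne_zero hc0 (neg_ne_zero.2 hsin.ne')
    · rw [neg_one_mul, Real.sin_neg, neg_neg]; exact mul_ne_zero hc0 hsin.ne'
  · have h0 : dt (om (s + σ * 0)) z ≠ 0 := by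
      rw [mul_zero, add_zero, dt_anti]; exact neg_ne_zero.2 h
    have hc : Continuous fun η : ℝ => dt (om (s + σ * η)) z :=
      (continuous_dt_om_left z).comp (by fun_prop)
    exact nhdsWithin_le_nhds (hc.continuousAt.eventually_ne h0)

theorem pos_eventually (s σ : ℝ) (z : ℂ) (hz : 0 < dt z (om s)) :
    ∀ᶠ η in 𝓝[>] (0 : ℝ), 0 < dt z (om (s + σ * η)) := by
  have h0 : 0 < dt z (om (s + σ * 0)) := by rw [mul_zero, add_zero]; exact hz
  have hc : Continuous fun η : ℝ => dt z (om (s + σ * η)) :=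
    (continuous_dt_om_right z).comp (by fun_prop)
  exact nhdsWithin_le_nhds (hc.continuousAt.eventually (lt_mem_nhds h0))

/-- rotating from `p` by less than `60°` stays after `w'` -/
theorem dt_cone' {w' : ℂ} {s η : ℝ} (h1 : 0 < dt w' (om s)) (h2 : 0 < dt (om s) (w' * zb ^ 2))
    (hη0 : 0 < η) (hη : η < Real.pi / 3) : 0 < dt w' (om (s + η)) := by
  have hpi := Real.pi_pos
  have hsin : 0 < Real.sin η := Real.sin_pos_of_pos_of_lt_pi hη0 (by linarith)
  have hs2 : 0 < Real.sqrt 3 / 2 * Real.cos η - 1 / 2 * Real.sin η := by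
    have h3 : Real.sin (Real.pi / 3 - η) = Real.sqrt 3 / 2 * Real.cos η - 1 / 2 * Real.sin η := by
      rw [Real.sin_sub, Real.sin_pi_div_three, Real.cos_pi_div_three]
    rw [← h3]
    exact Real.sin_pos_of_pos_of_lt_pi (by linarith) (by linarith)
  have hid : Real.sqrt 3 / 2 * dt w' (om (s + η)) =
      (Real.sqrt 3 / 2 * Real.cos η - 1 / 2 * Real.sin η) * dt w' (om s)
        + Real.sin η * dt (om s) (w' * zb ^ 2) := by
    rw [zb_sq]; unfold dt om
    simp only [Complex.mul_re, Complex.mul_im, Real.cos_add, Real.sin_add]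
    ring
  have hpos : 0 < Real.sqrt 3 / 2 * dt w' (om (s + η)) := by
    rw [hid]; exact add_pos (mul_pos hs2 h1) (mul_pos hsin h2)
  have h3 : 0 < Real.sqrt 3 / 2 := by positivity
  exact (pos_iff_pos_of_mul_pos hpos).1 h3

/-- there is a vertex with no chord passing below it -/
theorem Web.exists_visible (W : Web E) [Nonempty E] :
    ∃ v, W.vtx v ∧ ∀ e, W.cr e v → ¬ 1 < W.kp e v := by
  by_contra hcon
  push Not at hcon
  set g : ℝ → Option E := fun φ => (W.strands (om φ)).head? with hg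
  have hloc : IsLocallyConstant g := by
    rw [IsLocallyConstant.iff_eventually_eq]
    intro s
    by_cases hs : ∃ v, W.vtx v ∧ ∃ r : ℝ, 0 < r ∧ v = (r : ℂ) * om s
    · obtain ⟨v, hv', r, hr, hv⟩ := hs
      obtain ⟨B, A, I, O, hleft, hright, hB, _, _, _, _, _, _, hs0⟩ :=
        W.strands_vtx s r hr v hv hv'
      obtain ⟨e, he1, he2⟩ := hcon v hv'
      have heB : e ∈ B := (hB e).2 ⟨he1, he2⟩
      obtain ⟨b, B', hBB⟩ : ∃ b B', B = b :: B' := by
        cases B with
        | nil => simp at heB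
        | cons b B' => exact ⟨b, B', rfl⟩
      have h0 : g s = some b := by rw [hg]; simp [hs0, hBB]
      rw [h0]
      have hall : ∀ᶠ φ in 𝓝 s, φ = s ∨ g φ = some b := by
        have hl : ∀ᶠ φ in 𝓝[<] s, g φ = some b := by
          filter_upwards [hleft] with φ hφ
          rw [hg]; simp [hφ, hBB]
        have hr : ∀ᶠ φ in 𝓝[>] s, g φ = some b := by
          filter_upwards [hright] with φ hφ
          rw [hg]; simp [hφ, hBB]
        rw [eventually_nhdsWithin_iff] at hl hr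
        filter_upwards [hl, hr] with φ p q
        rcases lt_trichotomy φ s with h | h | h
        · exact Or.inr (p h)
        · exact Or.inl h
        · exact Or.inr (q h)
      filter_upwards [hall] with φ hφ
      rcases hφ with rfl | h
      · exact h0
      · exact h
    · push Not at hs
      filter_upwards [W.strands_const s (fun v hv h => by
        obtain ⟨r, hr, h⟩ := h
        exact hs v hv r hr h)] with φ hφ
      rw [hg]; simp [hφ]
  obtain ⟨e⟩ := ‹Nonempty E›
  have hcr : W.cr e (W.L e + W.R e) := by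
    constructor
    · rw [dt_add_right, dt_self, zero_add]; exact W.pos e
    · rw [dt_add_left, dt_self, add_zero]; exact W.pos e
  have hne : W.L e + W.R e ≠ 0 := by
    intro h; have := hcr.1; rw [h] at this; simp [dt] at this
  have hpol := polar (W.L e + W.R e)
  rw [hpol, W.cr_smul e _ (norm_pos_iff.2 hne)] at hcr
  set φ := Complex.arg (W.L e + W.R e)
  have h1 : g φ = g (φ + Real.pi) := hloc.apply_eq_of_preconnectedSpace _ _
  have hmem := (W.mem_strands (om φ) e).2 hcr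
  obtain ⟨b, B', hBB⟩ : ∃ b B', W.strands (om φ) = b :: B' := by
    cases h : W.strands (om φ) with
    | nil => rw [h] at hmem; simp at hmem
    | cons b B' => exact ⟨b, B', rfl⟩
  have h2 : g φ = some b := by rw [hg]; simp [hBB]
  have h3 : b ∈ W.strands (om (φ + Real.pi)) := by
    rw [h1] at h2
    exact List.mem_of_mem_head? h2
  have h4 : b ∈ W.strands (om φ) := by rw [hBB]; simp
  rw [mem_strands] at h3 h4
  have h5 := h3.1
  rw [om_pi, dt_neg_right] at h5
  have h6 := h4.1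
  linarith

/-- no chord passes above the farthest vertex -/
theorem Web.exists_top (W : Web E) [Nonempty E] :
    ∃ v, W.vtx v ∧ ∀ e, W.cr e v → ¬ W.kp e v < 1 := by
  obtain ⟨e0⟩ := ‹Nonempty E›
  classical
  set S : Finset ℂ := Finset.univ.image W.L ∪ Finset.univ.image W.R with hS
  have hSm : ∀ v, v ∈ S ↔ W.vtx v := by
    intro v
    rw [hS, Finset.mem_union, Finset.mem_image, Finset.mem_image]
    constructor
    · rintro (⟨e, _, h⟩ | ⟨e, _, h⟩)
      · exact ⟨e, Or.inl h.symm⟩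
      · exact ⟨e, Or.inr h.symm⟩
    · rintro ⟨e, h | h⟩
      · exact Or.inl ⟨e, Finset.mem_univ _, h.symm⟩
      · exact Or.inr ⟨e, Finset.mem_univ _, h.symm⟩
  obtain ⟨v, hv, hmax⟩ := S.exists_max_image (fun z => ‖z‖) ⟨W.L e0, (hSm _).2 ⟨e0, Or.inl rfl⟩⟩
  refine ⟨v, (hSm v).1 hv, ?_⟩
  intro e he hk
  have hL : ‖W.L e‖ ≤ ‖v‖ := hmax _ ((hSm _).2 ⟨e, Or.inl rfl⟩)
  have hR : ‖W.R e‖ ≤ ‖v‖ := hmax _ ((hSm _).2 ⟨e, Or.inr rfl⟩)
  have hD := W.pos e
  set D := dt (W.L e) (W.R e) with hDdef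
  have hvn : 0 < ‖v‖ := norm_pos_iff.2 (W.ne_zero_of_vtx ((hSm v).1 hv))
  have hid : ((D : ℝ) : ℂ) * v = ((dt v (W.R e) : ℝ) : ℂ) * W.L e
      + ((dt (W.L e) v : ℝ) : ℂ) * W.R e := by
    rw [hDdef]
    apply Complex.ext <;> simp [dt] <;> ring
  have h1 : D * ‖v‖ ≤ dt v (W.R e) * ‖W.L e‖ + dt (W.L e) v * ‖W.R e‖ := by
    have e1 : ‖((D : ℝ) : ℂ) * v‖ = D * ‖v‖ := by
      rw [norm_mul, Complex.norm_real, Real.norm_of_nonneg hD.le]
    have e2 : ‖((dt v (W.R e) : ℝ) : ℂ) * W.L e‖ = dt v (W.R e) * ‖W.L e‖ := by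
      rw [norm_mul, Complex.norm_real, Real.norm_of_nonneg he.2.le]
    have e3 : ‖((dt (W.L e) v : ℝ) : ℂ) * W.R e‖ = dt (W.L e) v * ‖W.R e‖ := by
      rw [norm_mul, Complex.norm_real, Real.norm_of_nonneg he.1.le]
    rw [← e1, ← e2, ← e3, hid]
    exact norm_add_le _ _
  have h2 : W.kp e v * D = dt (W.L e) v + dt v (W.R e) := W.kp_mul e v
  have h3 : W.kp e v * D < 1 * D := mul_lt_mul_of_pos_right hk hD
  have h4 : dt v (W.R e) * ‖W.L e‖ ≤ dt v (W.R e) * ‖v‖ := mul_le_mul_of_nonneg_left hL he.2.le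
  have h5 : dt (W.L e) v * ‖W.R e‖ ≤ dt (W.L e) v * ‖v‖ := mul_le_mul_of_nonneg_left hR he.1.le
  nlinarith

end Pool.Agent.H58.EQ
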