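import Pool.Agent.H58.EQ.Main
import Pool.Agent.H58.EQ.G5
import Pool.Agent.H58.EQ.G2
import Pool.Agent.H58.EQ.G3

/-!
# No closed surface made of regular `p`-gons, `p ≥ 6`
-/

namespace Pool.Agent.H58.EQ

/-- At a vertex of maximal norm all edge directions point inwards. -/
theorem inner_pos_of_norm_le (x y : E3) (h : ‖y‖ ≤ ‖x‖) (hne : y ≠ x) :
    0 < inner ℝ (-x) (y - x) := by
  have h1 : ‖y‖ ^ 2 = ‖x‖ ^ 2 + 2 * inner ℝ x (y - x) + ‖y - x‖ ^ 2 := by
    have : y = x + (y - x) := by abel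
    conv_lhs => rw [this]
    rw [norm_add_sq_real]
  have h2 : ‖y‖ ^ 2 ≤ ‖x‖ ^ 2 := pow_le_pow_left₀ (norm_nonneg _) h 2
  have h3 : 0 < ‖y - x‖ ^ 2 := by
    have : 0 < ‖y - x‖ := norm_pos_iff.2 (sub_ne_zero.2 hne)
    positivity
  rw [inner_neg_left]; linarith

theorem half_le_cos {p : ℕ} (hp : 6 ≤ p) : 1 / 2 ≤ Real.cos (2 * Real.pi / p) := by
  have hp' : (6 : ℝ) ≤ p := by exact_mod_cast hp
  have hpi := Real.pi_pos
  rw [← Real.cos_pi_div_three]
  apply Real.cos_le_cos_of_nonneg_of_le_pi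
  · positivity
  · linarith
  · rw [div_le_div_iff₀ (by linarith) (by norm_num)]
    nlinarith

theorem no_surface (p : ℕ) (hp : 6 ≤ p) (F : Type) [Fintype F] [Nonempty F] :
    IsEmpty (RegularFacedSurface p F) := by
  classical
  constructor
  intro S
  have hp3 : 3 ≤ p := by omega
  have : NeZero p := ⟨by omega⟩
  obtain ⟨f0⟩ := ‹Nonempty F›
  obtain ⟨⟨fm, km⟩, -, hmax⟩ := (Finset.univ : Finset (F × ZMod p)).exists_max_image
    (fun q => ‖S.v q.1 q.2‖) ⟨(f0, 0), Finset.mem_univ _⟩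
  set x := S.v fm km with hx
  have hmax' : ∀ f k, ‖S.v f k‖ ≤ ‖x‖ := fun f k => hmax (f, k) (Finset.mem_univ _)
  let E := {f : F // ∃ k, S.v f k = x}
  have : Nonempty E := ⟨⟨fm, km, rfl⟩⟩
  let κ : E → ZMod p := fun e => e.2.choose
  have hκ : ∀ e : E, S.v e.1 (κ e) = x := fun e => e.2.choose_spec
  have hκu : ∀ (e : E) l, S.v e.1 l = x → l = κ e := by
    intro e l hl
    exact (S.regular e.1).injective hp3 (by rw [hl, hκ])
  let P : E → E3 := fun e => S.v e.1 (κ e + 1) - S.v e.1 (κ e)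
  let Q : E → E3 := fun e => S.v e.1 (κ e - 1) - S.v e.1 (κ e)
  have hang := fun e : E => (S.regular e.1).angle hp3 (κ e)
  have hP : ∀ e, 0 < inner ℝ (-x) (P e) := by
    intro e
    have h1 : S.v e.1 (κ e + 1) ≠ S.v e.1 (κ e) := by
      intro h
      have := (hang e).1
      rw [h, sub_self, norm_zero] at this
      exact lt_irrefl _ this
    rw [hκ e] at h1
    have := inner_pos_of_norm_le x _ (hmax' e.1 (κ e + 1)) h1
    simp only [P]; rw [hκ e]; exact this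
  have hQ : ∀ e, 0 < inner ℝ (-x) (Q e) := by
    intro e
    have h1 : S.v e.1 (κ e - 1) ≠ S.v e.1 (κ e) := by
      intro h
      have := (hang e).1
      rw [← (hang e).2.1, h, sub_self, norm_zero] at this
      exact lt_irrefl _ this
    rw [hκ e] at h1
    have := inner_pos_of_norm_le x _ (hmax' e.1 (κ e - 1)) h1
    simp only [Q]; rw [hκ e]; exact this
  have hshare : ∀ e f : E, e ≠ f → ∀ a b a' b' : ℝ, 0 ≤ a → 0 ≤ b → 0 ≤ a' → 0 ≤ b' →
      a • P e + b • Q e = a' • P f + b' • Q f → a • P e + b • Q e ≠ 0 →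
      ∃ y : E3, (y = P e ∨ y = Q e) ∧ (y = P f ∨ y = Q f) ∧ ∃ t : ℝ, 0 < t ∧
        a • P e + b • Q e = t • y := by
    intro e f hef a b a' b' ha hb ha' hb' hD hD0
    exact S.share hp3 e.1 f.1 (fun h => hef (Subtype.ext h)) (κ e) (κ f) (by rw [hκ, hκ])
      a b a' b' ha hb ha' hb' hD hD0
  have hnext : ∀ e : E, ∀ y, (y = P e ∨ y = Q e) → ∃! f, f ≠ e ∧ (y = P f ∨ y = Q f) := by
    intro e y hy
    obtain ⟨g, ⟨hg1, l, hl, hgy⟩, hgu⟩ := S.next hp3 e.1 (κ e) y hy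
    rw [hκ e] at hl
    have hlk : l = κ ⟨g, l, hl⟩ := hκu ⟨g, l, hl⟩ l hl
    refine ⟨⟨g, l, hl⟩, ⟨fun h => hg1 (congrArg Subtype.val h), ?_⟩, ?_⟩
    · simp only [P, Q]; rw [← hlk]; exact hgy
    · rintro g' ⟨h1, h2⟩
      apply Subtype.ext
      exact hgu g'.1 ⟨fun h => h1 (Subtype.ext h), κ g', by rw [hκ, hκ], h2⟩
  obtain ⟨W, -, -, hW, -⟩ := web_of_link (Real.cos (2 * Real.pi / p))
    (by have := half_le_cos hp; linarith) (cos_lt_one hp3) P Q (-x)
    hP hQ (fun e => (hang e).2.2) hshare hnext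
  exact web_false W (hW (half_le_cos hp))

end Pool.Agent.H58.EQ
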