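import Pool.Agent.H58.EQ.Link
import Pool.Agent.H63.EQ.Planar

/-!
# The possible types of equivelar manifolds with regular faces
-/

namespace Pool.Agent.H58.EQ

theorem equivelar_types (p q : ℕ) (hp : 3 ≤ p) (hq : 3 ≤ q) (F : Type) [Fintype F] [Nonempty F]
    (S : EquivelarRegular p q F) : p = 3 ∨ ((p = 4 ∨ p = 5) ∧ Odd q) := by
  by_cases h6 : 6 ≤ p
  · exact ((no_surface p h6 F).false S.toRegularFacedSurface).elim
  · by_cases h3 : p = 3
    · exact Or.inl h3
    · right
      refine ⟨by omega, ?_⟩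
      by_contra hodd
      rw [Nat.not_odd_iff_even] at hodd
      have : NeZero q := ⟨by omega⟩
      obtain ⟨W, A, h90, hA, hLR⟩ := link_web p q hp hq F S (cos_nonneg_of_four (by omega))
      exact H63.EQ.web_even_false (q := q) (W := W) (A := A) ⟨hA, hodd.two_dvd, hLR⟩ h90

end Pool.Agent.H58.EQ
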